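import Mathlib.Data.Nat.Basic

/-! The computable check of the finite part (definitions only). -/

namespace PowTri

/-- A complex ball at scale `2^64`: centre `a + b i`, radius `r`. -/
structure Cb where
  a : Int
  b : Int
  r : Nat

namespace Cb

def mul (x y : Cb) : Cb :=
  ⟨Int.shiftRight (Int.sub (Int.mul x.a y.a) (Int.mul x.b y.b)) 64,
   Int.shiftRight (Int.add (Int.mul x.a y.b) (Int.mul x.b y.a)) 64,
   Nat.add (Nat.shiftRight (Nat.add
     (Nat.mul (Nat.add x.a.natAbs x.b.natAbs) y.r)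
     (Nat.mul (Nat.add (Nat.add y.a.natAbs y.b.natAbs) y.r) x.r)) 64) 3⟩

def add (x y : Cb) : Cb := ⟨Int.add x.a y.a, Int.add x.b y.b, Nat.add x.r y.r⟩

/-- add an integer -/
def addI (x : Cb) (n : Int) : Cb := ⟨Int.add x.a (Int.mul n 18446744073709551616), x.b, x.r⟩

/-- `2 w + n` -/
def dblI (x : Cb) (n : Int) : Cb :=
  ⟨Int.add (Int.mul 2 x.a) (Int.mul n 18446744073709551616), Int.mul 2 x.b, Nat.mul 2 x.r⟩

def one : Cb := ⟨18446744073709551616, 0, 0⟩
def zero : Cb := ⟨0, 0, 0⟩

/-- squared modulus of the centre -/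
def nsq (x : Cb) : Nat :=
  Nat.add (Nat.mul x.a.natAbs x.a.natAbs) (Nat.mul x.b.natAbs x.b.natAbs)

/-- the radius is tiny relative to the centre -/
def small (x : Cb) : Bool := Nat.ble (Nat.mul (Nat.mul x.r x.r) 17592186044416) x.nsq

end Cb

/-- orbit of `1` -/
def xB (β : Cb) : Nat → Cb
  | 0 => Cb.one
  | m + 1 => (β.mul (xB β m)).addI (Int.neg (Int.shiftRight (β.mul (xB β m)).a 64))

/-- digits -/
def eB (β : Cb) (m : Nat) : Int := Int.shiftRight (β.mul (xB β m)).a 64

/-- membership in `[0,1)` -/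
def inI (x : Cb) : Bool :=
  match x.a with
  | Int.ofNat a => Nat.ble x.r a && Nat.blt (Nat.add a x.r) 18446744073709551616
  | Int.negSucc _ => false

def okB (β : Cb) : Nat → Bool
  | 0 => true
  | m + 1 => okB β m && inI (xB β (m + 1))

def yB (β z : Cb) : Nat → Cb
  | 0 => Cb.one
  | m + 1 => (z.mul (yB β z m)).addI (Int.neg (eB β m))

def uB (β z : Cb) : Nat → Cb
  | 0 => Cb.zero
  | m + 1 => (z.mul (uB β z m)).add (xB β m)

/-- test for the first criterion -/
def chkG (k g t U L : Nat) (y : Cb) : Bool :=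
  Nat.blt (Nat.mul (Nat.pow U (Nat.mul k (Nat.sub g 1)))
      (Nat.sub (Nat.pow U k) (Nat.pow 4294967296 k))) (Nat.pow 4294967296 (Nat.mul k g)) &&
  (Nat.blt (Nat.mul (Nat.pow (Nat.add 1024 t) 2) (Nat.pow 4294967296 (Nat.mul k g)))
      (Nat.mul (Nat.pow L (Nat.mul k g)) 1048576) &&
  (y.small && Nat.ble (Nat.pow 2 169) (Nat.mul (Nat.mul t t) (Nat.mul y.nsq 2097151))))

def chkD (D : Nat) (z : Cb) : Bool :=
  z.small && Nat.ble (Nat.mul (Nat.pow (Nat.add 65536 D) 2) (Nat.pow 2 149))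
    (Nat.mul z.nsq (Nat.mul 4294967296 2097151))

/-- test for the second criterion -/
def chkH (D : Nat) (z w : Cb) : Bool :=
  chkD D z && (w.small && ((z.addI (-1)).small &&
    Nat.blt (Nat.mul (z.addI (-1)).nsq (Nat.mul 2097154 4294967296))
      (Nat.mul w.nsq (Nat.mul 2097151 (Nat.mul D D)))))

/-- test for the second criterion, all larger exponents -/
def chkM (k D : Nat) (z α : Cb) (L : Nat) : Bool :=
  chkD D z && (Nat.ble 4294967296 (Nat.mul 2 (Nat.mul D D)) ||
    Nat.blt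
      (Nat.mul (Nat.mul (Nat.mul k k) (Nat.mul 2 (Nat.pow (Nat.add α.b.natAbs α.r) 2)))
        (Nat.mul (Nat.sub 4294967296 (Nat.mul 2 (Nat.mul D D))) 281474976710656))
      (Nat.mul (Nat.mul 4 (Nat.pow D 3))
        (Nat.mul (Nat.add (Nat.pow (Nat.sub α.a.natAbs α.r) 2)
          (Nat.mul L 79228162514264337593543950336)) 4294967296)))

def chk (k m g t U L : Nat) (β z : Cb) : Bool :=
  match g with
  | 0 =>
    match m with
    | 0 => false
    | 1 => chkH t z (z.dblI (-1))
    | m' + 2 => okB β (m' + 1) &&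
        chkH t z (((z.addI (-1)).mul (uB β z (m' + 2))).dblI 1)
  | g' + 1 =>
    match m with
    | 0 => false
    | 1 => chkG k (g' + 1) t U L (z.addI (-1))
    | m' + 2 => okB β (m' + 2) && (Int.decEq (eB β (m' + 1)) 1).decide &&
        chkG k (g' + 1) t U L (yB β z (m' + 2))

def loop (U L : Nat) (θ α : Cb) (D : Nat) : (cnt k codes : Nat) → (β z : Cb) → Bool
  | 0, k, _, _, z => chkM k D z α L
  | cnt + 1, k, codes, β, z =>
    chk k (codes % 64) (codes / 64 % 1024) (codes / 65536 % 1048576) U L β z &&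
      loop U L θ α D cnt (k + 1) (codes / 68719476736) (β.mul θ) (z.mul α)

/-- exact powers of a Gaussian integer -/
def gpow (a b : Int) : (fuel n : Nat) → Int × Int
  | 0, _ => (1, 0)
  | f + 1, n =>
    match n with
    | 0 => (1, 0)
    | n' + 1 =>
      match gpow a b f ((n' + 1) / 2) with
      | (x, y) =>
        match (Int.sub (Int.mul x x) (Int.mul y y), Int.mul 2 (Int.mul x y)) with
        | (p, q) =>
          match (n' + 1) % 2 with
          | 0 => (p, q)
          | _ + 1 => (Int.sub (Int.mul p a) (Int.mul q b), Int.add (Int.mul p b) (Int.mul q a))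

/-- the enclosure of `θ` at scale `S` -/
def chkTheta (S n T : Nat) : Bool :=
  Nat.blt S T &&
  (Nat.blt (Nat.mul (Nat.pow T n) (Nat.sub T S)) (Nat.pow S (Nat.add n 1)) &&
  Nat.blt (Nat.pow S (Nat.add n 1)) (Nat.mul (Nat.pow (Nat.add T 1) n) (Nat.sub (Nat.add T 1) S)))

/-- the enclosure of the root `α`: radius `n + 1`, at scale `S` -/
def chkAlpha (S n : Nat) (a b : Nat) : Bool :=
  match gpow a b 12 (n - 1) with
  | (p, q) =>
    match (Int.sub (Int.mul p a) (Int.mul q b), Int.add (Int.mul p b) (Int.mul q a)) with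
    | (p1, q1) =>
      match (Int.sub (Int.sub (Int.mul p1 (Int.sub a S)) (Int.mul q1 b))
          (Int.ofNat (Nat.pow S (Nat.add n 1))),
        Int.add (Int.mul p1 b) (Int.mul q1 (Int.sub a S))) with
      | (X, Y) =>
        match (Int.sub (Int.mul (Int.ofNat (Nat.add n 1)) a) (Int.mul (Int.ofNat n) S),
          Int.mul (Int.ofNat (Nat.add n 1)) b) with
        | (c, e) =>
          match (Int.sub (Int.mul p c) (Int.mul q e), Int.add (Int.mul p e) (Int.mul q c)) with
          | (V, W) =>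
            Nat.ble (Nat.add (Nat.mul X.natAbs X.natAbs) (Nat.mul Y.natAbs Y.natAbs))
              (Nat.add (Nat.mul V.natAbs V.natAbs) (Nat.mul W.natAbs W.natAbs)) &&
            Nat.blt 0 (Nat.add (Nat.mul V.natAbs V.natAbs) (Nat.mul W.natAbs W.natAbs))

def chkAll (n T a b D cnt codes : Nat) : Bool :=
  chkTheta 18446744073709551616 n T && (chkAlpha 18446744073709551616 n a b &&
    (Nat.blt (n + 1) a && (Nat.blt (n + 1) b &&
    (Nat.blt 4294967296
      (((a - (n + 1)) ^ 2 + (b - (n + 1)) ^ 2) / 79228162514264337593543950336) &&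
    loop (T / 4294967296 + 1)
      (((a - (n + 1)) ^ 2 + (b - (n + 1)) ^ 2) / 79228162514264337593543950336)
      ⟨T, 0, 1⟩ ⟨a, b, n + 1⟩ D cnt 2 codes
      (Cb.mul ⟨T, 0, 1⟩ ⟨T, 0, 1⟩) (Cb.mul ⟨a, b, n + 1⟩ ⟨a, b, n + 1⟩)))))

/-- check consecutive rows, starting with `n` -/
def chkRows : Nat → List Nat → Bool
  | n, T :: a :: b :: D :: cnt :: codes :: rs => chkAll n T a b D cnt codes && chkRows (n + 1) rs
  | _, _ => true

end PowTri
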