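import Mathlib
import Pool.Agent.W_MP_69fa08_nt.Comp

/-! Soundness of the ball arithmetic. -/

namespace PowTri

/-- the centre of a ball as a complex number -/
noncomputable def Cb.c (x : Cb) : ℂ := ⟨(x.a : ℝ), (x.b : ℝ)⟩

/-- membership in a ball (scale `2^64`) -/
def Cb.Mem (x : Cb) (z : ℂ) : Prop := ‖z * 18446744073709551616 - x.c‖ ≤ x.r

theorem Cb.mem_add {x y : Cb} {z w : ℂ} (hx : x.Mem z) (hy : y.Mem w) : (x.add y).Mem (z + w) := by
  unfold Cb.Mem at *
  have h1 : (x.add y).c = x.c + y.c := by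
    apply Complex.ext
    · change (((x.a + y.a : ℤ)) : ℝ) = (x.a : ℝ) + (y.a : ℝ); push_cast; ring
    · change (((x.b + y.b : ℤ)) : ℝ) = (x.b : ℝ) + (y.b : ℝ); push_cast; ring
  have h2 : ((x.add y).r : ℝ) = x.r + y.r := by
    change (((x.r + y.r : ℕ)) : ℝ) = _; push_cast; ring
  rw [h1, h2]
  have h3 : (z + w) * 18446744073709551616 - (x.c + y.c)
      = (z * 18446744073709551616 - x.c) + (w * 18446744073709551616 - y.c) := by ring
  rw [h3]
  exact (norm_add_le _ _).trans (add_le_add hx hy)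

theorem Cb.mem_addI {x : Cb} {z : ℂ} (hx : x.Mem z) (n : ℤ) : (x.addI n).Mem (z + n) := by
  unfold Cb.Mem at *
  have h1 : (x.addI n).c = x.c + n * 18446744073709551616 := by
    apply Complex.ext
    · change (((x.a + n * 18446744073709551616 : ℤ)) : ℝ) = _
      simp [Cb.c]
    · change ((x.b : ℤ) : ℝ) = _
      simp [Cb.c]
  have h2 : ((x.addI n).r : ℝ) = x.r := rfl
  rw [h1, h2]
  have h3 : (z + n) * 18446744073709551616 - (x.c + n * 18446744073709551616)
      = z * 18446744073709551616 - x.c := by ring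
  rw [h3]; exact hx

theorem Cb.mem_dblI {x : Cb} {z : ℂ} (hx : x.Mem z) (n : ℤ) : (x.dblI n).Mem (2 * z + n) := by
  unfold Cb.Mem at *
  have h1 : (x.dblI n).c = 2 * x.c + n * 18446744073709551616 := by
    apply Complex.ext
    · change (((2 * x.a + n * 18446744073709551616 : ℤ)) : ℝ) = _
      simp [Cb.c]
    · change (((2 * x.b : ℤ)) : ℝ) = _
      simp [Cb.c]
  have h2 : ((x.dblI n).r : ℝ) = 2 * x.r := by
    change (((2 * x.r : ℕ)) : ℝ) = _; push_cast; ring
  rw [h1, h2]
  have h3 : (2 * z + n) * 18446744073709551616 - (2 * x.c + n * 18446744073709551616)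
      = 2 * (z * 18446744073709551616 - x.c) := by ring
  rw [h3, norm_mul]
  have h4 : ‖(2 : ℂ)‖ = 2 := by simp
  rw [h4]
  linarith

theorem Cb.mem_one : Cb.one.Mem 1 := by
  unfold Cb.Mem
  have h1 : Cb.one.c = 18446744073709551616 := by
    apply Complex.ext
    · change ((18446744073709551616 : ℤ) : ℝ) = _; simp
    · change ((0 : ℤ) : ℝ) = _; simp
  rw [h1]; simp

theorem Cb.mem_zero : Cb.zero.Mem 0 := by
  unfold Cb.Mem
  have h1 : Cb.zero.c = 0 := by
    apply Complex.ext
    · change ((0 : ℤ) : ℝ) = _; simp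
    · change ((0 : ℤ) : ℝ) = _; simp
  rw [h1]; simp

theorem Cb.norm_c_le (x : Cb) : ‖x.c‖ ≤ x.a.natAbs + x.b.natAbs := by
  have h := Complex.norm_le_abs_re_add_abs_im x.c
  have h1 : ((x.a.natAbs : ℕ) : ℝ) = |(x.a : ℝ)| := by
    rw [Nat.cast_natAbs]; push_cast; rfl
  have h2 : ((x.b.natAbs : ℕ) : ℝ) = |(x.b : ℝ)| := by
    rw [Nat.cast_natAbs]; push_cast; rfl
  rw [h1, h2]
  exact h

theorem shiftR_bound (t : ℤ) :
    |(t : ℝ) / 18446744073709551616 - (Int.shiftRight t 64 : ℤ)| ≤ 1 := by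
  have h1 : Int.shiftRight t 64 = t / 18446744073709551616 := by
    have := Int.shiftRight_eq_div_pow t 64
    change Int.shiftRight t 64 = _ at this
    rw [this]; norm_num
  rw [h1]
  have h2 := Int.emod_add_mul_ediv t 18446744073709551616
  have h3 := Int.emod_nonneg t (show (18446744073709551616 : ℤ) ≠ 0 by norm_num)
  have h4 := Int.emod_lt_of_pos t (show (0 : ℤ) < 18446744073709551616 by norm_num)
  have h5 : (t : ℝ) / 18446744073709551616 - ((t / 18446744073709551616 : ℤ) : ℝ)
      = ((t % 18446744073709551616 : ℤ) : ℝ) / 18446744073709551616 := by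
    have h6 : (t : ℝ) = ((t % 18446744073709551616 : ℤ) : ℝ)
        + 18446744073709551616 * ((t / 18446744073709551616 : ℤ) : ℝ) := by
      exact_mod_cast h2.symm
    conv_lhs => rw [h6]
    field_simp
    ring
  rw [h5]
  have h7 : (0 : ℝ) ≤ ((t % 18446744073709551616 : ℤ) : ℝ) := by exact_mod_cast h3
  have h8 : ((t % 18446744073709551616 : ℤ) : ℝ) ≤ 18446744073709551616 := by exact_mod_cast h4.le
  rw [abs_of_nonneg (by positivity), div_le_one (by norm_num)]
  exact h8

theorem natShift_bound (t : ℕ) :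
    (t : ℝ) / 18446744073709551616 ≤ (Nat.shiftRight t 64 : ℕ) + 1 := by
  have h1 : Nat.shiftRight t 64 = t / 18446744073709551616 := by
    have := Nat.shiftRight_eq_div_pow t 64
    change Nat.shiftRight t 64 = _ at this
    rw [this]
  rw [h1, div_le_iff₀ (by norm_num)]
  have h2 := Nat.lt_div_mul_add (a := t) (b := 18446744073709551616) (by norm_num)
  have h3 : (t : ℝ) < (t / 18446744073709551616 : ℕ) * 18446744073709551616
      + 18446744073709551616 := by exact_mod_cast h2
  linarith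

theorem Cb.mem_mul {x y : Cb} {z w : ℂ} (hx : x.Mem z) (hy : y.Mem w) :
    (x.mul y).Mem (z * w) := by
  unfold Cb.Mem at *
  set N : ℕ := (x.a.natAbs + x.b.natAbs) * y.r + (y.a.natAbs + y.b.natAbs + y.r) * x.r with hN
  have hr : ((x.mul y).r : ℝ) = (Nat.shiftRight N 64 : ℕ) + 3 := by
    change (((Nat.shiftRight N 64 + 3 : ℕ)) : ℝ) = _
    push_cast; rfl
  have h0 : ‖z * w * 18446744073709551616 - x.c * y.c / 18446744073709551616‖
      ≤ (N : ℝ) / 18446744073709551616 := by
    have e : z * w * 18446744073709551616 - x.c * y.c / 18446744073709551616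
        = (x.c * (w * 18446744073709551616 - y.c)
          + (w * 18446744073709551616) * (z * 18446744073709551616 - x.c))
          / 18446744073709551616 := by
      field_simp
      ring
    rw [e, norm_div]
    have e2 : ‖(18446744073709551616 : ℂ)‖ = 18446744073709551616 := by simp
    rw [e2]
    apply div_le_div_of_nonneg_right _ (by norm_num)
    refine (norm_add_le _ _).trans ?_
    rw [norm_mul, norm_mul]
    have h1 := x.norm_c_le
    have h2 : ‖w * 18446744073709551616‖ ≤ y.a.natAbs + y.b.natAbs + y.r := by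
      have h3 := norm_add_le (w * 18446744073709551616 - y.c) y.c
      rw [sub_add_cancel] at h3
      have := y.norm_c_le
      linarith
    have h4 : ‖x.c‖ * ‖w * 18446744073709551616 - y.c‖
        ≤ (x.a.natAbs + x.b.natAbs) * y.r :=
      mul_le_mul h1 hy (norm_nonneg _) (by positivity)
    have h5 : ‖w * 18446744073709551616‖ * ‖z * 18446744073709551616 - x.c‖
        ≤ (y.a.natAbs + y.b.natAbs + y.r) * x.r :=
      mul_le_mul h2 hx (norm_nonneg _) (by positivity)
    rw [hN]
    push_cast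
    linarith
  have h1 : ‖x.c * y.c / 18446744073709551616 - (x.mul y).c‖ ≤ 2 := by
    have e3 : x.c * y.c / 18446744073709551616
        = ⟨((x.a * y.a - x.b * y.b : ℤ) : ℝ) / 18446744073709551616,
          ((x.a * y.b + x.b * y.a : ℤ) : ℝ) / 18446744073709551616⟩ := by
      have e4 : (18446744073709551616 : ℂ) = ((18446744073709551616 : ℝ) : ℂ) := by simp
      rw [e4]
      apply Complex.ext
      · rw [Complex.div_ofReal_re, Complex.mul_re]
        simp only [Cb.c]
        push_cast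
        ring
      · rw [Complex.div_ofReal_im, Complex.mul_im]
        simp only [Cb.c]
        push_cast
        ring
    refine (Complex.norm_le_abs_re_add_abs_im _).trans ?_
    rw [e3, Complex.sub_re, Complex.sub_im]
    have b1 := shiftR_bound (x.a * y.a - x.b * y.b)
    have b2 := shiftR_bound (x.a * y.b + x.b * y.a)
    have : |((x.a * y.a - x.b * y.b : ℤ) : ℝ) / 18446744073709551616 - (x.mul y).c.re| ≤ 1 := b1
    have : |((x.a * y.b + x.b * y.a : ℤ) : ℝ) / 18446744073709551616 - (x.mul y).c.im| ≤ 1 := b2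
    simp only
    linarith
  have h2 := natShift_bound N
  have h3 := norm_sub_le_norm_sub_add_norm_sub (z * w * 18446744073709551616)
    (x.c * y.c / 18446744073709551616) (x.mul y).c
  rw [hr]
  linarith

theorem Cb.norm_c_sq (x : Cb) : ‖x.c‖ ^ 2 = x.nsq := by
  rw [← Complex.normSq_eq_norm_sq, Complex.normSq_apply]
  change (x.a : ℝ) * (x.a : ℝ) + (x.b : ℝ) * (x.b : ℝ)
    = (((x.a.natAbs * x.a.natAbs + x.b.natAbs * x.b.natAbs : ℕ)) : ℝ)
  have h1 : ((x.a.natAbs * x.a.natAbs + x.b.natAbs * x.b.natAbs : ℕ) : ℤ)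
      = x.a * x.a + x.b * x.b := by
    push_cast
    rw [abs_mul_abs_self, abs_mul_abs_self]
  have h2 := congrArg (fun t : ℤ => (t : ℝ)) h1
  simp only [Int.cast_natCast] at h2
  rw [h2]; push_cast; ring

theorem Cb.small_r {x : Cb} (h : x.small = true) : (x.r : ℝ) * 4194304 ≤ ‖x.c‖ := by
  have h1 : x.r * x.r * 17592186044416 ≤ x.nsq := Nat.le_of_ble_eq_true h
  apply le_of_sq_le_sq _ (norm_nonneg _)
  rw [Cb.norm_c_sq]
  have h2 : ((x.r * x.r * 17592186044416 : ℕ) : ℝ) ≤ x.nsq := by exact_mod_cast h1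
  push_cast at h2
  linarith

theorem Cb.lower {x : Cb} {z : ℂ} (hx : x.Mem z) (h : x.small = true) :
    (x.nsq : ℝ) * 2097151 ≤ (‖z‖ * 18446744073709551616) ^ 2 * 2097152 := by
  have h1 := Cb.small_r h
  unfold Cb.Mem at hx
  have h2 : ‖z * 18446744073709551616‖ = ‖z‖ * 18446744073709551616 := by
    rw [norm_mul]; simp
  have h3 : ‖x.c‖ ≤ ‖z‖ * 18446744073709551616 + x.r := by
    have := norm_sub_norm_le x.c (z * 18446744073709551616)
    rw [norm_sub_rev] at this
    linarith
  rw [← Cb.norm_c_sq]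
  set c := ‖x.c‖
  have hc : 0 ≤ c := norm_nonneg _
  have h4 : c * (1 - 1 / 4194304) ≤ ‖z‖ * 18446744073709551616 := by linarith
  have h5 : (c * (1 - 1 / 4194304)) ^ 2 ≤ (‖z‖ * 18446744073709551616) ^ 2 :=
    pow_le_pow_left₀ (mul_nonneg hc (by norm_num)) h4 2
  nlinarith [sq_nonneg c]

theorem Cb.upper {x : Cb} {z : ℂ} (hx : x.Mem z) (h : x.small = true) :
    (‖z‖ * 18446744073709551616) ^ 2 * 2097152 ≤ (x.nsq : ℝ) * 2097154 := by
  have h1 := Cb.small_r h
  unfold Cb.Mem at hx
  have h2 : ‖z * 18446744073709551616‖ = ‖z‖ * 18446744073709551616 := by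
    rw [norm_mul]; simp
  have h3 : ‖z‖ * 18446744073709551616 ≤ ‖x.c‖ + x.r := by
    have := norm_sub_norm_le (z * 18446744073709551616) x.c
    linarith
  rw [← Cb.norm_c_sq]
  set c := ‖x.c‖
  have hc : 0 ≤ c := norm_nonneg _
  have h4 : ‖z‖ * 18446744073709551616 ≤ c * (1 + 1 / 4194304) := by linarith
  have h5 : (‖z‖ * 18446744073709551616) ^ 2 ≤ (c * (1 + 1 / 4194304)) ^ 2 :=
    pow_le_pow_left₀ (by positivity) h4 2
  nlinarith [sq_nonneg c]

end PowTri
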