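import Mathlib

/-!
Any root of absolute value `> 1` of the trinomial `X^d - X^(d-1) - 1` is an algebraic
conjugate of the real root `θ > 1`.
-/

namespace PowTri

open Polynomial

theorem unitTrinomial_key {p q : ℤ[X]} (hp : p.IsUnitTrinomial)
    (hpq : p * p.mirror = q * q.mirror) :
    q = p ∨ q = -p ∨ q = p.mirror ∨ q = -p.mirror := by
  have hq : IsUnitTrinomial q := (isUnitTrinomial_iff'' hpq).mp hp
  obtain ⟨k, m, n, hkm, hmn, u, v, w, hp⟩ := hp
  obtain ⟨k', m', n', hkm', hmn', x, y, z, hq⟩ := hq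
  have hk : k = k' := by
    rw [← mul_right_inj' (show 2 ≠ 0 from two_ne_zero), ←
      trinomial_natTrailingDegree hkm hmn u.ne_zero, ← hp, ← natTrailingDegree_mul_mirror, hpq,
      natTrailingDegree_mul_mirror, hq, trinomial_natTrailingDegree hkm' hmn' x.ne_zero]
  have hn : n = n' := by
    rw [← mul_right_inj' (show 2 ≠ 0 from two_ne_zero), ← trinomial_natDegree hkm hmn w.ne_zero, ←
      hp, ← natDegree_mul_mirror, hpq, natDegree_mul_mirror, hq,
      trinomial_natDegree hkm' hmn' z.ne_zero]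
  subst hk
  subst hn
  rcases eq_or_eq_neg_of_sq_eq_sq (y : ℤ) (v : ℤ)
      ((Int.isUnit_sq y.isUnit).trans (Int.isUnit_sq v.isUnit).symm) with
    (h1 | h1)
  · rw [h1] at hq
    rcases IsUnitTrinomial.irreducible_aux3 hkm hmn hkm' hmn' u v w x z hp hq hpq with (h2 | h2)
    · exact Or.inl h2
    · exact Or.inr (Or.inr (Or.inl h2))
  · rw [h1] at hq
    rw [trinomial_def] at hp
    rw [← neg_inj, neg_add, neg_add, ← neg_mul, ← neg_mul, ← neg_mul, ← C_neg, ← C_neg, ← C_neg]
      at hp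
    rw [← neg_mul_neg, ← mirror_neg] at hpq
    rcases IsUnitTrinomial.irreducible_aux3 hkm hmn hkm' hmn' (-u) (-v) (-w) x z hp hq hpq
      with (rfl | rfl)
    · exact Or.inr (Or.inl rfl)
    · exact Or.inr (Or.inr (Or.inr p.mirror_neg))

theorem aeval_mirror_inv {K : Type*} [Field K] [Algebra ℤ K] (p : ℤ[X]) {x : K} (hx : x ≠ 0)
    (h : aeval x p = 0) : aeval x⁻¹ p.mirror = 0 := by
  let _ := invertibleOfNonzero hx
  have h2 : eval₂ (algebraMap ℤ K) (⅟x) (reverse p) = 0 :=
    (eval₂_reverse_eq_zero_iff _ x p).mpr h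
  rw [mirror, map_mul, aeval_def x⁻¹ p.reverse]
  rw [invOf_eq_inv] at h2
  rw [h2, zero_mul]

/-- the trinomial -/
noncomputable def tri (d : ℕ) : ℤ[X] := X ^ d - X ^ (d - 1) - 1

theorem tri_unit {d : ℕ} (hd : 2 ≤ d) : (tri d).IsUnitTrinomial := by
  refine ⟨0, d - 1, d, by omega, by omega, -1, -1, 1, ?_⟩
  simp only [tri, trinomial_def, Units.val_neg, Units.val_one]
  simp only [map_neg, map_one, pow_zero, mul_one]
  ring

theorem tri_monic {d : ℕ} (hd : 2 ≤ d) : (tri d).Monic := by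
  have : tri d = trinomial 0 (d - 1) d (-1) (-1) 1 := by
    simp only [tri, trinomial_def, map_neg, map_one, pow_zero, mul_one]
    ring
  rw [this]
  exact trinomial_monic (by omega) (by omega)

theorem aeval_tri {K : Type*} [CommRing K] [Algebra ℤ K] (d : ℕ) (x : K) :
    aeval x (tri d) = x ^ d - x ^ (d - 1) - 1 := by
  simp [tri]

theorem conj_root {d : ℕ} (hd : 2 ≤ d) {θ : ℝ} (h1 : 1 < θ) (hθ : θ ^ d = θ ^ (d - 1) + 1)
    {α : ℂ} (hα : 1 < ‖α‖) (hαr : α ^ d = α ^ (d - 1) + 1) {q : ℤ[X]} (hq : aeval θ q = 0) :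
    aeval α q = 0 := by
  have hP : aeval θ (tri d) = 0 := by rw [aeval_tri, hθ]; ring
  have hPα : aeval α (tri d) = 0 := by rw [aeval_tri, hαr]; ring
  have hint : IsIntegral ℤ θ := ⟨tri d, tri_monic hd, by rw [← aeval_def]; exact hP⟩
  have hfP := minpoly.isIntegrallyClosed_dvd hint hP
  have hfq := minpoly.isIntegrallyClosed_dvd hint hq
  have hfθ : aeval θ (minpoly ℤ θ) = 0 := minpoly.aeval ℤ θ
  have hfne : minpoly ℤ θ ≠ 0 := minpoly.ne_zero hint
  set f := minpoly ℤ θ with hf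
  obtain ⟨g, hg⟩ := hfP
  obtain ⟨q', rfl⟩ := hfq
  have hPne : tri d ≠ 0 := (tri_monic hd).ne_zero
  have hgne : g ≠ 0 := by
    rintro rfl
    exact hPne (by rw [hg, mul_zero])
  have hθ0 : θ ≠ 0 := by positivity
  have hα0 : α ≠ 0 := by
    rintro rfl
    simp at hα
    linarith
  have hdd : d = d - 1 + 1 := by omega
  -- inverses of the roots are not roots
  have noθ : aeval θ⁻¹ (tri d) ≠ 0 := by
    rw [aeval_tri]
    intro h
    have h3 : θ ^ d * (θ⁻¹ ^ d - θ⁻¹ ^ (d - 1) - 1) = 0 := by rw [h, mul_zero]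
    have h4 : θ ^ d * θ⁻¹ ^ d = 1 := by rw [← mul_pow, mul_inv_cancel₀ hθ0, one_pow]
    have h5 : θ ^ d * θ⁻¹ ^ (d - 1) = θ := by
      rw [hdd, pow_succ]
      simp only [Nat.add_sub_cancel]
      rw [mul_right_comm, ← mul_pow, mul_inv_cancel₀ hθ0, one_pow, one_mul]
    have h6 : 0 < θ ^ d := by positivity
    nlinarith
  have noα : aeval α⁻¹ (tri d) ≠ 0 := by
    rw [aeval_tri]
    intro h
    have h3 : α ^ d * (α⁻¹ ^ d - α⁻¹ ^ (d - 1) - 1) = 0 := by rw [h, mul_zero]
    have h4 : α ^ d * α⁻¹ ^ d = 1 := by rw [← mul_pow, mul_inv_cancel₀ hα0, one_pow]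
    have h5 : α ^ d * α⁻¹ ^ (d - 1) = α := by
      rw [hdd, pow_succ]
      simp only [Nat.add_sub_cancel]
      rw [mul_right_comm, ← mul_pow, mul_inv_cancel₀ hα0, one_pow, one_mul]
    have h6 : α ^ d = 1 - α := by
      have : α ^ d * α⁻¹ ^ d - α ^ d * α⁻¹ ^ (d - 1) - α ^ d = 0 := by
        rw [← h3]; ring
      rw [h4, h5] at this
      linear_combination -this
    have h7 : α ^ d * (α - 1) = α := by
      have h8 : α ^ d = α ^ (d - 1) * α := by rw [← pow_succ, ← hdd]
      have h9 : α ^ (d - 1) * (α - 1) = 1 := by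
        have : α ^ (d - 1) * α = α ^ (d - 1) + 1 := by rw [← h8]; exact hαr
        linear_combination this
      rw [h8]
      linear_combination α * h9
    have h10 : α ^ 2 - α + 1 = 0 := by
      rw [h6] at h7
      linear_combination -h7
    have h11 : α ^ 3 = -1 := by linear_combination (α + 1) * h10
    have h12 : ‖α‖ ^ 3 = 1 := by rw [← norm_pow, h11, norm_neg, norm_one]
    have h13 : 1 < ‖α‖ ^ 3 := one_lt_pow₀ hα (by norm_num)
    linarith
  rw [map_mul]
  have hcase : aeval α f = 0 ∨ aeval α g = 0 := by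
    rw [hg, map_mul] at hPα
    exact mul_eq_zero.mp hPα
  rcases hcase with h | hgα
  · rw [h, zero_mul]
  · exfalso
    have key : (f * g.mirror) * (f * g.mirror).mirror = tri d * (tri d).mirror := by
      rw [hg, mirror_mul_of_domain, mirror_mul_of_domain, mirror_mirror]
      ring
    have hroot_dvd : ∀ {K : Type} [Field K] [Algebra ℤ K] (x : K), aeval x g = 0 →
        aeval x (tri d) = 0 := by
      intro K _ _ x hx
      rw [hg, map_mul, hx, mul_zero]
    have hroot_dvd' : ∀ {K : Type} [Field K] [Algebra ℤ K] (x : K), aeval x f = 0 →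
        aeval x (tri d) = 0 := by
      intro K _ _ x hx
      rw [hg, map_mul, hx, zero_mul]
    have hgm : aeval α⁻¹ g.mirror = 0 := aeval_mirror_inv g hα0 hgα
    have hfm : aeval θ⁻¹ f.mirror = 0 := aeval_mirror_inv f hθ0 hfθ
    rcases unitTrinomial_key (tri_unit hd) key.symm with h | h | h | h
    · -- f * g.mirror = tri = f * g
      rw [hg] at h
      have : g.mirror = g := mul_left_cancel₀ hfne h
      rw [this] at hgm
      exact noα (hroot_dvd _ hgm)
    · rw [hg, ← mul_neg] at h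
      have : g.mirror = -g := mul_left_cancel₀ hfne h
      rw [this, map_neg, neg_eq_zero] at hgm
      exact noα (hroot_dvd _ hgm)
    · rw [hg, mirror_mul_of_domain] at h
      have hgm0 : g.mirror ≠ 0 := by rwa [Ne, mirror_eq_zero]
      have : f = f.mirror := mul_right_cancel₀ hgm0 h
      rw [← this] at hfm
      exact noθ (hroot_dvd' _ hfm)
    · rw [hg, mirror_mul_of_domain, ← neg_mul] at h
      have hgm0 : g.mirror ≠ 0 := by rwa [Ne, mirror_eq_zero]
      have : f = -f.mirror := mul_right_cancel₀ hgm0 h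
      have h2 : f.mirror = -f := neg_eq_iff_eq_neg.mp this.symm
      rw [h2, map_neg, neg_eq_zero] at hfm
      exact noθ (hroot_dvd' _ hfm)

end PowTri
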