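import Mathlib
import Pool.Agent.W_MP_69fa08_nt.Conj

/-!
The conjugate orbit of a Parry number and two necessary inequalities.
-/

namespace PowTri

open Polynomial

/-- the beta transformation `x ↦ βx mod 1` -/
noncomputable def Tb (β x : ℝ) : ℝ := β * x - (⌊β * x⌋ : ℝ)

/-- `β` is a Parry number: the orbit `{T_β^n(1) : n ≥ 1}` is finite. -/
def IsParry (β : ℝ) : Prop := (Set.range fun n : ℕ => (Tb β)^[n + 1] 1).Finite

/-- the orbit of `1` -/
noncomputable def orb (β : ℝ) (n : ℕ) : ℝ := (Tb β)^[n] 1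

/-- the digits -/
noncomputable def dig (β : ℝ) (n : ℕ) : ℤ := ⌊β * orb β n⌋

theorem orb_zero (β : ℝ) : orb β 0 = 1 := rfl

theorem orb_succ (β : ℝ) (n : ℕ) : orb β (n + 1) = β * orb β n - dig β n := by
  rw [orb, Function.iterate_succ_apply']
  rfl

theorem orb_nonneg (β : ℝ) (n : ℕ) : 0 ≤ orb β n := by
  cases n with
  | zero => rw [orb_zero]; norm_num
  | succ n => rw [orb_succ]; exact Int.fract_nonneg (β * orb β n)

theorem orb_lt_one (β : ℝ) (n : ℕ) : orb β (n + 1) < 1 := by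
  rw [orb_succ]; exact Int.fract_lt_one (β * orb β n)

theorem orb_le_one (β : ℝ) (n : ℕ) : orb β n ≤ 1 := by
  cases n with
  | zero => rw [orb_zero]
  | succ n => exact (orb_lt_one β n).le

/-- a bounded sequence obeying the digit recursion of `β` with multiplier `z` -/
def Shadow (β : ℝ) (z : ℂ) : Prop :=
  ∃ y : ℕ → ℂ, y 0 = 1 ∧ (∀ n, y (n + 1) = z * y n - (dig β n : ℂ)) ∧ ∃ C : ℝ, ∀ n, ‖y n‖ ≤ C

/-- polynomial expressions of the orbit -/
noncomputable def pol (β : ℝ) (k : ℕ) : ℕ → ℤ[X]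
  | 0 => 1
  | n + 1 => X ^ k * pol β k n - C (dig β n)

theorem aeval_pol (θ : ℝ) (k n : ℕ) : aeval θ (pol (θ ^ k) k n) = orb (θ ^ k) n := by
  induction n with
  | zero => simp [pol, orb_zero]
  | succ n ih => rw [pol, orb_succ, map_sub, map_mul, ih]; simp

theorem shadow_of_parry {d : ℕ} (hd : 2 ≤ d) {θ : ℝ} (h1 : 1 < θ)
    (hθ : θ ^ d = θ ^ (d - 1) + 1) {α : ℂ} (hα : 1 < ‖α‖) (hαr : α ^ d = α ^ (d - 1) + 1)
    (k : ℕ) (hP : IsParry (θ ^ k)) : Shadow (θ ^ k) (α ^ k) := by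
  set β := θ ^ k with hβ
  let y : ℕ → ℂ := fun n => aeval α (pol β k n)
  refine ⟨y, by simp [y, pol], fun n => by simp [y, pol], ?_⟩
  -- `y n` only depends on `orb β n`
  have hdep : ∀ m n, orb β m = orb β n → y m = y n := by
    intro m n h
    have h2 : aeval θ (pol β k m - pol β k n) = 0 := by
      rw [map_sub, hβ, aeval_pol, aeval_pol, ← hβ, h, sub_self]
    have h3 := conj_root hd h1 hθ hα hαr h2
    rw [map_sub, sub_eq_zero] at h3
    exact h3
  have hfin : (Set.range (orb β)).Finite := by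
    have : Set.range (orb β) ⊆ {1} ∪ Set.range fun n : ℕ => (Tb β)^[n + 1] 1 := by
      rintro _ ⟨n, rfl⟩
      cases n with
      | zero => left; rfl
      | succ n => right; exact ⟨n, rfl⟩
    exact ((Set.finite_singleton (1 : ℝ)).union hP).subset this
  have hfin2 : (Set.range y).Finite := by
    let g : ℝ → ℂ := fun t => y (Function.invFun (orb β) t)
    have : Set.range y ⊆ g '' Set.range (orb β) := by
      rintro _ ⟨n, rfl⟩
      refine ⟨orb β n, ⟨n, rfl⟩, ?_⟩
      exact hdep _ _ (Function.invFun_eq (f := orb β) ⟨n, rfl⟩)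
    exact (hfin.image g).subset this
  obtain ⟨C, hC⟩ := (hfin2.image (fun z => ‖z‖)).bddAbove
  exact ⟨C, fun n => hC ⟨y n, ⟨n, rfl⟩, rfl⟩⟩

/-- An expanding recursion started outside the trapping disc is unbounded. -/
theorem trap {r b : ℝ} (hr : 1 < r) (w : ℕ → ℂ) (N : ℕ)
    (hrec : ∀ n, N ≤ n → r * ‖w n‖ - b ≤ ‖w (n + 1)‖) {C : ℝ} (hC : ∀ n, ‖w n‖ ≤ C) :
    ‖w N‖ * (r - 1) ≤ b := by
  by_contra hcon
  push Not at hcon
  set S := b / (r - 1) with hS
  have hr1 : 0 < r - 1 := by linarith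
  have hSb : S * (r - 1) = b := by rw [hS]; field_simp
  have hη : 0 < ‖w N‖ - S := by
    have : S < ‖w N‖ := by
      rw [hS, div_lt_iff₀ hr1]; exact hcon
    linarith
  have hgrow : ∀ i, r ^ i * (‖w N‖ - S) ≤ ‖w (N + i)‖ - S := by
    intro i
    induction i with
    | zero => simp
    | succ i ih =>
      have h1 := hrec (N + i) (by omega)
      have h2 : r * (r ^ i * (‖w N‖ - S)) ≤ r * (‖w (N + i)‖ - S) :=
        mul_le_mul_of_nonneg_left ih (by linarith)
      have h3 : r ^ (i + 1) * (‖w N‖ - S) = r * (r ^ i * (‖w N‖ - S)) := by ring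
      rw [h3, ← add_assoc]
      nlinarith
  obtain ⟨i, hi⟩ := pow_unbounded_of_one_lt ((C - S) / (‖w N‖ - S)) hr
  rw [div_lt_iff₀ hη] at hi
  have := hgrow i
  have := hC (N + i)
  linarith

/-- the auxiliary sequence `u` -/
noncomputable def useq (β : ℝ) (z : ℂ) : ℕ → ℂ
  | 0 => 0
  | n + 1 => z * useq β z n + (orb β n : ℂ)

theorem shadow_bdd_useq {β : ℝ} {z : ℂ} (h : Shadow β z) (hz : z ≠ β) :
    ∃ C : ℝ, ∀ n, ‖useq β z n‖ ≤ C := by
  obtain ⟨y, hy0, hy, C, hC⟩ := h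
  have key : ∀ n, y n = orb β n + (z - β) * useq β z n := by
    intro n
    induction n with
    | zero => rw [hy0, orb_zero, useq]; simp
    | succ n ih =>
      rw [hy, ih, useq, orb_succ]
      push_cast
      ring
  have hne : z - β ≠ 0 := sub_ne_zero.mpr hz
  have hpos : 0 < ‖z - β‖ := norm_pos_iff.mpr hne
  refine ⟨(C + 1) / ‖z - β‖, fun n => ?_⟩
  rw [le_div_iff₀ hpos, mul_comm, ← norm_mul]
  have h1 : (z - β) * useq β z n = y n - orb β n := by rw [key n]; ring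
  rw [h1]
  refine (norm_sub_le _ _).trans (add_le_add (hC n) ?_)
  rw [Complex.norm_real, Real.norm_eq_abs, abs_of_nonneg (orb_nonneg β n)]
  exact orb_le_one β n

/-- Criterion H -/
theorem critH {β : ℝ} {z : ℂ} (h : Shadow β z) (hz : z ≠ β) (hz1 : 1 < ‖z‖) (n : ℕ) :
    ‖2 * (z - 1) * useq β z (n + 1) + 1‖ * (‖z‖ - 1) ≤ ‖z - 1‖ := by
  obtain ⟨C, hC⟩ := shadow_bdd_useq h hz
  let w : ℕ → ℂ := fun n => 2 * (z - 1) * useq β z n + 1
  refine trap hz1 w (n + 1) (C := 2 * ‖z - 1‖ * C + 1) ?_ ?_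
  · intro m hm
    have hrec : w (m + 1) = z * w m + (z - 1) * (2 * (orb β m : ℂ) - 1) := by
      simp only [w, useq]; ring
    have h1 : ‖(z - 1) * (2 * (orb β m : ℂ) - 1)‖ ≤ ‖z - 1‖ := by
      rw [norm_mul]
      have : ‖(2 * (orb β m : ℂ) - 1)‖ ≤ 1 := by
        have h2 : (2 * (orb β m : ℂ) - 1) = ((2 * orb β m - 1 : ℝ) : ℂ) := by push_cast; ring
        rw [h2, Complex.norm_real, Real.norm_eq_abs, abs_le]
        have := orb_nonneg β m
        have := orb_le_one β m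
        constructor <;> linarith
      calc ‖z - 1‖ * ‖(2 * (orb β m : ℂ) - 1)‖ ≤ ‖z - 1‖ * 1 :=
            mul_le_mul_of_nonneg_left this (norm_nonneg _)
        _ = ‖z - 1‖ := mul_one _
    have h3 : ‖z * w m‖ ≤ ‖w (m + 1)‖ + ‖(z - 1) * (2 * (orb β m : ℂ) - 1)‖ := by
      have : z * w m = w (m + 1) - (z - 1) * (2 * (orb β m : ℂ) - 1) := by rw [hrec]; ring
      rw [this]; exact norm_sub_le _ _
    rw [norm_mul] at h3
    linarith
  · intro m
    have h1 : ‖w m‖ ≤ ‖2 * (z - 1) * useq β z m‖ + ‖(1 : ℂ)‖ := norm_add_le _ _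
    rw [norm_mul, norm_mul, norm_one] at h1
    have h2 : ‖(2 : ℂ)‖ = 2 := by simp
    rw [h2] at h1
    have h3 := hC m
    have h4 : 2 * ‖z - 1‖ * ‖useq β z m‖ ≤ 2 * ‖z - 1‖ * C :=
      mul_le_mul_of_nonneg_left h3 (by positivity)
    linarith

/-- Criterion G -/
theorem critG {β : ℝ} {z : ℂ} {y : ℕ → ℂ} (hy : ∀ n, y (n + 1) = z * y n - (dig β n : ℂ))
    {C : ℝ} (hC : ∀ n, ‖y n‖ ≤ C) (hβ1 : 1 < β) (hβ2 : β < 2) (hz1 : 1 < ‖z‖)
    {M : ℝ} (hM : 1 < M) (hMz : ∀ i : ℕ, 1 ≤ i → 1 ≤ β ^ i * (β - 1) → M ≤ ‖z‖ ^ i)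
    (n : ℕ) (hn : orb β (n + 1) ≤ β - 1) : ‖y (n + 1)‖ * (M - 1) ≤ 1 := by
  by_contra hcon
  push Not at hcon
  set N := n + 1 with hN
  have hM1 : 0 < M - 1 := by linarith
  set S := 1 / (M - 1) with hS
  have hSM : M * S = 1 + S := by rw [hS]; field_simp; ring
  have hS0 : 0 < S := by rw [hS]; positivity
  have hη : 0 < ‖y N‖ - S := by
    have : S < ‖y N‖ := by rw [hS, div_lt_iff₀ hM1]; exact hcon
    linarith
  have inv : ∀ m, ∃ i : ℕ, orb β (N + m) ≤ β ^ i * (β - 1) ∧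
      ‖z‖ ^ i * S + (‖y N‖ - S) * ‖z‖ ^ m ≤ ‖y (N + m)‖ := by
    intro m
    induction m with
    | zero => exact ⟨0, by simpa using hn, by simp⟩
    | succ m ih =>
      obtain ⟨i, hi1, hi2⟩ := ih
      have hdlt : β * orb β (N + m) < 2 := by
        have h1 := orb_le_one β (N + m)
        have h2 := orb_nonneg β (N + m)
        nlinarith
      have hd0 : 0 ≤ β * orb β (N + m) := mul_nonneg (by linarith) (orb_nonneg _ _)
      have hdig : dig β (N + m) = 0 ∨ dig β (N + m) = 1 := by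
        have h1 : 0 ≤ dig β (N + m) := Int.floor_nonneg.mpr hd0
        have h2 : dig β (N + m) < 2 := Int.floor_lt.mpr (by exact_mod_cast hdlt)
        omega
      have hzn : 0 ≤ ‖z‖ := norm_nonneg z
      have hpw : ‖z‖ * (‖z‖ ^ i * S + (‖y N‖ - S) * ‖z‖ ^ m) ≤ ‖z‖ * ‖y (N + m)‖ :=
        mul_le_mul_of_nonneg_left hi2 hzn
      rcases hdig with h0 | h0
      · refine ⟨i + 1, ?_, ?_⟩
        · rw [← add_assoc, orb_succ, h0]
          push_cast
          rw [sub_zero, pow_succ, mul_comm (β ^ i) β, mul_assoc]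
          exact mul_le_mul_of_nonneg_left hi1 (by linarith)
        · rw [← add_assoc, hy (N + m), h0]
          push_cast
          rw [sub_zero, norm_mul]
          refine le_trans (le_of_eq ?_) hpw
          ring
      · refine ⟨0, ?_, ?_⟩
        · rw [← add_assoc, orb_succ, h0]
          push_cast
          have h1 : orb β (N + m) < 1 := by
            rw [hN, add_right_comm]; exact orb_lt_one β _
          nlinarith
        · have h1 : 1 ≤ β * orb β (N + m) := by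
            have := Int.floor_le (β * orb β (N + m))
            change ((dig β (N + m) : ℤ) : ℝ) ≤ _ at this
            rw [h0] at this
            simpa using this
          have h2 : 1 ≤ β ^ (i + 1) * (β - 1) := by
            refine h1.trans ?_
            rw [pow_succ, mul_comm (β ^ i) β, mul_assoc]
            exact mul_le_mul_of_nonneg_left hi1 (by linarith)
          have h3 : M ≤ ‖z‖ ^ (i + 1) := hMz (i + 1) (by omega) h2
          rw [← add_assoc, hy (N + m), h0]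
          push_cast
          have h4 : ‖z * y (N + m)‖ - ‖(1 : ℂ)‖ ≤ ‖z * y (N + m) - 1‖ := norm_sub_norm_le _ _
          rw [norm_mul, norm_one] at h4
          have h5 : M * S ≤ ‖z‖ ^ (i + 1) * S := mul_le_mul_of_nonneg_right h3 hS0.le
          have h6 : ‖z‖ * (‖z‖ ^ i * S + (‖y N‖ - S) * ‖z‖ ^ m)
              = ‖z‖ ^ (i + 1) * S + (‖y N‖ - S) * ‖z‖ ^ (m + 1) := by ring
          rw [h6] at hpw
          rw [pow_zero, one_mul]
          linarith
  obtain ⟨m, hm⟩ := pow_unbounded_of_one_lt (C / (‖y N‖ - S)) hz1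
  rw [div_lt_iff₀ hη] at hm
  obtain ⟨i, -, hi⟩ := inv m
  have h1 := hC (N + m)
  have h2 : 0 ≤ ‖z‖ ^ i * S := by positivity
  linarith

end PowTri
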