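import Mathlib

/-!
Location of the non-real roots of `X^(n+1) - X^n - 1`.
-/

namespace PowTri

open Real

theorem exists_angle (n j : ℕ) (hj : 1 ≤ j) (hn : 6 * j < n + 1) :
    ∃ φ : ℝ, (2 * j - 1) * π / n < φ ∧ φ < 2 * j * π / (n + 1) ∧
      0 < -sin (n * φ) ∧ 0 < -sin ((n + 1) * φ) ∧ 0 < φ ∧ φ < π / 3 ∧
      (-sin (n * φ)) ^ n * sin φ = (-sin ((n + 1) * φ)) ^ (n + 1) := by
  have hπ := Real.pi_pos
  have hj' : (1 : ℝ) ≤ j := by exact_mod_cast hj
  have hn' : (6 : ℝ) * j < n + 1 := by exact_mod_cast hn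
  have hn0 : (0 : ℝ) < n := by nlinarith
  set a : ℝ := (2 * j - 1) * π / n with ha
  set b : ℝ := 2 * j * π / (n + 1) with hb
  have hna : (n : ℝ) * a = (2 * j - 1) * π := by rw [ha]; field_simp
  have hnb : ((n : ℝ) + 1) * b = 2 * j * π := by rw [hb]; field_simp
  have ha0 : 0 < a := by rw [ha]; apply div_pos _ hn0; apply mul_pos _ hπ; linarith
  have hbπ : b < π / 3 := by
    rw [hb, div_lt_iff₀ (by linarith)]
    nlinarith
  have hab : a < b := by
    rw [ha, hb, div_lt_div_iff₀ hn0 (by linarith)]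
    nlinarith
  have hsina : 0 < sin a := sin_pos_of_pos_of_lt_pi ha0 (by linarith)
  have hsinb : 0 < sin b := sin_pos_of_pos_of_lt_pi (by linarith) (by linarith)
  let H : ℝ → ℝ := fun φ => (-sin (n * φ)) ^ n * sin φ - (-sin ((n + 1) * φ)) ^ (n + 1)
  have hHc : ContinuousOn H (Set.Icc a b) := by
    apply Continuous.continuousOn
    fun_prop
  have hodd : sin ((2 * j - 1) * π) = 0 := by
    have : (2 * (j : ℝ) - 1) * π = ((2 * j - 1 : ℤ) : ℝ) * π := by push_cast; ring
    rw [this]; exact sin_int_mul_pi _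
  have hcodd : cos ((2 * j - 1) * π) = -1 := by
    have : (2 * (j : ℝ) - 1) * π = ((j - 1 : ℤ) : ℝ) * (2 * π) + π := by push_cast; ring
    rw [this, cos_add_pi, cos_int_mul_two_pi]
  have hHa : H a < 0 := by
    simp only [H]
    have h1 : sin (n * a) = 0 := by rw [hna]; exact hodd
    have h2 : -sin ((n + 1) * a) = sin a := by
      have : ((n : ℝ) + 1) * a = (2 * j - 1) * π + a := by rw [← hna]; ring
      rw [this, sin_add, hodd, hcodd]; ring
    rw [h1, h2, neg_zero, zero_pow (by intro h; rw [h] at hn; omega), zero_mul, zero_sub,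
      neg_lt_zero]
    positivity
  have hHb : 0 < H b := by
    simp only [H]
    have h1 : sin ((n + 1) * b) = 0 := by
      rw [hnb]
      have : 2 * (j : ℝ) * π = (j : ℕ) * (2 * π) := by ring
      rw [this, ← zero_add ((j : ℕ) * (2 * π)), sin_add_nat_mul_two_pi, sin_zero]
    have h2 : -sin (n * b) = sin b := by
      have : (n : ℝ) * b = -b + (j : ℕ) * (2 * π) := by
        have : (n : ℝ) * b = (n + 1) * b - b := by ring
        rw [this, hnb]; ring
      rw [this, sin_add_nat_mul_two_pi, sin_neg, neg_neg]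
    rw [h1, h2, neg_zero, zero_pow (by omega), sub_zero]
    positivity
  have himg : (0 : ℝ) ∈ H '' Set.Ioo a b :=
    intermediate_value_Ioo hab.le hHc ⟨hHa, hHb⟩
  obtain ⟨φ, ⟨h1, h2⟩, h3⟩ := himg
  refine ⟨φ, h1, h2, ?_, ?_, by linarith, by linarith, ?_⟩
  · have h4 : (2 * (j : ℝ) - 1) * π < n * φ := by
      rw [← hna]; exact mul_lt_mul_of_pos_left h1 hn0
    have h5 : n * φ < 2 * j * π := by
      have : n * φ < n * b := mul_lt_mul_of_pos_left h2 hn0
      have h6 : (n : ℝ) * b = 2 * j * π - b := by rw [← hnb]; ring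
      have : 0 < b := by linarith
      linarith
    have h7 : sin (n * φ) = -sin (n * φ - (2 * j - 1) * π) := by
      rw [sin_sub, hodd, hcodd]; ring
    rw [h7, neg_neg]
    apply sin_pos_of_pos_of_lt_pi <;> nlinarith
  · have h4 : (2 * (j : ℝ) - 1) * π < (n + 1) * φ := by
      have : (n : ℝ) * a < n * φ := mul_lt_mul_of_pos_left h1 hn0
      nlinarith
    have h5 : (n + 1) * φ < 2 * j * π := by
      rw [← hnb]; exact mul_lt_mul_of_pos_left h2 (by linarith)
    have h7 : sin ((n + 1) * φ) = -sin ((n + 1) * φ - (2 * j - 1) * π) := by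
      rw [sin_sub, hodd, hcodd]; ring
    rw [h7, neg_neg]
    apply sin_pos_of_pos_of_lt_pi <;> nlinarith
  · exact sub_eq_zero.mp h3

/-- squared distance of a point in polar form to `1` -/
theorem normSq_polar_sub_one (r φ : ℝ) :
    ‖(r : ℂ) * Complex.exp (φ * Complex.I) - 1‖ ^ 2 = (r - 1) ^ 2 + 2 * r * (1 - cos φ) := by
  rw [← Complex.normSq_eq_norm_sq, Complex.exp_mul_I, ← Complex.ofReal_cos, ← Complex.ofReal_sin,
    Complex.normSq_apply]
  simp only [Complex.sub_re, Complex.mul_re, Complex.ofReal_re, Complex.add_re, Complex.I_re,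
    mul_zero, Complex.ofReal_im, Complex.I_im, mul_one, Complex.add_im, Complex.mul_im,
    Complex.one_re, Complex.sub_im, Complex.one_im, zero_mul, sub_zero, add_zero, zero_add]
  linear_combination r ^ 2 * sin_sq_add_cos_sq φ

theorem exists_root (n j : ℕ) (hj : 1 ≤ j) (hn : 6 * j < n + 1) :
    ∃ (α : ℂ) (φ : ℝ), 1 < ‖α‖ ∧ α ^ (n + 1) = α ^ n + 1 ∧
      α = (‖α‖ : ℂ) * Complex.exp (φ * Complex.I) ∧
      (2 * j - 1) * π / n < φ ∧ φ < 2 * j * π / (n + 1) ∧ 0 < φ ∧ φ < π / 3 := by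
  obtain ⟨φ, h1, h2, hs1, hs2, hφ0, hφ3, heq⟩ := exists_angle n j hj hn
  have hsin : 0 < sin φ := sin_pos_of_pos_of_lt_pi hφ0 (by linarith [pi_pos])
  set S1 := -sin (n * φ) with hS1
  set S2 := -sin ((n + 1) * φ) with hS2
  set R := S1 / S2 with hR
  have hR0 : 0 < R := div_pos hs1 hs2
  have hRn : R ^ n = S2 / sin φ := by
    rw [hR, div_pow, div_eq_div_iff (by positivity) hsin.ne', heq]; ring
  have hRn1 : R ^ (n + 1) = S1 / sin φ := by
    rw [pow_succ, hRn, hR]; field_simp
  set α : ℂ := (R : ℂ) * Complex.exp (φ * Complex.I) with hα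
  have hnorm : ‖α‖ = R := by
    rw [hα, norm_mul, Complex.norm_exp_ofReal_mul_I, Complex.norm_real, norm_eq_abs,
      abs_of_pos hR0, mul_one]
  have hpow : ∀ m : ℕ, α ^ m = (R ^ m : ℝ) * Complex.exp ((m * φ : ℝ) * Complex.I) := by
    intro m
    rw [hα, mul_pow, ← Complex.exp_nat_mul]
    push_cast
    congr 2
    ring
  have hroot : α ^ (n + 1) = α ^ n + 1 := by
    rw [hpow, hpow, hRn, hRn1]
    rw [Complex.exp_mul_I, Complex.exp_mul_I]
    rw [← Complex.ofReal_cos, ← Complex.ofReal_sin, ← Complex.ofReal_cos, ← Complex.ofReal_sin]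
    have hc : (((n + 1 : ℕ) : ℝ) * φ) = n * φ + φ := by push_cast; ring
    have hS2' : S2 = -sin (n * φ + φ) := by rw [hS2]; congr 2; ring
    rw [hc]
    have hre : S1 * cos (n * φ + φ) = S2 * cos (n * φ) + sin φ := by
      rw [hS2', hS1, sin_add, cos_add]
      linear_combination (sin φ) * sin_sq_add_cos_sq (n * φ)
    have him : S1 * sin (n * φ + φ) = S2 * sin (n * φ) := by
      rw [hS2', hS1]; ring
    apply Complex.ext
    · simp only [Complex.mul_re, Complex.ofReal_re, Complex.add_re, Complex.I_re, mul_zero,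
        Complex.ofReal_im, Complex.I_im, mul_one, Complex.add_im, Complex.mul_im,
        Complex.one_re, zero_mul, sub_zero, add_zero, zero_add, sub_self]
      rw [div_mul_eq_mul_div, div_mul_eq_mul_div, hre, add_div, div_self hsin.ne']
    · simp only [Complex.mul_re, Complex.ofReal_re, Complex.add_re, Complex.I_re, mul_zero,
        Complex.ofReal_im, Complex.I_im, mul_one, Complex.add_im, Complex.mul_im,
        Complex.one_im, zero_mul, add_zero, zero_add, sub_self]
      rw [div_mul_eq_mul_div, div_mul_eq_mul_div, him]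
  have hα1 : 1 < ‖α‖ := by
    by_contra hcon
    push Not at hcon
    have h5 : α ^ n * (α - 1) = 1 := by
      have : α ^ (n + 1) = α ^ n * α := pow_succ α n
      rw [this] at hroot
      linear_combination hroot
    have h6 : ‖α‖ ^ n * ‖α - 1‖ = 1 := by
      rw [← norm_pow, ← norm_mul, h5, norm_one]
    have h7 : ‖α - 1‖ ^ 2 = (R - 1) ^ 2 + 2 * R * (1 - cos φ) := normSq_polar_sub_one R φ
    have hcos : 1 / 2 < cos φ := by
      rw [← cos_pi_div_three]
      exact cos_lt_cos_of_nonneg_of_le_pi hφ0.le (by linarith [pi_pos]) hφ3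
    rw [hnorm] at hcon
    have h8 : ‖α - 1‖ ^ 2 < 1 := by
      rw [h7]; nlinarith
    have h9 : ‖α - 1‖ < 1 := by
      have := norm_nonneg (α - 1)
      nlinarith
    have h10 : ‖α‖ ^ n ≤ 1 := pow_le_one₀ (norm_nonneg _) (by rw [hnorm]; exact hcon)
    have h11 : 0 ≤ ‖α‖ ^ n := by positivity
    have h12 := norm_nonneg (α - 1)
    nlinarith
  exact ⟨α, φ, hα1, hroot, by rw [hnorm], h1, h2, hφ0, hφ3⟩

end PowTri
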