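import Mathlib

/-! Elementary inequalities used in the analytic part. -/

namespace PowTri

open Real

theorem nonneg_of_deriv {f f' : ℝ → ℝ} (hf : ∀ x, HasDerivAt f (f' x) x) (h0 : f 0 = 0)
    (h : ∀ x, 0 ≤ x → 0 ≤ f' x) : ∀ x, 0 ≤ x → 0 ≤ f x := by
  intro x hx
  have hmono : MonotoneOn f (Set.Ici 0) := by
    apply monotoneOn_of_deriv_nonneg (convex_Ici 0)
    · exact fun y _ => (hf y).continuousAt.continuousWithinAt
    · exact fun y _ => (hf y).differentiableAt.differentiableWithinAt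
    · intro y hy
      rw [interior_Ici] at hy
      rw [(hf y).deriv]
      exact h y (le_of_lt hy)
  have := hmono (Set.mem_Ici.mpr le_rfl) (Set.mem_Ici.mpr hx) hx
  rwa [h0] at this

theorem cos_le4 {x : ℝ} (hx : 0 ≤ x) : cos x ≤ 1 - x ^ 2 / 2 + x ^ 4 / 24 := by
  have := nonneg_of_deriv (f := fun x => 1 - x ^ 2 / 2 + x ^ 4 / 24 - cos x)
    (f' := fun x => 0 - 2 * x / 2 + 4 * x ^ 3 / 24 + sin x) (fun x => by
      have h1 : HasDerivAt (fun x : ℝ => 1 - x ^ 2 / 2 + x ^ 4 / 24)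
          (0 - 2 * x / 2 + 4 * x ^ 3 / 24) x := by
        have ha := (hasDerivAt_pow 2 x).div_const 2
        have hb := (hasDerivAt_pow 4 x).div_const 24
        have hc := ((hasDerivAt_const x (1 : ℝ)).sub ha).add hb
        exact hc.congr_deriv (by norm_num)
      exact (h1.sub (hasDerivAt_cos x)).congr_deriv (by ring))
    (by norm_num) (fun x hx => by
      have := sin_ge_sub_cube hx
      linarith) x hx
  linarith

theorem sin_le5 {x : ℝ} (hx : 0 ≤ x) : sin x ≤ x - x ^ 3 / 6 + x ^ 5 / 120 := by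
  have := nonneg_of_deriv (f := fun x => x - x ^ 3 / 6 + x ^ 5 / 120 - sin x)
    (f' := fun x => 1 - 3 * x ^ 2 / 6 + 5 * x ^ 4 / 120 - cos x) (fun x => by
      have h1 : HasDerivAt (fun x : ℝ => x - x ^ 3 / 6 + x ^ 5 / 120)
          (1 - 3 * x ^ 2 / 6 + 5 * x ^ 4 / 120) x := by
        have ha := (hasDerivAt_pow 3 x).div_const 6
        have hb := (hasDerivAt_pow 5 x).div_const 120
        have hc := ((hasDerivAt_id x).sub ha).add hb
        exact hc.congr_deriv (by norm_num)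
      exact h1.sub (hasDerivAt_sin x))
    (by norm_num) (fun x hx => by
      have := cos_le4 hx
      nlinarith) x hx
  linarith

theorem cos_ge6 {x : ℝ} (hx : 0 ≤ x) : 1 - x ^ 2 / 2 + x ^ 4 / 24 - x ^ 6 / 720 ≤ cos x := by
  have := nonneg_of_deriv (f := fun x => cos x - (1 - x ^ 2 / 2 + x ^ 4 / 24 - x ^ 6 / 720))
    (f' := fun x => -sin x - (0 - 2 * x / 2 + 4 * x ^ 3 / 24 - 6 * x ^ 5 / 720)) (fun x => by
      have h1 : HasDerivAt (fun x : ℝ => 1 - x ^ 2 / 2 + x ^ 4 / 24 - x ^ 6 / 720)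
          (0 - 2 * x / 2 + 4 * x ^ 3 / 24 - 6 * x ^ 5 / 720) x := by
        have ha := (hasDerivAt_pow 2 x).div_const 2
        have hb := (hasDerivAt_pow 4 x).div_const 24
        have hc := (hasDerivAt_pow 6 x).div_const 720
        have hd := (((hasDerivAt_const x (1 : ℝ)).sub ha).add hb).sub hc
        exact hd.congr_deriv (by norm_num)
      exact (hasDerivAt_cos x).sub h1)
    (by norm_num) (fun x hx => by
      have := sin_le5 hx
      linarith) x hx
  linarith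

theorem sin_ge7 {x : ℝ} (hx : 0 ≤ x) :
    x - x ^ 3 / 6 + x ^ 5 / 120 - x ^ 7 / 5040 ≤ sin x := by
  have := nonneg_of_deriv (f := fun x => sin x - (x - x ^ 3 / 6 + x ^ 5 / 120 - x ^ 7 / 5040))
    (f' := fun x => cos x - (1 - 3 * x ^ 2 / 6 + 5 * x ^ 4 / 120 - 7 * x ^ 6 / 5040))
    (fun x => by
      have h1 : HasDerivAt (fun x : ℝ => x - x ^ 3 / 6 + x ^ 5 / 120 - x ^ 7 / 5040)
          (1 - 3 * x ^ 2 / 6 + 5 * x ^ 4 / 120 - 7 * x ^ 6 / 5040) x := by
        have ha := (hasDerivAt_pow 3 x).div_const 6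
        have hb := (hasDerivAt_pow 5 x).div_const 120
        have hc := (hasDerivAt_pow 7 x).div_const 5040
        have hd := (((hasDerivAt_id x).sub ha).add hb).sub hc
        exact hd.congr_deriv (by norm_num)
      exact (hasDerivAt_sin x).sub h1)
    (by norm_num) (fun x hx => by
      have := cos_ge6 hx
      linarith) x hx
  linarith

theorem sinh_mul_ge {y : ℝ} (hy : 0 ≤ y) (k : ℕ) : k * sinh y ≤ sinh (k * y) := by
  induction k with
  | zero => simp
  | succ k ih =>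
    have h1 : ((k + 1 : ℕ) : ℝ) * y = k * y + y := by push_cast; ring
    rw [h1, sinh_add]
    have h2 : 1 ≤ cosh y := one_le_cosh y
    have h3 : 1 ≤ cosh (k * y) := one_le_cosh _
    have h4 : 0 ≤ sinh y := sinh_nonneg_iff.mpr hy
    have h5 : 0 ≤ sinh (k * y) := sinh_nonneg_iff.mpr (by positivity)
    push_cast
    nlinarith

/-- `e^κ - 1 ≤ κ exp(κ/2 + κ²/20)` for `0 ≤ κ ≤ 1` -/
theorem exp_sub_one_le {κ : ℝ} (h0 : 0 ≤ κ) (h1 : κ ≤ 1) :
    exp κ - 1 ≤ κ * exp (κ / 2 + κ ^ 2 / 20) := by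
  have h2 := Real.exp_bound' h0 h1 (n := 4) (by norm_num)
  have h3 := Real.sum_le_exp_of_nonneg (x := κ / 2 + κ ^ 2 / 20) (by positivity) 4
  norm_num [Finset.sum_range_succ, Nat.factorial] at h2 h3
  set E := exp (κ / 2 + κ ^ 2 / 20)
  have h4 : 1 + κ / 2 + κ ^ 2 / 6 + κ ^ 3 * (5 / 96) ≤ E := by
    refine le_trans ?_ h3
    nlinarith [pow_nonneg h0 2, pow_nonneg h0 3, pow_nonneg h0 4, pow_nonneg h0 5,
      pow_nonneg h0 6, mul_nonneg (pow_nonneg h0 2) (sub_nonneg.mpr h1)]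
  have h5 : κ * (1 + κ / 2 + κ ^ 2 / 6 + κ ^ 3 * (5 / 96)) ≤ κ * E :=
    mul_le_mul_of_nonneg_left h4 h0
  nlinarith

end PowTri
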