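import Mathlib
import Pool.Agent.W_MP_69fa08_nt.Dyn
import Pool.Agent.W_MP_69fa08_nt.Roots
import Pool.Agent.W_MP_69fa08_nt.Taylor

/-! Basic facts on `θ` and on the roots in polar form; the large exponent case for large degree. -/

namespace PowTri

open Real

section base

variable {n : ℕ} {θ : ℝ}

theorem base_root (h : θ ^ (n + 1) = θ ^ n + 1) : θ ^ n * (θ - 1) = 1 := by
  rw [pow_succ] at h; linarith

theorem exp_neg_lam (h1 : 1 < θ) (h : θ ^ (n + 1) = θ ^ n + 1) :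
    exp (-(n * log θ)) = θ - 1 := by
  have h2 := base_root h
  have h3 : exp (n * log θ) = θ ^ n := by
    rw [mul_comm, ← Real.rpow_def_of_pos (by linarith), Real.rpow_natCast]
  rw [exp_neg, h3]
  exact (eq_inv_of_mul_eq_one_right h2).symm

theorem log_le' (h1 : 1 < θ) : log θ ≤ θ - 1 := log_le_sub_one_of_pos (by linarith)

theorem log_ge' (h1 : 1 < θ) : (θ - 1) / θ ≤ log θ := by
  have h2 := Real.one_sub_inv_le_log_of_pos (show (0 : ℝ) < θ by linarith)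
  have h3 : (θ - 1) / θ = 1 - θ⁻¹ := by
    rw [sub_div, div_self (by linarith), one_div]
  linarith

theorem exp_558_le : exp (5.58 : ℝ) ≤ 267 := by
  have h1 : exp (5.58 : ℝ) = exp 1 ^ 5 * exp 0.58 := by
    rw [← exp_nat_mul, ← exp_add]; norm_num
  have h2 := Real.exp_bound' (x := 0.58) (by norm_num) (by norm_num) (n := 7) (by norm_num)
  norm_num [Finset.sum_range_succ, Nat.factorial] at h2
  have h3 := Real.exp_one_lt_d9
  have h4 : exp 1 ^ 5 ≤ 2.7182818286 ^ 5 := pow_le_pow_left₀ (exp_pos 1).le h3.le 5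
  rw [h1]
  have h5 : exp (0.58 : ℝ) ≤ 1.7861 := by
    norm_num at h2 ⊢
    linarith
  calc exp 1 ^ 5 * exp 0.58 ≤ 2.7182818286 ^ 5 * 1.7861 :=
        mul_le_mul h4 h5 (exp_pos _).le (by norm_num)
    _ ≤ 267 := by norm_num

theorem le_exp_558 : 264.6 ≤ exp (5.58 : ℝ) := by
  have h1 : exp (5.58 : ℝ) = exp 1 ^ 5 * exp 0.58 := by
    rw [← exp_nat_mul, ← exp_add]; norm_num
  have h2 := Real.sum_le_exp_of_nonneg (x := 0.58) (by norm_num) 6
  norm_num [Finset.sum_range_succ, Nat.factorial] at h2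
  have h3 := Real.exp_one_gt_d9
  have h4 : 2.7182818283 ^ 5 ≤ exp 1 ^ 5 := pow_le_pow_left₀ (by norm_num) h3.le 5
  rw [h1]
  have h5 : 1.7859 ≤ exp (0.58 : ℝ) := by
    norm_num at h2 ⊢
    linarith
  calc (264.6 : ℝ) ≤ 2.7182818283 ^ 5 * 1.7859 := by norm_num
    _ ≤ exp 1 ^ 5 * exp 0.58 := mul_le_mul h4 h5 (by norm_num) (by positivity)

theorem lam_ge (h1 : 1 < θ) (h : θ ^ (n + 1) = θ ^ n + 1) (hn : 1499 ≤ n) :
    5.58 ≤ n * log θ := by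
  by_contra hcon
  push Not at hcon
  have h2 := exp_neg_lam h1 h
  have h3 : exp (-(5.58 : ℝ)) < θ - 1 := by
    rw [← h2]; exact exp_lt_exp.mpr (by linarith)
  have h4 : 1 / 267 ≤ exp (-(5.58 : ℝ)) := by
    rw [exp_neg, ← one_div]
    exact one_div_le_one_div_of_le (exp_pos _) exp_558_le
  have h5 := log_ge' h1
  have h6 : (1 : ℝ) / 268 ≤ (θ - 1) / θ := by
    rw [div_le_div_iff₀ (by norm_num) (by linarith)]
    linarith
  have hn' : (1499 : ℝ) ≤ n := by exact_mod_cast hn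
  have h7 : (1499 : ℝ) * (1 / 268) ≤ n * log θ :=
    mul_le_mul hn' (h6.trans h5) (by norm_num) (by linarith)
  norm_num at h7 hcon
  linarith

theorem eps_le (h1 : 1 < θ) (h : θ ^ (n + 1) = θ ^ n + 1) (hL : 5.58 ≤ n * log θ) :
    θ - 1 ≤ 0.00378 := by
  rw [← exp_neg_lam h1 h]
  have h2 : exp (-(n * log θ)) ≤ exp (-(5.58 : ℝ)) := exp_le_exp.mpr (by linarith)
  refine h2.trans ?_
  rw [exp_neg, inv_le_comm₀ (exp_pos _) (by norm_num)]
  refine le_trans ?_ le_exp_558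
  norm_num

end base

section root

variable {n : ℕ} {θ : ℝ} {α : ℂ} {φ : ℝ}

theorem root_norm (hr : α ^ (n + 1) = α ^ n + 1) : ‖α‖ ^ n * ‖α - 1‖ = 1 := by
  rw [← norm_pow, ← norm_mul]
  have : α ^ n * (α - 1) = 1 := by rw [pow_succ] at hr; linear_combination hr
  rw [this, norm_one]

theorem norm_sub_one_sq (hα : α = (‖α‖ : ℂ) * Complex.exp (φ * Complex.I)) :
    ‖α - 1‖ ^ 2 = (‖α‖ - 1) ^ 2 + 2 * ‖α‖ * (1 - cos φ) := by
  have := normSq_polar_sub_one ‖α‖ φ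
  rw [← hα] at this
  exact this

theorem pow_polar (hα : α = (‖α‖ : ℂ) * Complex.exp (φ * Complex.I)) (k : ℕ) :
    α ^ k = (‖α ^ k‖ : ℂ) * Complex.exp ((k * φ : ℝ) * Complex.I) := by
  conv_lhs => rw [hα]
  rw [mul_pow, ← Complex.exp_nat_mul, norm_pow]
  push_cast
  congr 2
  ring

theorem norm_lt_theta (h1 : 1 < θ) (h : θ ^ (n + 1) = θ ^ n + 1) (hα1 : 1 < ‖α‖)
    (hr : α ^ (n + 1) = α ^ n + 1) (hα : α = (‖α‖ : ℂ) * Complex.exp (φ * Complex.I))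
    (hcos : cos φ < 1) : ‖α‖ < θ := by
  by_contra hcon
  push Not at hcon
  have h2 := root_norm hr
  have h3 := norm_sub_one_sq hα
  have h4 : ‖α‖ - 1 < ‖α - 1‖ := by
    have h5 : (‖α‖ - 1) ^ 2 < ‖α - 1‖ ^ 2 := by
      rw [h3]
      have : 0 < 2 * ‖α‖ * (1 - cos φ) := by
        apply mul_pos <;> linarith
      linarith
    exact lt_of_pow_lt_pow_left₀ 2 (norm_nonneg _) h5
  have h5 := base_root h
  have h6 : θ ^ n ≤ ‖α‖ ^ n := pow_le_pow_left₀ (by linarith) hcon n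
  have h7 : 0 < ‖α‖ ^ n := by positivity
  have h8 : θ ^ n * (θ - 1) < ‖α‖ ^ n * ‖α - 1‖ := by
    calc θ ^ n * (θ - 1) ≤ ‖α‖ ^ n * (‖α‖ - 1) :=
          mul_le_mul h6 (by linarith) (by linarith) h7.le
      _ < ‖α‖ ^ n * ‖α - 1‖ := mul_lt_mul_of_pos_left h4 h7
  linarith

theorem critH1 {β : ℝ} {z : ℂ} (h : Shadow β z) (hz : z ≠ β) (hz1 : 1 < ‖z‖) {ω : ℝ}
    (hω : z = (‖z‖ : ℂ) * Complex.exp (ω * Complex.I)) :
    2 * (‖z‖ - 1) ^ 3 ≤ (1 - cos ω) * (1 - 2 * (‖z‖ - 1) ^ 2) := by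
  have h1 := critH h hz hz1 0
  have h2 : useq β z (0 + 1) = 1 := by
    simp [useq, orb_zero]
  rw [h2] at h1
  have h3 : 2 * (z - 1) * 1 + 1 = ((2 * ‖z‖ : ℝ) : ℂ) * Complex.exp (ω * Complex.I) - 1 := by
    have : 2 * (z - 1) * 1 + 1 = 2 * z - 1 := by ring
    rw [this]
    conv_lhs => rw [hω]
    push_cast
    ring
  have h4 : ‖2 * (z - 1) * 1 + 1‖ ^ 2 = (2 * ‖z‖ - 1) ^ 2 + 2 * (2 * ‖z‖) * (1 - cos ω) := by
    rw [h3]; exact normSq_polar_sub_one _ _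
  have h5 := norm_sub_one_sq hω
  have h6 : (‖2 * (z - 1) * 1 + 1‖ * (‖z‖ - 1)) ^ 2 ≤ ‖z - 1‖ ^ 2 := by
    apply pow_le_pow_left₀ _ h1
    apply mul_nonneg (norm_nonneg _); linarith
  rw [mul_pow, h4, h5] at h6
  set r := ‖z‖
  have h7 : 2 * r * (2 * (r - 1) ^ 3) ≤ 2 * r * ((1 - cos ω) * (1 - 2 * (r - 1) ^ 2)) := by
    nlinarith
  exact le_of_mul_le_mul_left h7 (by linarith)

end root

/-- polynomial core of the large exponent case -/
theorem caseH_core {y δ h : ℝ} (hy : 0.24 ≤ y) (hδ : y + y ^ 2 / 2 ≤ δ) (hh : 0 ≤ h)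
    (hhy : h ≤ 0.75 * y ^ 2) : ¬ (2 * δ ^ 3 ≤ h * (1 - 2 * δ ^ 2)) := by
  intro hcon
  set a := y + y ^ 2 / 2 with ha
  have ha1 : 0.2688 ≤ a := by rw [ha]; nlinarith
  have ha0 : 0 < a := by linarith
  have hδ0 : 0 < δ := by linarith
  by_cases hs : 1 - 2 * δ ^ 2 ≤ 0
  · have : h * (1 - 2 * δ ^ 2) ≤ 0 := mul_nonpos_of_nonneg_of_nonpos hh hs
    have : 0 < 2 * δ ^ 3 := by positivity
    linarith
  · push Not at hs
    have h1 : h * (1 - 2 * δ ^ 2) ≤ 0.75 * y ^ 2 * (1 - 2 * a ^ 2) := by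
      apply mul_le_mul hhy _ hs.le (by positivity)
      have : a ^ 2 ≤ δ ^ 2 := pow_le_pow_left₀ ha0.le hδ 2
      linarith
    have h2 : a ^ 3 ≤ δ ^ 3 := pow_le_pow_left₀ ha0.le hδ 3
    have h3 : 2 * a ^ 3 ≤ 0.75 * y ^ 2 * (1 - 2 * a ^ 2) := by linarith
    have h4 : a = y * (1 + y / 2) := by rw [ha]; ring
    have h5 : a ^ 3 = y ^ 2 * (y * (1 + y / 2) ^ 3) := by rw [h4]; ring
    have h6 : 0.337 ≤ y * (1 + y / 2) ^ 3 := by
      have h7 : (1.12 : ℝ) ^ 3 ≤ (1 + y / 2) ^ 3 :=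
        pow_le_pow_left₀ (by norm_num) (by linarith) 3
      have h8 : (0.24 : ℝ) * 1.12 ^ 3 ≤ y * (1 + y / 2) ^ 3 :=
        mul_le_mul hy h7 (by norm_num) (by linarith)
      norm_num at h8 ⊢
      linarith
    have h7 : (0.2688 : ℝ) ^ 2 ≤ a ^ 2 := pow_le_pow_left₀ (by norm_num) ha1 2
    have h8 : 0 < y ^ 2 := by positivity
    rw [h5] at h3
    have h9 : y ^ 2 * (2 * (y * (1 + y / 2) ^ 3)) ≤ y ^ 2 * (0.75 * (1 - 2 * a ^ 2)) := by
      linarith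
    have h10 := le_of_mul_le_mul_left h9 h8
    norm_num at h7
    linarith

end PowTri
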