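import Mathlib
import Pool.Agent.W_MP_69fa08_nt.Base

/-! The real inequality behind the small exponent case. -/

namespace PowTri

open Real

theorem sinc_ge {x X : ℝ} (hx0 : 0 < x) (hxX : x ≤ X) (hX : X ≤ 2) :
    1 - X ^ 2 / 6 + X ^ 4 / 120 - X ^ 6 / 5040 ≤ sin x / x := by
  rw [le_div_iff₀ hx0]
  have h1 := sin_ge7 hx0.le
  have hv : x ^ 2 ≤ X ^ 2 := pow_le_pow_left₀ hx0.le hxX 2
  have hV : X ^ 2 ≤ 4 := by nlinarith
  have hv0 : 0 ≤ x ^ 2 := sq_nonneg x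
  have h2 : 1 - X ^ 2 / 6 + X ^ 4 / 120 - X ^ 6 / 5040
      ≤ 1 - x ^ 2 / 6 + x ^ 4 / 120 - x ^ 6 / 5040 := by
    have h3 : (1 - x ^ 2 / 6 + x ^ 4 / 120 - x ^ 6 / 5040)
        - (1 - X ^ 2 / 6 + X ^ 4 / 120 - X ^ 6 / 5040)
        = (X ^ 2 - x ^ 2) * (1 / 6 - (X ^ 2 + x ^ 2) / 120
          + ((X ^ 2) ^ 2 + X ^ 2 * x ^ 2 + (x ^ 2) ^ 2) / 5040) := by ring
    have h4 : 0 ≤ 1 / 6 - (X ^ 2 + x ^ 2) / 120
          + ((X ^ 2) ^ 2 + X ^ 2 * x ^ 2 + (x ^ 2) ^ 2) / 5040 := by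
      have : 0 ≤ ((X ^ 2) ^ 2 + X ^ 2 * x ^ 2 + (x ^ 2) ^ 2) / 5040 := by positivity
      linarith
    have h5 := mul_nonneg (sub_nonneg.mpr hv) h4
    linarith
  calc (1 - X ^ 2 / 6 + X ^ 4 / 120 - X ^ 6 / 5040) * x
      ≤ (1 - x ^ 2 / 6 + x ^ 4 / 120 - x ^ 6 / 5040) * x :=
        mul_le_mul_of_nonneg_right h2 hx0.le
    _ = x - x ^ 3 / 6 + x ^ 5 / 120 - x ^ 7 / 5040 := by ring
    _ ≤ sin x := h1

theorem exp_two_le : exp (0.2 : ℝ) ≤ 1.22141 := by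
  have h2 := Real.exp_bound' (x := 0.2) (by norm_num) (by norm_num) (n := 6) (by norm_num)
  norm_num [Finset.sum_range_succ, Nat.factorial] at h2
  norm_num
  linarith

theorem exp_26_le : exp (0.26 : ℝ) ≤ 1.29694 := by
  have h2 := Real.exp_bound' (x := 0.26) (by norm_num) (by norm_num) (n := 6) (by norm_num)
  norm_num [Finset.sum_range_succ, Nat.factorial] at h2
  norm_num
  linarith

theorem exp_11_le : exp (0.11 : ℝ) ≤ 1.1163 := by
  have h2 := Real.exp_bound' (x := 0.11) (by norm_num) (by norm_num) (n := 5) (by norm_num)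
  norm_num [Finset.sum_range_succ, Nat.factorial] at h2
  norm_num
  linarith

theorem exp_0556_le : exp (0.0557 : ℝ) ≤ 1.0573 := by
  have h2 := Real.exp_bound' (x := 0.0557) (by norm_num) (by norm_num) (n := 5) (by norm_num)
  norm_num [Finset.sum_range_succ, Nat.factorial] at h2
  norm_num
  linarith

theorem log_11_ge : -2.2075 ≤ log 0.11 := by
  rw [Real.le_log_iff_exp_le (by norm_num), exp_neg]
  have h2 := Real.sum_le_exp_of_nonneg (x := 2.2075) (by norm_num) 13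
  norm_num [Finset.sum_range_succ, Nat.factorial] at h2
  rw [inv_le_comm₀ (exp_pos _) (by norm_num)]
  norm_num
  linarith

theorem log_02_ge : -1.61 ≤ log 0.2 := by
  rw [Real.le_log_iff_exp_le (by norm_num), exp_neg]
  have h2 := Real.sum_le_exp_of_nonneg (x := 1.61) (by norm_num) 10
  norm_num [Finset.sum_range_succ, Nat.factorial] at h2
  rw [inv_le_comm₀ (exp_pos _) (by norm_num)]
  norm_num
  linarith

theorem log_32_le : log 3.2 ≤ 1.1695 := by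
  rw [Real.log_le_iff_le_exp (by norm_num)]
  have h2 := Real.sum_le_exp_of_nonneg (x := 1.1695) (by norm_num) 9
  norm_num [Finset.sum_range_succ, Nat.factorial] at h2
  norm_num
  linarith

theorem log_395_le : log 3.95 ≤ 1.376 := by
  rw [Real.log_le_iff_le_exp (by norm_num)]
  have h2 := Real.sum_le_exp_of_nonneg (x := 1.376) (by norm_num) 10
  norm_num [Finset.sum_range_succ, Nat.factorial] at h2
  norm_num
  linarith

theorem twenty_le {L : ℝ} (hL : 5.58 ≤ L) : 20 * L ≤ exp L := by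
  have h1 : exp L = exp 5.58 * exp (L - 5.58) := by rw [← exp_add]; ring_nf
  have h2 := le_exp_558
  have h3 := Real.add_one_le_exp (L - 5.58)
  rw [h1]
  have h4 : 264.6 * (L - 5.58 + 1) ≤ exp 5.58 * exp (L - 5.58) :=
    mul_le_mul h2 h3 (by linarith) (by positivity)
  linarith

/-- the middle range -/
theorem mid_ineq {L ℓ κ x Z c X s₀ v E b : ℝ} {k : ℕ} (hL : 5.58 ≤ L)
    (hκ : κ = k * ℓ) (hℓ0 : 0 < ℓ) (hℓ : ℓ ≤ exp (-L)) (hk : 2 ≤ k)
    (a : ℝ) (ha0 : 0 < a) (haκ : a ≤ κ) (hκb : κ ≤ b) (hx0 : 0 < x) (hxX : x ≤ X)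
    (hX2 : X ≤ 1.5) (hc : -c ≤ log a) (hc0 : 0 ≤ c)
    (hE : exp κ ≤ E) (hZ0 : 0 ≤ Z)
    (hZ : Z ^ 2 ≤ (exp κ - 1) ^ 2 + 4 * exp κ * sin x ^ 2)
    (hs₀ : s₀ ≤ 1 - X ^ 2 / 6 + X ^ 4 / 120 - X ^ 6 / 5040)
    (hv0 : 0 < v) (t : ℝ) (hv : log v ≤ t)
    (ht : t ≤ 1.9416 * (1 - c / 5.58) - 0.00378 / 2 - b ^ 2 / 20)
    (w : ℝ) (hw0 : 0 ≤ w)
    (hw : (E - 1) ^ 2 + 4 * E * (X - X ^ 3 / 6 + X ^ 5 / 120) ^ 2 ≤ w ^ 2)
    (hfin : 1 + w < s₀ * v) :
    log (1 + Z) < log (sin x / x) + 1.9416 / L * log k - ℓ / 2 - κ ^ 2 / 20 := by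
  have hκ0 : 0 < κ := by linarith
  have hk0 : (0 : ℝ) < k := by positivity
  have hL0 : 0 < L := by linarith
  -- log k
  have h1 : L - c ≤ log k := by
    have h2 : log κ = log k + log ℓ := by rw [hκ, log_mul hk0.ne' hℓ0.ne']
    have h3 : log ℓ ≤ -L := by
      have := log_le_log hℓ0 hℓ
      rwa [log_exp] at this
    have h4 : log a ≤ log κ := log_le_log ha0 haκ
    linarith
  have h2 : 1.9416 * (1 - c / 5.58) ≤ 1.9416 / L * log k := by
    have h3 : 1.9416 / L * (L - c) ≤ 1.9416 / L * log k :=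
      mul_le_mul_of_nonneg_left h1 (by positivity)
    have h4 : 1.9416 / L * (L - c) = 1.9416 * (1 - c / L) := by field_simp
    have h5 : c / L ≤ c / 5.58 := div_le_div_of_nonneg_left hc0 (by norm_num) hL
    rw [h4] at h3
    nlinarith
  have h3 : ℓ ≤ 0.00378 := by
    refine hℓ.trans ?_
    have h4 : exp (-L) ≤ exp (-(5.58 : ℝ)) := exp_le_exp.mpr (by linarith)
    refine h4.trans ?_
    rw [exp_neg, inv_le_comm₀ (exp_pos _) (by norm_num)]
    refine le_trans ?_ le_exp_558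
    norm_num
  have h4 : κ ^ 2 ≤ b ^ 2 := pow_le_pow_left₀ hκ0.le hκb 2
  have h5 : log v ≤ 1.9416 / L * log k - ℓ / 2 - κ ^ 2 / 20 := by
    linarith
  -- the bound on Z
  have hsin0 : 0 < sin x := sin_pos_of_pos_of_lt_pi hx0 (by linarith [pi_gt_three])
  have hX0 : 0 < X := by linarith
  have h6 : sin x ≤ X - X ^ 3 / 6 + X ^ 5 / 120 := by
    have h7 : sin x ≤ sin X :=
      sin_le_sin_of_le_of_le_pi_div_two (by linarith [pi_pos]) (by linarith [pi_gt_three]) hxX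
    exact h7.trans (sin_le5 hX0.le)
  have h7 : Z ≤ w := by
    apply le_of_sq_le_sq _ hw0
    refine hZ.trans (le_trans ?_ hw)
    have h8 : 1 ≤ exp κ := one_le_exp hκ0.le
    have h9 : (exp κ - 1) ^ 2 ≤ (E - 1) ^ 2 := pow_le_pow_left₀ (by linarith) (by linarith) 2
    have h10 : sin x ^ 2 ≤ (X - X ^ 3 / 6 + X ^ 5 / 120) ^ 2 := pow_le_pow_left₀ hsin0.le h6 2
    have h11 : 4 * exp κ * sin x ^ 2 ≤ 4 * E * (X - X ^ 3 / 6 + X ^ 5 / 120) ^ 2 :=
      mul_le_mul (by linarith) h10 (by positivity) (by linarith)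
    linarith
  have h8 : s₀ ≤ sin x / x := hs₀.trans (sinc_ge hx0 hxX (by linarith))
  have h9 : 1 + Z < sin x / x * v := by
    have : s₀ * v ≤ sin x / x * v := mul_le_mul_of_nonneg_right h8 hv0.le
    linarith
  have h10 : log (1 + Z) < log (sin x / x * v) := log_lt_log (by linarith) h9
  rw [log_mul (by positivity) hv0.ne'] at h10
  linarith

end PowTri
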