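import Mathlib
import Pool.Agent.W_MP_69fa08_nt.Ineq

/-! The real inequality behind the small exponent case, continued. -/

namespace PowTri

open Real

/-- chord bound for the logarithm -/
theorem log_chord {A K k : ℝ} (hk : 2 ≤ k) (hK : k ≤ K) (h2 : A * 2 < log 2)
    (hKA : A * K < log K) : A * k < log k := by
  rcases hk.eq_or_lt with rfl | hk2
  · exact h2
  have hK2 : 0 < K - 2 := by linarith
  have hm2 : (2 : ℝ) ∈ Set.Ioi (0 : ℝ) := by simp
  have hmK : K ∈ Set.Ioi (0 : ℝ) := by simp only [Set.mem_Ioi]; linarith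
  have ha : 0 ≤ (K - k) / (K - 2) := div_nonneg (by linarith) hK2.le
  have hb : 0 ≤ (k - 2) / (K - 2) := div_nonneg (by linarith) hK2.le
  have hab : (K - k) / (K - 2) + (k - 2) / (K - 2) = 1 := by
    rw [← add_div, div_eq_one_iff_eq hK2.ne']; ring
  have hconc := strictConcaveOn_log_Ioi.concaveOn.2 hm2 hmK ha hb hab
  simp only [smul_eq_mul] at hconc
  have h3 : (K - k) / (K - 2) * 2 + (k - 2) / (K - 2) * K = k := by
    field_simp
    ring
  rw [h3] at hconc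
  refine lt_of_lt_of_le ?_ hconc
  have h4 : A * k = (K - k) / (K - 2) * (A * 2) + (k - 2) / (K - 2) * (A * K) := by
    field_simp
    ring
  rw [h4]
  have h5 : 0 < (k - 2) / (K - 2) := div_pos (by linarith) hK2
  have h6 : 0 ≤ (K - k) / (K - 2) := div_nonneg (by linarith) hK2.le
  have h7 := mul_lt_mul_of_pos_left hKA h5
  have h8 := mul_le_mul_of_nonneg_left h2.le h6
  linarith

theorem small_ineq {L ℓ κ x Z : ℝ} {k : ℕ} (hL : 5.58 ≤ L)
    (hκ : κ = k * ℓ) (hℓ0 : 0 < ℓ) (hℓ : ℓ ≤ exp (-L)) (hk : 2 ≤ k)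
    (hκb : κ ≤ 0.11) (hx0 : 0 < x) (hxX : x ≤ 4.34455 * κ) (hZ0 : 0 ≤ Z)
    (hZ : Z ^ 2 ≤ (exp κ - 1) ^ 2 + 4 * exp κ * sin x ^ 2) :
    log (1 + Z) < log (sin x / x) + 1.9416 / L * log k - ℓ / 2 - κ ^ 2 / 20 := by
  have hk2 : (2 : ℝ) ≤ k := by exact_mod_cast hk
  have hκ0 : 0 < κ := by rw [hκ]; positivity
  have hL0 : 0 < L := by linarith
  -- Z bound
  have h1 : Z ≤ 9.243 * κ := by
    apply le_of_sq_le_sq _ (by positivity)
    refine hZ.trans ?_
    have h2 : exp κ ≤ 1.1163 := (exp_le_exp.mpr hκb).trans exp_11_le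
    have h3 : exp κ - 1 ≤ κ * 1.0573 := by
      refine (exp_sub_one_le hκ0.le (by linarith)).trans ?_
      apply mul_le_mul_of_nonneg_left _ hκ0.le
      refine le_trans (exp_le_exp.mpr ?_) exp_0556_le
      nlinarith
    have h4 : 0 ≤ exp κ - 1 := by linarith [one_le_exp hκ0.le]
    have h5 : (exp κ - 1) ^ 2 ≤ (κ * 1.0573) ^ 2 := pow_le_pow_left₀ h4 h3 2
    have h6 : sin x ^ 2 ≤ (4.34455 * κ) ^ 2 :=
      (sin_sq_le_sq).trans (pow_le_pow_left₀ hx0.le hxX 2)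
    have h7 : 4 * exp κ * sin x ^ 2 ≤ 4 * 1.1163 * (4.34455 * κ) ^ 2 :=
      mul_le_mul (by linarith) h6 (by positivity) (by norm_num)
    nlinarith [sq_nonneg κ]
  have h2 : log (1 + Z) ≤ 9.243 * κ := by
    have := log_le_sub_one_of_pos (show (0 : ℝ) < 1 + Z by linarith)
    linarith
  -- log sinc
  have h3 : -(0.36 * κ) ≤ log (sin x / x) := by
    have hx2 : x ≤ 0.478 := by linarith
    have hsinc : 1 - x ^ 2 / 6 ≤ sin x / x := by
      rw [le_div_iff₀ hx0]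
      have := sin_ge_sub_cube hx0.le
      nlinarith
    have hu : x ^ 2 / 6 ≤ 0.0381 := by nlinarith
    have hpos : 0 < 1 - x ^ 2 / 6 := by linarith
    have h4 : log (1 - x ^ 2 / 6) ≤ log (sin x / x) := log_le_log hpos hsinc
    have h5 := Real.one_sub_inv_le_log_of_pos hpos
    have h6 : (1 - x ^ 2 / 6)⁻¹ ≤ 1 + 1.04 * (x ^ 2 / 6) := by
      rw [inv_le_comm₀ hpos (by positivity), ← one_div, div_le_iff₀ (by positivity)]
      nlinarith [sq_nonneg x]
    have h7 : 1.04 * (x ^ 2 / 6) ≤ 0.36 * κ := by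
      have h8 : x ^ 2 ≤ (4.34455 * κ) ^ 2 := pow_le_pow_left₀ hx0.le hxX 2
      nlinarith
    linarith
  have h4 : ℓ / 2 ≤ κ / 4 := by rw [hκ]; nlinarith
  have h5 : κ ^ 2 / 20 ≤ 0.0055 * κ := by nlinarith
  -- the logarithm of k
  set A := 5.0776 * L * ℓ with hA
  have hLℓ : L * ℓ ≤ 1 / 20 := by
    have h6 := twenty_le hL
    have h7 : L * ℓ ≤ L * exp (-L) := mul_le_mul_of_nonneg_left hℓ hL0.le
    have h8 : L * exp (-L) ≤ 1 / 20 := by
      rw [exp_neg, ← div_eq_mul_inv, div_le_div_iff₀ (exp_pos _) (by norm_num)]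
      linarith
    linarith
  have h6 : A * k < log k := by
    apply log_chord (K := 0.11 / ℓ) hk2
    · rw [le_div_iff₀ hℓ0]; rw [hκ] at hκb; exact hκb
    · have := log_two_gt_d9
      rw [hA]
      linarith
    · have h7 : A * (0.11 / ℓ) = 5.0776 * 0.11 * L := by rw [hA]; field_simp
      have h8 : log (0.11 / ℓ) = log 0.11 - log ℓ := log_div (by norm_num) hℓ0.ne'
      have h9 : log ℓ ≤ -L := by
        have := log_le_log hℓ0 hℓ
        rwa [log_exp] at this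
      have := log_11_ge
      rw [h7, h8]
      linarith
  have h7 : 9.8585 * κ < 1.9416 / L * log k := by
    have h8 : 1.9416 / L * (A * k) < 1.9416 / L * log k :=
      mul_lt_mul_of_pos_left h6 (by positivity)
    have h9 : 1.9416 / L * (A * k) = 1.9416 * 5.0776 * κ := by
      rw [hA, hκ]; field_simp
    rw [h9] at h8
    nlinarith
  linarith

theorem final_ineq {L ℓ κ x Z : ℝ} {k : ℕ} (hL : 5.58 ≤ L)
    (hκ : κ = k * ℓ) (hℓ0 : 0 < ℓ) (hℓ : ℓ ≤ exp (-L)) (hk : 2 ≤ k)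
    (hκb : κ ≤ 0.26) (hx0 : 0 < x) (hxX : x ≤ 4.34455 * κ) (hZ0 : 0 ≤ Z)
    (hZ : Z ^ 2 ≤ (exp κ - 1) ^ 2 + 4 * exp κ * sin x ^ 2) :
    log (1 + Z) < log (sin x / x) + 1.9416 / L * log k - ℓ / 2 - κ ^ 2 / 20 := by
  rcases le_or_gt κ 0.11 with h | h
  · exact small_ineq hL hκ hℓ0 hℓ hk h hx0 hxX hZ0 hZ
  rcases le_or_gt κ 0.2 with h' | h'
  · refine mid_ineq (c := 2.2075) (X := 0.869) (s₀ := 0.8788) (v := 3.2) (E := 1.22141)
      (b := 0.2) hL hκ hℓ0 hℓ hk 0.11 (by norm_num) h.le h' hx0 (by linarith) (by norm_num)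
      log_11_ge (by norm_num) ((exp_le_exp.mpr h').trans exp_two_le) hZ0 hZ (by norm_num)
      (by norm_num) 1.1695 log_32_le (by norm_num) 1.703 (by norm_num) (by norm_num)
      (by norm_num)
  · refine mid_ineq (c := 1.61) (X := 1.1296) (s₀ := 0.8004) (v := 3.95) (E := 1.29694)
      (b := 0.26) hL hκ hℓ0 hℓ hk 0.2 (by norm_num) h'.le hκb hx0 (by linarith) (by norm_num)
      log_02_ge (by norm_num) ((exp_le_exp.mpr hκb).trans exp_26_le) hZ0 hZ (by norm_num)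
      (by norm_num) 1.376 log_395_le (by norm_num) 2.082 (by norm_num) (by norm_num)
      (by norm_num)

theorem log_697_ge : 1.9416 ≤ log 6.97 := by
  rw [Real.le_log_iff_exp_le (by norm_num)]
  have h1 : exp (1.9416 : ℝ) = exp 1 * exp 0.9416 := by rw [← exp_add]; norm_num
  have h2 := Real.exp_bound' (x := 0.9416) (by norm_num) (by norm_num) (n := 8) (by norm_num)
  norm_num [Finset.sum_range_succ, Nat.factorial] at h2
  have h3 := Real.exp_one_lt_d9
  rw [h1]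
  have h5 : exp (0.9416 : ℝ) ≤ 2.56409 := by
    norm_num at h2 ⊢
    linarith
  calc exp 1 * exp 0.9416 ≤ 2.7182818286 * 2.56409 :=
        mul_le_mul h3.le h5 (exp_pos _).le (by norm_num)
    _ ≤ 6.97 := by norm_num

end PowTri
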