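import Mathlib
import Pool.Agent.W_MP_69fa08_nt.Ineq2

/-! Small exponents for large degree. -/

namespace PowTri

open Real

/-- comparison of `‖α^k - 1‖` and `‖α - 1‖` -/
theorem geom_lower {R φ : ℝ} (hR : 1 < R) {k : ℕ} (hk : 1 ≤ k) (hφ0 : 0 < φ)
    (hx : k * φ / 2 < π / 2) :
    (sin (k * φ / 2) / (k * φ / 2)) ^ 2 * k ^ 2 * R ^ (k - 1) *
      ((R - 1) ^ 2 + 2 * R * (1 - cos φ)) ≤ (R ^ k - 1) ^ 2 + 2 * R ^ k * (1 - cos (k * φ)) := by
  have hR0 : 0 < R := by linarith
  set r := log R with hr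
  have hr0 : 0 < r := log_pos hR
  have hRr : R = exp r := (exp_log hR0).symm
  have hk0 : (0 : ℝ) < k := by
    have : 0 < k := by omega
    exact_mod_cast this
  set x := k * φ / 2 with hxdef
  have hx0 : 0 < x := by positivity
  set s := sin x / x with hs
  have hsin0 : 0 < sin x := sin_pos_of_pos_of_lt_pi hx0 (by linarith [pi_pos])
  have hs0 : 0 < s := div_pos hsin0 hx0
  have hs1 : s ≤ 1 := by rw [hs, div_le_one hx0]; exact (sin_lt hx0).le
  -- hyperbolic identities
  have hsq : ∀ y : ℝ, (exp y - 1) ^ 2 = 4 * exp y * sinh (y / 2) ^ 2 := by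
    intro y
    have h1 : exp y = exp (y / 2) ^ 2 := by rw [← exp_nat_mul]; congr 1; push_cast; ring
    rw [sinh_eq, exp_neg, h1]
    have := exp_pos (y / 2)
    field_simp
    ring
  have hcs : ∀ y : ℝ, 1 - cos y = 2 * sin (y / 2) ^ 2 := by
    intro y
    have h1 : cos y = cos (2 * (y / 2)) := by congr 1; ring
    rw [h1, cos_two_mul]
    have := sin_sq_add_cos_sq (y / 2)
    linarith
  have hRk : R ^ k = exp (k * r) := by rw [hRr, ← exp_nat_mul]
  have hRk1 : R ^ (k - 1) * R = R ^ k := by rw [← pow_succ]; congr 1; omega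
  have e1 : (R ^ k - 1) ^ 2 = 4 * R ^ k * sinh (k * (r / 2)) ^ 2 := by
    rw [hRk, hsq]; congr 3; ring
  have e2 : 1 - cos (k * φ) = 2 * sin x ^ 2 := hcs _
  have e3 : (R - 1) ^ 2 = 4 * R * sinh (r / 2) ^ 2 := by
    conv_lhs => rw [hRr]
    rw [hsq, ← hRr]
  have e4 : 1 - cos φ = 2 * sin (φ / 2) ^ 2 := hcs _
  rw [e1, e2, e3, e4]
  have h1 : s * k * sinh (r / 2) ≤ sinh (k * (r / 2)) := by
    have h2 := sinh_mul_ge (y := r / 2) (by linarith) k
    have h3 : 0 ≤ k * sinh (r / 2) := by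
      have : 0 ≤ sinh (r / 2) := sinh_nonneg_iff.mpr (by linarith)
      positivity
    nlinarith
  have h2 : s * k * sin (φ / 2) ≤ sin x := by
    have h3 : sin (φ / 2) ≤ φ / 2 := (sin_lt (by linarith)).le
    have h4 : sin x = s * x := by rw [hs]; field_simp
    rw [h4]
    have h5 : x = k * (φ / 2) := by rw [hxdef]; ring
    calc s * k * sin (φ / 2) ≤ s * k * (φ / 2) :=
          mul_le_mul_of_nonneg_left h3 (by positivity)
      _ = s * x := by rw [h5]; ring
  have h3 : 0 ≤ s * k * sinh (r / 2) := by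
    have : 0 ≤ sinh (r / 2) := sinh_nonneg_iff.mpr (by linarith)
    positivity
  have hφ2 : φ / 2 < π := by
    have h4 : φ / 2 ≤ x := by
      rw [hxdef]
      have : (1 : ℝ) ≤ k := by exact_mod_cast hk
      nlinarith
    linarith [pi_pos]
  have h4 : 0 ≤ s * k * sin (φ / 2) := by
    have : 0 ≤ sin (φ / 2) := (sin_pos_of_pos_of_lt_pi (by linarith) hφ2).le
    positivity
  have h5 : (s * k * sinh (r / 2)) ^ 2 ≤ sinh (k * (r / 2)) ^ 2 := pow_le_pow_left₀ h3 h1 2
  have h6 : (s * k * sin (φ / 2)) ^ 2 ≤ sin x ^ 2 := pow_le_pow_left₀ h4 h2 2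
  have h7 : 0 < R ^ k := by positivity
  calc s ^ 2 * k ^ 2 * R ^ (k - 1) *
        (4 * R * sinh (r / 2) ^ 2 + 2 * R * (2 * sin (φ / 2) ^ 2))
      = 4 * (R ^ (k - 1) * R) * ((s * k * sinh (r / 2)) ^ 2 + (s * k * sin (φ / 2)) ^ 2) := by
        ring
    _ = 4 * R ^ k * ((s * k * sinh (r / 2)) ^ 2 + (s * k * sin (φ / 2)) ^ 2) := by rw [hRk1]
    _ ≤ 4 * R ^ k * (sinh (k * (r / 2)) ^ 2 + sin x ^ 2) := by
        apply mul_le_mul_of_nonneg_left _ (by positivity)
        linarith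
    _ = 4 * R ^ k * sinh (k * (r / 2)) ^ 2 + 2 * R ^ k * (2 * sin x ^ 2) := by ring

theorem caseG {n k : ℕ} {θ : ℝ} (hn : 1499 ≤ n) (h1 : 1 < θ) (h : θ ^ (n + 1) = θ ^ n + 1)
    (hk2 : 2 ≤ k) (hk : k * log θ ≤ 0.26) : ¬ IsParry (θ ^ k) := by
  intro hP
  have hL := lam_ge h1 h hn
  set L := n * log θ with hLdef
  have hε := eps_le h1 h hL
  have hℓ := log_le' h1
  have hℓ' := log_ge' h1
  have hℓ0 : 0 < log θ := log_pos h1
  have hn' : (1499 : ℝ) ≤ n := by exact_mod_cast hn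
  have hn0 : (0 : ℝ) < n := by linarith
  have hπ := pi_pos
  have hπ3 := pi_gt_three
  have hexpL : exp (-L) = θ - 1 := exp_neg_lam h1 h
  -- choice of j
  set j : ℕ := ⌈(7 * L / π + 1) / 2⌉₊ with hj
  have hL0 : 0 < L := by linarith
  have hjl : (7 * L / π + 1) / 2 ≤ j := Nat.le_ceil _
  have hju : (j : ℝ) < (7 * L / π + 1) / 2 + 1 := Nat.ceil_lt_add_one (by positivity)
  have hj1 : 1 ≤ j := Nat.one_le_ceil_iff.mpr (by positivity)
  have hjl' : 7 * L ≤ (2 * j - 1) * π := by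
    have : 7 * L / π ≤ 2 * j - 1 := by linarith
    rwa [div_le_iff₀ hπ] at this
  have hju' : 2 * j * π < 7 * L + 3 * π := by
    have : 2 * (j : ℝ) - 3 < 7 * L / π := by linarith
    rw [lt_div_iff₀ hπ] at this
    linarith
  have hLn : L ≤ n * 0.00378 := mul_le_mul_of_nonneg_left (by linarith) hn0.le
  have h6j : 6 * j < n + 1 := by
    have : (6 : ℝ) * j < n + 1 := by
      have h2 : 2 * (j : ℝ) * 3 < 7 * L + 3 * 4 := by
        have h3 : 2 * (j : ℝ) < 7 * L / π + 3 := by linarith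
        have h4 : 7 * L / π ≤ 7 * L / 3 := div_le_div_of_nonneg_left (by linarith) (by norm_num)
          hπ3.le
        linarith
      linarith
    exact_mod_cast this
  obtain ⟨α, φ, hα1, hr, hα, hφl, hφu, hφ0, hφ3⟩ := exists_root n j hj1 h6j
  have hcos : cos φ < 1 := by
    have := cos_lt_cos_of_nonneg_of_le_pi le_rfl (by linarith) hφ0
    rwa [cos_zero] at this
  have hRθ := norm_lt_theta h1 h hα1 hr hα hcos
  -- bounds on the angle
  have hφ7 : 7 * log θ ≤ φ := by
    refine le_trans ?_ hφl.le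
    rw [le_div_iff₀ hn0]
    calc 7 * log θ * n = 7 * L := by rw [hLdef]; ring
      _ ≤ _ := hjl'
  have hφ8 : φ ≤ 8.6891 * log θ := by
    have h3 : 2 * j * π / ((n : ℝ) + 1) ≤ 2 * j * π / n :=
      div_le_div_of_nonneg_left (by positivity) hn0 (by linarith)
    have h4 : 2 * j * π / n ≤ 8.6891 * log θ := by
      rw [div_le_iff₀ hn0]
      have h5 := Real.pi_lt_d6
      have h6 : 8.6891 * log θ * n = 8.6891 * L := by rw [hLdef]; ring
      rw [h6]
      linarith
    linarith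
  set R := ‖α‖ with hRdef
  set W := ‖α - 1‖ with hW
  have hWR : R ^ n * W = 1 := root_norm hr
  have hR0 : 0 < R := by linarith
  have hW0 : 0 < W := by
    by_contra hcon
    push Not at hcon
    have h2 : 0 < R ^ n := by positivity
    have h3 := mul_nonpos_of_nonneg_of_nonpos h2.le hcon
    linarith
  have hWsq : W ^ 2 = (R - 1) ^ 2 + 2 * R * (1 - cos φ) := norm_sub_one_sq hα
  -- lower bound for W
  have hWlow : 6.97 * (θ - 1) ≤ W := by
    have h2 : 2 * sin (φ / 2) ≤ W := by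
      apply le_of_sq_le_sq _ hW0.le
      rw [hWsq]
      have h3 : 1 - cos φ = 2 * sin (φ / 2) ^ 2 := by
        have h4 : cos φ = cos (2 * (φ / 2)) := by congr 1; ring
        rw [h4, cos_two_mul]
        have := sin_sq_add_cos_sq (φ / 2)
        linarith
      rw [h3]
      have h5 : 0 ≤ (R - 1) * sin (φ / 2) ^ 2 := mul_nonneg (by linarith) (sq_nonneg _)
      have h6 := sq_nonneg (R - 1)
      linarith
    have h3 := sin_ge_sub_cube (x := φ / 2) (by linarith)
    have h4 : φ ≤ 0.0329 := by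
      have : log θ ≤ 0.00378 := by linarith
      linarith
    have h5 : φ ^ 3 ≤ 0.0011 * φ := by
      have h51 : φ ^ 2 ≤ 0.0011 := by
        have h511 : φ ^ 2 ≤ 0.0329 ^ 2 := pow_le_pow_left₀ hφ0.le h4 2
        norm_num at h511 ⊢
        linarith
      have h52 : φ ^ 3 = φ ^ 2 * φ := by ring
      rw [h52]; exact mul_le_mul_of_nonneg_right h51 hφ0.le
    have h6 : 0.9999 * φ ≤ W := by
      have : (φ / 2) ^ 3 = φ ^ 3 / 8 := by ring
      rw [this] at h3
      linarith
    have h7 : 0.9962 * (θ - 1) ≤ log θ := by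
      refine le_trans ?_ hℓ'
      rw [le_div_iff₀ (by linarith)]
      have h8 : 0 ≤ (θ - 1) * (1 - 0.9962 * θ) := mul_nonneg (by linarith) (by linarith)
      linarith
    linarith
  -- ρ
  set ℓ := log θ with hℓdef
  set r := log R with hrdef
  have hr0 : 0 < r := log_pos hα1
  have hrl : r < ℓ := log_lt_log hR0 hRθ
  have hnr : n * r = -log W := by
    have := congrArg log hWR
    rw [log_mul (by positivity) hW0.ne', log_pow, log_one] at this
    linarith
  set ρ := r / ℓ with hρ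
  have hρ0 : 0 < ρ := div_pos hr0 hℓ0
  have hρ1 : ρ < 1 := by rw [hρ, div_lt_one hℓ0]; exact hrl
  have hρℓ : ρ * ℓ = r := by rw [hρ]; field_simp
  have hρL : ρ * L = -log W := by
    rw [← hnr, hLdef, ← hρℓ]; ring
  have hρ3 : 1.9416 / L ≤ 1 - ρ := by
    have h2 : log 6.97 + -L ≤ log W := by
      have h3 : log (6.97 * (θ - 1)) ≤ log W := log_le_log (by linarith) hWlow
      rw [log_mul (by norm_num) (by linarith), ← hexpL, log_exp] at h3
      exact h3
    have h3 := log_697_ge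
    rw [div_le_iff₀ hL0]
    linarith
  -- the exponent
  set κ := k * ℓ with hκ
  have hk2' : (2 : ℝ) ≤ k := by exact_mod_cast hk2
  have hk0 : (0 : ℝ) < k := by linarith
  have hκ0 : 0 < κ := by rw [hκ]; positivity
  have hβ : θ ^ k = exp κ := by
    rw [hκ, hℓdef, mul_comm, ← Real.rpow_def_of_pos (by linarith), Real.rpow_natCast]
  have hβ1 : 1 < θ ^ k := one_lt_pow₀ h1 (by omega)
  have hβ2 : θ ^ k < 2 := by
    rw [hβ]
    have h2 : exp κ ≤ exp 0.26 := exp_le_exp.mpr hk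
    have h3 := exp_26_le
    linarith
  have hlamb : log (θ ^ k - 1) ≤ log k - L + κ / 2 + κ ^ 2 / 20 := by
    have h2 : θ ^ k - 1 ≤ κ * exp (κ / 2 + κ ^ 2 / 20) := by
      rw [hβ]; exact exp_sub_one_le hκ0.le (by linarith)
    have h3 : log (θ ^ k - 1) ≤ log (κ * exp (κ / 2 + κ ^ 2 / 20)) :=
      log_le_log (by linarith) h2
    rw [log_mul hκ0.ne' (exp_pos _).ne', log_exp, hκ, log_mul hk0.ne' hℓ0.ne'] at h3
    have h4 : log ℓ ≤ -L := by
      have h5 : log ℓ ≤ log (exp (-L)) := log_le_log hℓ0 (by rw [hexpL]; exact hℓ)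
      rwa [log_exp] at h5
    rw [← hκ] at h3
    linarith
  have hlneg : log (θ ^ k - 1) < 0 := log_neg (by linarith) (by linarith)
  set M := exp (ρ * -log (θ ^ k - 1)) with hM
  have hM1 : 1 < M := by
    rw [hM, one_lt_exp_iff]
    exact mul_pos hρ0 (by linarith)
  -- the conjugate
  have hzn : ‖α ^ k‖ = R ^ k := norm_pow α k
  have hz1 : 1 < ‖α ^ k‖ := by rw [hzn]; exact one_lt_pow₀ hα1 (by omega)
  have hsh := shadow_of_parry (d := n + 1) (by omega) h1 (by simpa using h) hα1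
    (by simpa using hr) k hP
  obtain ⟨y, hy0, hy, C, hC⟩ := hsh
  have hdig0 : dig (θ ^ k) 0 = 1 := by
    rw [dig, orb_zero, mul_one, Int.floor_eq_iff]
    push_cast
    constructor <;> linarith
  have horb1 : orb (θ ^ k) (0 + 1) = θ ^ k - 1 := by
    rw [orb_succ, hdig0, orb_zero]; push_cast; ring
  have hy1 : y (0 + 1) = α ^ k - 1 := by
    rw [hy, hy0, hdig0]; push_cast; ring
  have hkey := critG hy hC hβ1 hβ2 hz1 hM1 (fun i hi1 hi2 => by
    rw [hzn, ← pow_mul, hM, ← exp_log (pow_pos hR0 (k * i)), exp_le_exp, log_pow]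
    have h3 : 0 ≤ i * κ + log (θ ^ k - 1) := by
      have h4 := log_le_log (by norm_num) hi2
      rw [log_one, log_mul (by positivity) (by linarith), log_pow, hβ, log_exp, ← hβ] at h4
      exact h4
    have h5 : ρ * -log (θ ^ k - 1) ≤ ρ * (i * κ) :=
      mul_le_mul_of_nonneg_left (by linarith) hρ0.le
    refine h5.trans (le_of_eq ?_)
    rw [← hrdef, ← hρℓ, hκ]
    push_cast
    ring) 0 (by rw [horb1])
  rw [hy1] at hkey
  -- the two bounds for Z
  set Z := ‖α ^ k - 1‖ with hZdef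
  have hZsq : Z ^ 2 = (R ^ k - 1) ^ 2 + 2 * R ^ k * (1 - cos (k * φ)) := by
    have := norm_sub_one_sq (pow_polar hα k)
    rw [hzn] at this
    exact this
  set x := k * φ / 2 with hx
  have hx0 : 0 < x := by positivity
  have hxX : x ≤ 4.34455 * κ := by
    rw [hx, hκ]
    have : k * φ ≤ k * (8.6891 * ℓ) := mul_le_mul_of_nonneg_left hφ8 hk0.le
    linarith
  have hxπ : x < π / 2 := by linarith
  have hlow := geom_lower hα1 (k := k) (by omega) hφ0 hxπ
  rw [← hZsq, ← hWsq, ← hx] at hlow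
  have hsin0 : 0 < sin x := sin_pos_of_pos_of_lt_pi hx0 (by linarith)
  have hs0 : 0 < sin x / x := div_pos hsin0 hx0
  have hZ0 : 0 < Z := by
    by_contra hcon
    push Not at hcon
    have h2 : Z = 0 := le_antisymm hcon (norm_nonneg _)
    rw [h2] at hlow
    have : 0 < (sin x / x) ^ 2 * k ^ 2 * R ^ (k - 1) * W ^ 2 := by positivity
    norm_num at hlow
    linarith
  have hZup : Z ^ 2 ≤ (exp κ - 1) ^ 2 + 4 * exp κ * sin x ^ 2 := by
    rw [hZsq]
    have h2 : 1 - cos (k * φ) = 2 * sin x ^ 2 := by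
      have h4 : cos (k * φ) = cos (2 * x) := by congr 1; rw [hx]; ring
      rw [h4, cos_two_mul]
      have := sin_sq_add_cos_sq x
      linarith
    have h3 : R ^ k ≤ exp κ := by rw [← hβ]; exact pow_le_pow_left₀ hR0.le hRθ.le k
    have h4 : 1 ≤ R ^ k := one_le_pow₀ hα1.le
    have h5 : (R ^ k - 1) ^ 2 ≤ (exp κ - 1) ^ 2 := pow_le_pow_left₀ (by linarith) (by linarith) 2
    rw [h2]
    have h6 : 0 ≤ sin x ^ 2 := sq_nonneg _
    have h7 : R ^ k * sin x ^ 2 ≤ exp κ * sin x ^ 2 := mul_le_mul_of_nonneg_right h3 h6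
    linarith
  have hlogZ : log (sin x / x) + log k + ((k : ℝ) - 1) * r / 2 + log W ≤ log Z := by
    have h2 := log_le_log (by positivity) hlow
    rw [log_mul (by positivity) (by positivity), log_mul (by positivity) (by positivity),
      log_mul (by positivity) (by positivity), log_pow, log_pow, log_pow, log_pow, log_pow] at h2
    have h3 : ((k - 1 : ℕ) : ℝ) = (k : ℝ) - 1 := by
      rw [Nat.cast_sub (by omega)]; norm_num
    rw [h3] at h2
    push_cast at h2
    linarith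
  have hfin := final_ineq hL hκ hℓ0 (by rw [hexpL]; exact hℓ) hk2 hk hx0 hxX hZ0.le hZup
  -- conclusion
  have hlogk : 0 ≤ log k := log_nonneg (by linarith)
  have h2 : log (1 + Z) < log Z + ρ * -log (θ ^ k - 1) := by
    have h3 : ρ * (L - log k - κ / 2 - κ ^ 2 / 20) ≤ ρ * -log (θ ^ k - 1) :=
      mul_le_mul_of_nonneg_left (by linarith) hρ0.le
    have h4 : ((k : ℝ) - 1) * r / 2 = ρ * κ / 2 - ρ * ℓ / 2 := by
      rw [← hρℓ, hκ]; ring
    have h5 : 1.9416 / L * log k ≤ (1 - ρ) * log k := mul_le_mul_of_nonneg_right hρ3 hlogk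
    have h6 : ρ * ℓ ≤ 1 * ℓ := mul_le_mul_of_nonneg_right hρ1.le hℓ0.le
    have h7 : ρ * (κ ^ 2 / 20) ≤ 1 * (κ ^ 2 / 20) :=
      mul_le_mul_of_nonneg_right hρ1.le (by positivity)
    linarith
  have h3 : log Z + ρ * -log (θ ^ k - 1) = log (Z * M) := by
    rw [log_mul hZ0.ne' (by positivity), hM, log_exp]
  rw [h3] at h2
  have h4 : 1 + Z < Z * M := (log_lt_log_iff (by linarith) (by positivity)).mp h2
  linarith

end PowTri
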