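import Mathlib
import Pool.Agent.W_MP_69fa08_nt.Base

/-! Large exponents for large degree. -/

namespace PowTri

open Real

theorem log_22732 : log 2.2732 ≤ 0.82584 := by
  rw [Real.log_le_iff_le_exp (by norm_num)]
  have h2 := Real.sum_le_exp_of_nonneg (x := 0.82584) (by norm_num) 6
  norm_num [Finset.sum_range_succ, Nat.factorial] at h2
  norm_num
  linarith

theorem caseH {n k : ℕ} {θ : ℝ} (hn : 1499 ≤ n) (h1 : 1 < θ) (h : θ ^ (n + 1) = θ ^ n + 1)
    (hk : 0.26 ≤ k * log θ) : ¬ IsParry (θ ^ k) := by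
  intro hP
  obtain ⟨α, φ, hα1, hr, hα, hφl, hφu, hφ0, hφ3⟩ := exists_root n 1 le_rfl (by omega)
  have hL := lam_ge h1 h hn
  have hε := eps_le h1 h hL
  have hℓ := log_le' h1
  have hℓ0 : 0 < log θ := log_pos h1
  have hcos : cos φ < 1 := by
    have := cos_lt_cos_of_nonneg_of_le_pi le_rfl (by linarith [pi_pos]) hφ0
    rwa [cos_zero] at this
  have hRθ := norm_lt_theta h1 h hα1 hr hα hcos
  have hn0 : (0 : ℝ) < n := by
    have : (1499 : ℝ) ≤ n := by exact_mod_cast hn
    linarith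
  -- bound on the angle
  have hφ : φ ≤ 1.1262 * log θ := by
    have h2 : φ < 2 * π / (n + 1) := by simpa using hφu
    have h3 : 2 * π / ((n : ℝ) + 1) ≤ 2 * π / n :=
      div_le_div_of_nonneg_left (by positivity) hn0 (by linarith)
    have h4 : 2 * π / n ≤ 1.1262 * log θ := by
      rw [div_le_iff₀ hn0]
      have := Real.pi_lt_d6
      nlinarith
    linarith
  have hφ2 : φ ^ 2 ≤ 1.2684 * (θ - 1) ^ 2 := by
    have h2 : φ ≤ 1.1262 * (θ - 1) := by nlinarith
    have h3 : φ ^ 2 ≤ (1.1262 * (θ - 1)) ^ 2 := pow_le_pow_left₀ hφ0.le h2 2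
    nlinarith [sq_nonneg (θ - 1)]
  set R := ‖α‖ with hR
  set W := ‖α - 1‖ with hW
  have hWR : R ^ n * W = 1 := root_norm hr
  have hR0 : 0 < R := by linarith
  have hW0 : 0 < W := by
    by_contra hcon
    push Not at hcon
    have : 0 < R ^ n := by positivity
    nlinarith
  have hWsq : W ^ 2 ≤ 2.2732 * (θ - 1) ^ 2 := by
    have h2 := norm_sub_one_sq hα
    rw [← hR, ← hW] at h2
    have h3 : (R - 1) ^ 2 ≤ (θ - 1) ^ 2 := pow_le_pow_left₀ (by linarith) (by linarith) 2
    have h4 : 1 - cos φ ≤ φ ^ 2 / 2 := by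
      have := one_sub_sq_div_two_le_cos (x := φ)
      linarith
    have h5 : 2 * R * (1 - cos φ) ≤ 2 * 1.00378 * (φ ^ 2 / 2) := by
      apply mul_le_mul _ h4 (by linarith) (by norm_num)
      linarith
    have h6 : 0 ≤ (θ - 1) ^ 2 := sq_nonneg _
    rw [h2]
    nlinarith
  -- logarithms
  have hlogR : 0.926 * log θ ≤ log R := by
    have h2 : n * log R + log W = 0 := by
      have := congrArg log hWR
      rwa [log_mul (by positivity) hW0.ne', log_pow, log_one] at this
    have h3 : 2 * log W ≤ 0.82584 + 2 * (-(n * log θ)) := by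
      have h4 : log (W ^ 2) ≤ log (2.2732 * (θ - 1) ^ 2) := log_le_log (by positivity) hWsq
      rw [log_pow, log_mul (by norm_num) (by positivity), log_pow] at h4
      have h5 : log (θ - 1) = -(n * log θ) := by
        rw [← exp_neg_lam h1 h, log_exp]
      rw [h5] at h4
      have := log_22732
      push_cast at h4
      linarith
    have h4 : 0.926 * (n * log θ) ≤ n * log R := by linarith
    have h5 : n * (0.926 * log θ) ≤ n * log R := by linarith
    exact le_of_mul_le_mul_left h5 hn0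
  have hk0 : k ≠ 0 := by
    rintro rfl
    norm_num at hk
  set κ := k * log θ with hκ
  -- the conjugate
  have hzn : ‖α ^ k‖ = R ^ k := norm_pow α k
  have hz1 : 1 < ‖α ^ k‖ := by rw [hzn]; exact one_lt_pow₀ hα1 hk0
  have hzβ : α ^ k ≠ ((θ ^ k : ℝ) : ℂ) := by
    intro hcon
    have h2 : ‖α ^ k‖ = θ ^ k := by
      rw [hcon, Complex.norm_real, norm_eq_abs, abs_of_nonneg (by positivity)]
    rw [hzn] at h2
    have : R ^ k < θ ^ k := pow_lt_pow_left₀ hRθ hR0.le hk0
    linarith
  have hsh := shadow_of_parry (d := n + 1) (by omega) h1 (by simpa using h) hα1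
    (by simpa using hr) k hP
  have hcr := critH1 hsh hzβ hz1 (pow_polar hα k)
  refine caseH_core (y := 0.926 * κ) (δ := ‖α ^ k‖ - 1) (h := 1 - cos (k * φ)) ?_ ?_ ?_ ?_ hcr
  · linarith
  · have h2 : exp (0.926 * κ) ≤ R ^ k := by
      rw [← exp_log (pow_pos hR0 k), log_pow]
      apply exp_le_exp.mpr
      rw [hκ]
      have : (0 : ℝ) ≤ k := Nat.cast_nonneg k
      nlinarith
    have h3 := Real.quadratic_le_exp_of_nonneg (x := 0.926 * κ) (by linarith)
    rw [hzn]
    linarith
  · have := cos_le_one (k * φ)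
    linarith
  · have h2 := one_sub_sq_div_two_le_cos (x := k * φ)
    have h3 : k * φ ≤ 1.1262 * κ := by
      rw [hκ]
      have : (0 : ℝ) ≤ k := Nat.cast_nonneg k
      nlinarith
    have h4 : (k * φ) ^ 2 ≤ (1.1262 * κ) ^ 2 := by
      apply pow_le_pow_left₀ _ h3
      positivity
    have h5 : (1.1262 * κ) ^ 2 = 1.26832644 * κ ^ 2 := by ring
    have h6 : 0.75 * (0.926 * κ) ^ 2 = 0.643107 * κ ^ 2 := by ring
    have h7 := sq_nonneg κ
    rw [h5] at h4
    rw [h6]
    linarith

end PowTri
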