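import Mathlib

/-! A root of a polynomial near an approximate root. -/

namespace PowTri

open Polynomial

theorem exists_near_root {p : ℂ[X]} (hd : 0 < p.natDegree) (z : ℂ) :
    ∃ α : ℂ, p.eval α = 0 ∧ ‖z - α‖ * ‖p.derivative.eval z‖ ≤ p.natDegree * ‖p.eval z‖ := by
  have hp0 : p ≠ 0 := by
    rintro rfl
    simp at hd
  by_cases hz : p.eval z = 0
  · exact ⟨z, hz, by simp [hz]⟩
  have hsplit := IsAlgClosed.splits p
  have hcard : p.roots.card = p.natDegree := (IsAlgClosed.splits p).natDegree_eq_card_roots.symm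
  have hne : p.roots ≠ 0 := by
    intro h
    rw [h] at hcard
    simp at hcard
    omega
  -- a closest root
  obtain ⟨α, hα, hmin⟩ := p.roots.toFinset.exists_min_image (fun a => ‖z - a‖)
    (Multiset.toFinset_nonempty.mpr hne)
  rw [Multiset.mem_toFinset] at hα
  have hαr : p.eval α = 0 := (mem_roots'.mp hα).2
  refine ⟨α, hαr, ?_⟩
  have hpos : 0 < ‖z - α‖ := by
    rw [norm_pos_iff, sub_ne_zero]
    rintro rfl
    exact hz hαr
  have hkey := hsplit.eval_derivative_div_eval_of_ne_zero hz
  have h1 : ‖p.derivative.eval z / p.eval z‖ ≤ p.natDegree / ‖z - α‖ := by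
    rw [hkey]
    have h2 : ‖(Multiset.map (fun a => 1 / (z - a)) p.roots).sum‖ ≤
        (Multiset.map (fun _ => 1 / ‖z - α‖) p.roots).sum := by
      refine (norm_multiset_sum_le _).trans ?_
      rw [Multiset.map_map]
      apply Multiset.sum_map_le_sum_map
      intro a ha
      simp only [Function.comp]
      rw [norm_div, norm_one]
      apply one_div_le_one_div_of_le hpos
      exact hmin a (Multiset.mem_toFinset.mpr ha)
    refine h2.trans (le_of_eq ?_)
    rw [Multiset.map_const', Multiset.sum_replicate, hcard, nsmul_eq_mul]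
    ring
  rw [norm_div, div_le_div_iff₀ (norm_pos_iff.mpr hz) hpos] at h1
  linarith

end PowTri
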