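import Mathlib
import Pool.Agent.W_MP_69fa08_nt.Base
import Pool.Agent.W_MP_69fa08_nt.Ball

/-! Soundness of the computed orbits and of the tests. -/

namespace PowTri

open Real

theorem inI_sound {x : Cb} {v : ℝ} (hx : x.Mem (v : ℂ)) (h : inI x = true) : 0 ≤ v ∧ v < 1 := by
  have hre : |v * 18446744073709551616 - (x.a : ℝ)| ≤ x.r := by
    refine le_trans ?_ hx
    have := Complex.abs_re_le_norm ((v : ℂ) * 18446744073709551616 - x.c)
    have e : ((v : ℂ) * 18446744073709551616 - x.c).re = v * 18446744073709551616 - (x.a : ℝ) := by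
      simp [Cb.c]
    rwa [e] at this
  unfold inI at h
  cases ha : x.a with
  | ofNat a =>
    rw [ha] at h hre
    simp only [Bool.and_eq_true] at h
    have h1 : x.r ≤ a := Nat.le_of_ble_eq_true h.1
    have h2 : a + x.r < 18446744073709551616 := Nat.le_of_ble_eq_true h.2
    have h1' : (x.r : ℝ) ≤ a := by exact_mod_cast h1
    have h2' : (a : ℝ) + x.r < 18446744073709551616 := by exact_mod_cast h2
    rw [abs_le] at hre
    have e : ((Int.ofNat a : ℤ) : ℝ) = (a : ℝ) := by simp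
    rw [e] at hre
    constructor
    · by_contra hcon
      push Not at hcon
      linarith [hre.1]
    · by_contra hcon
      push Not at hcon
      linarith [hre.2]
  | negSucc a =>
    rw [ha] at h
    simp at h

theorem orbit_sound {βB : Cb} {β : ℝ} (hβ : βB.Mem (β : ℂ)) : ∀ m, okB βB m = true →
    (∀ i, i ≤ m → (xB βB i).Mem (orb β i : ℂ)) ∧ (∀ i, i < m → eB βB i = dig β i) := by
  intro m
  induction m with
  | zero =>
    intro _
    refine ⟨fun i hi => ?_, fun i hi => by omega⟩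
    have : i = 0 := by omega
    subst this
    rw [orb_zero]
    exact_mod_cast Cb.mem_one
  | succ m ih =>
    intro h
    have h' : okB βB m = true ∧ inI (xB βB (m + 1)) = true := by
      simpa [okB, Bool.and_eq_true] using h
    obtain ⟨ih1, ih2⟩ := ih h'.1
    have hm := ih1 m le_rfl
    have hp := Cb.mem_mul hβ hm
    have hx := Cb.mem_addI hp (Int.neg (Int.shiftRight (βB.mul (xB βB m)).a 64))
    set e : ℤ := Int.shiftRight (βB.mul (xB βB m)).a 64 with he
    have hv : (xB βB (m + 1)).Mem ((β * orb β m - e : ℝ) : ℂ) := by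
      have e1 : ((β * orb β m - e : ℝ) : ℂ) = (β : ℂ) * (orb β m : ℂ) + ((Int.neg e : ℤ) : ℂ) := by
        change _ = (β : ℂ) * (orb β m : ℂ) + ((-e : ℤ) : ℂ)
        push_cast
        ring
      rw [e1]
      exact hx
    obtain ⟨h0, h1⟩ := inI_sound hv h'.2
    have hdig : e = dig β m := by
      rw [dig, eq_comm, Int.floor_eq_iff]
      constructor <;> linarith
    have horb : orb β (m + 1) = β * orb β m - e := by rw [orb_succ, hdig]
    refine ⟨fun i hi => ?_, fun i hi => ?_⟩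
    · rcases Nat.lt_or_ge i (m + 1) with h2 | h2
      · exact ih1 i (by omega)
      · have : i = m + 1 := by omega
        subst this
        rw [horb]; exact hv
    · rcases Nat.lt_or_ge i m with h2 | h2
      · exact ih2 i h2
      · have : i = m := by omega
        subst this
        exact hdig

theorem y_sound {βB zB : Cb} {β : ℝ} {z : ℂ} (hz : zB.Mem z)
    {y : ℕ → ℂ} (hy0 : y 0 = 1) (hy : ∀ n, y (n + 1) = z * y n - (dig β n : ℂ)) (m : ℕ)
    (he : ∀ i, i < m → eB βB i = dig β i) : (yB βB zB m).Mem (y m) := by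
  induction m with
  | zero => rw [hy0]; exact Cb.mem_one
  | succ m ih =>
    have h1 := ih (fun i hi => he i (by omega))
    have h2 := Cb.mem_addI (Cb.mem_mul hz h1) (Int.neg (eB βB m))
    rw [hy]
    have e1 : z * y m - (dig β m : ℂ) = z * y m + ((Int.neg (eB βB m) : ℤ) : ℂ) := by
      rw [he m (by omega)]
      change _ = z * y m + ((-dig β m : ℤ) : ℂ)
      push_cast
      ring
    rw [e1]
    exact h2

theorem u_sound {βB zB : Cb} {β : ℝ} {z : ℂ} (hz : zB.Mem z) (m : ℕ)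
    (hx : ∀ i, i < m → (xB βB i).Mem (orb β i : ℂ)) : (uB βB zB m).Mem (useq β z m) := by
  induction m with
  | zero => exact Cb.mem_zero
  | succ m ih =>
    have h1 := ih (fun i hi => hx i (by omega))
    exact Cb.mem_add (Cb.mem_mul hz h1) (hx m (by omega))

theorem chkD_sound {D : ℕ} {zB : Cb} {z : ℂ} (hz : zB.Mem z) (h : chkD D zB = true) :
    1 + (D : ℝ) / 65536 ≤ ‖z‖ := by
  unfold chkD at h
  rw [Bool.and_eq_true] at h
  have h1 : (65536 + D) ^ 2 * 2 ^ 149 ≤ zB.nsq * (4294967296 * 2097151) :=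
    Nat.le_of_ble_eq_true h.2
  have h2 := Cb.lower hz h.1
  have h3 : ((65536 + D : ℝ)) ^ 2 * 2 ^ 149 ≤ zB.nsq * (4294967296 * 2097151) := by
    exact_mod_cast h1
  have h4 : (65536 + (D : ℝ)) ^ 2 ≤ (‖z‖ * 65536) ^ 2 := by
    norm_num at h3 h2 ⊢
    nlinarith
  have h5 : 65536 + (D : ℝ) ≤ ‖z‖ * 65536 :=
    le_of_sq_le_sq h4 (by positivity)
  have h6 : 1 + (D : ℝ) / 65536 = (65536 + D) / 65536 := by field_simp
  rw [h6, div_le_iff₀ (by norm_num)]
  exact h5

theorem chkH_sound {D : ℕ} {zB wB : Cb} {z w : ℂ} (hz : zB.Mem z) (hw : wB.Mem w)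
    (h : chkH D zB wB = true) : ‖z - 1‖ < ‖w‖ * (‖z‖ - 1) := by
  unfold chkH at h
  simp only [Bool.and_eq_true] at h
  obtain ⟨hD, hws, hzs, hlt⟩ := h
  have h1 := chkD_sound hz hD
  have h2 : (zB.addI (-1)).nsq * (2097154 * 4294967296) < wB.nsq * (2097151 * (D * D)) :=
    Nat.le_of_ble_eq_true hlt
  have hz1 : (zB.addI (-1)).Mem (z - 1) := by
    have := Cb.mem_addI hz (-1)
    convert this using 1
    push_cast
    ring
  have h3 := Cb.upper hz1 hzs
  have h4 := Cb.lower hw hws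
  have h5 : ((zB.addI (-1)).nsq : ℝ) * (2097154 * 4294967296) < wB.nsq * (2097151 * (D * D)) := by
    exact_mod_cast h2
  have h6 : (‖z - 1‖ * 65536) ^ 2 < (‖w‖ * D) ^ 2 := by
    have hD2 : (0 : ℝ) ≤ (D : ℝ) * D := by positivity
    have h7 : (wB.nsq : ℝ) * 2097151 * (D * D)
        ≤ (‖w‖ * 18446744073709551616) ^ 2 * 2097152 * (D * D) :=
      mul_le_mul_of_nonneg_right h4 hD2
    nlinarith
  have h7 : ‖z - 1‖ * 65536 < ‖w‖ * D := lt_of_pow_lt_pow_left₀ 2 (by positivity) h6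
  have h8 : (D : ℝ) / 65536 ≤ ‖z‖ - 1 := by linarith
  have h9 : ‖w‖ * ((D : ℝ) / 65536) ≤ ‖w‖ * (‖z‖ - 1) :=
    mul_le_mul_of_nonneg_left h8 (norm_nonneg _)
  have h10 : ‖z - 1‖ < ‖w‖ * ((D : ℝ) / 65536) := by
    rw [← mul_div_assoc, lt_div_iff₀ (by norm_num)]
    exact h7
  linarith

/-- the `G` test refutes a bounded shadow -/
theorem chkG_sound {k g t U L : ℕ} {yb : Cb} {θ : ℝ} {α : ℂ} (h1 : 1 < θ)
    (hU : θ * 4294967296 ≤ U) (hL : (L : ℝ) ≤ ‖α‖ ^ 2 * 4294967296) (hg : 1 ≤ g)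
    (hk : 1 ≤ k) (hα : 1 < ‖α‖)
    {y : ℕ → ℂ} (hy : ∀ n, y (n + 1) = α ^ k * y n - (dig (θ ^ k) n : ℂ))
    {C : ℝ} (hC : ∀ n, ‖y n‖ ≤ C) (n : ℕ) (hn : orb (θ ^ k) (n + 1) ≤ θ ^ k - 1)
    (hyb : yb.Mem (y (n + 1))) (h : chkG k g t U L yb = true) : False := by
  unfold chkG at h
  simp only [Bool.and_eq_true] at h
  obtain ⟨hc1, hc2, hsm, hc3⟩ := h
  have c1 : U ^ (k * (g - 1)) * (U ^ k - 4294967296 ^ k) < 4294967296 ^ (k * g) :=
    Nat.le_of_ble_eq_true hc1
  have c2 : (1024 + t) ^ 2 * 4294967296 ^ (k * g) < L ^ (k * g) * 1048576 :=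
    Nat.le_of_ble_eq_true hc2
  have c3 : 2 ^ 169 ≤ t * t * (yb.nsq * 2097151) := Nat.le_of_ble_eq_true hc3
  set β := θ ^ k with hβdef
  have hβ1 : 1 < β := one_lt_pow₀ h1 (by omega)
  -- real versions
  have hUge : 4294967296 ≤ U := by
    have : (4294967296 : ℝ) ≤ U := by linarith
    exact_mod_cast this
  have hUk : 4294967296 ^ k ≤ U ^ k := Nat.pow_le_pow_left hUge k
  have r1 : (U : ℝ) ^ (k * (g - 1)) * ((U : ℝ) ^ k - 4294967296 ^ k) < 4294967296 ^ (k * g) := by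
    have := c1
    zify [hUk] at this
    exact_mod_cast this
  have hθU : θ ≤ U / 4294967296 := by
    rw [le_div_iff₀ (by norm_num)]; exact hU
  have hβg : β ^ (g - 1) * (β - 1) < 1 := by
    have h2 : β ^ (g - 1) ≤ ((U : ℝ) / 4294967296) ^ (k * (g - 1)) := by
      rw [hβdef, ← pow_mul]
      exact pow_le_pow_left₀ (by linarith) hθU _
    have h3 : β - 1 ≤ ((U : ℝ) / 4294967296) ^ k - 1 := by
      have : β ≤ ((U : ℝ) / 4294967296) ^ k := pow_le_pow_left₀ (by linarith) hθU _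
      linarith
    have h4 : β ^ (g - 1) * (β - 1)
        ≤ ((U : ℝ) / 4294967296) ^ (k * (g - 1)) * (((U : ℝ) / 4294967296) ^ k - 1) :=
      mul_le_mul h2 h3 (by linarith) (by positivity)
    refine lt_of_le_of_lt h4 ?_
    have h5 : ((U : ℝ) / 4294967296) ^ (k * (g - 1)) * (((U : ℝ) / 4294967296) ^ k - 1)
        = (U : ℝ) ^ (k * (g - 1)) * ((U : ℝ) ^ k - 4294967296 ^ k) / 4294967296 ^ (k * g) := by
      have e : k * g = k * (g - 1) + k := by
        obtain ⟨g', rfl⟩ : ∃ g', g = g' + 1 := ⟨g - 1, by omega⟩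
        simp only [Nat.add_sub_cancel]; ring
      rw [e, pow_add, div_pow, div_pow]
      field_simp
    rw [h5, div_lt_one (by positivity)]
    exact r1
  have hβ2 : β < 2 := by
    have h2 : 1 ≤ β ^ (g - 1) := one_le_pow₀ hβ1.le
    nlinarith
  -- M
  have hzn : ‖α ^ k‖ = ‖α‖ ^ k := norm_pow α k
  have hz1 : 1 < ‖α ^ k‖ := by rw [hzn]; exact one_lt_pow₀ hα (by omega)
  set M := ‖α ^ k‖ ^ g with hM
  have hMt : 1 + (t : ℝ) / 1024 < M := by
    have r2 : (1024 + (t : ℝ)) ^ 2 * 4294967296 ^ (k * g) < (L : ℝ) ^ (k * g) * 1048576 := by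
      exact_mod_cast c2
    have h2 : (L : ℝ) ^ (k * g) ≤ (‖α‖ ^ 2 * 4294967296) ^ (k * g) :=
      pow_le_pow_left₀ (by positivity) hL _
    have h3 : (‖α‖ ^ 2 * 4294967296) ^ (k * g) = M ^ 2 * 4294967296 ^ (k * g) := by
      rw [hM, hzn, mul_pow, ← pow_mul, ← pow_mul, ← pow_mul]
      congr 2
      ring
    rw [h3] at h2
    have h4 : (1024 + (t : ℝ)) ^ 2 * 4294967296 ^ (k * g)
        < (M * 1024) ^ 2 * 4294967296 ^ (k * g) := by
      refine lt_of_lt_of_le r2 ?_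
      have := mul_le_mul_of_nonneg_right h2 (show (0 : ℝ) ≤ 1048576 by norm_num)
      refine this.trans (le_of_eq ?_)
      ring
    have h5 : (1024 + (t : ℝ)) ^ 2 < (M * 1024) ^ 2 :=
      lt_of_mul_lt_mul_right h4 (by positivity)
    have h6 : 1024 + (t : ℝ) < M * 1024 := lt_of_pow_lt_pow_left₀ 2 (by positivity) h5
    have h7 : 1 + (t : ℝ) / 1024 = (1024 + t) / 1024 := by field_simp
    rw [h7, div_lt_iff₀ (by norm_num)]
    exact h6
  have hM1 : 1 < M := by
    have : (0 : ℝ) ≤ t / 1024 := by positivity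
    linarith
  have hkey := critG hy hC hβ1 hβ2 hz1 hM1 (fun i hi1 hi2 => by
    -- i ≥ g
    have hig : g ≤ i := by
      by_contra hcon
      push Not at hcon
      have h2 : β ^ i ≤ β ^ (g - 1) := pow_le_pow_right₀ hβ1.le (by omega)
      have h3 : β ^ i * (β - 1) ≤ β ^ (g - 1) * (β - 1) :=
        mul_le_mul_of_nonneg_right h2 (by linarith)
      linarith
    exact pow_le_pow_right₀ hz1.le hig) n hn
  -- lower bound for y
  have h2 := Cb.lower hyb hsm
  have r3 : (2 : ℝ) ^ 169 ≤ t * t * (yb.nsq * 2097151) := by exact_mod_cast c3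
  have h3 : (1024 : ℝ) ^ 2 ≤ (‖y (n + 1)‖ * t) ^ 2 := by
    have ht : (0 : ℝ) ≤ (t : ℝ) * t := by positivity
    have h4 : (t : ℝ) * t * (yb.nsq * 2097151)
        ≤ (t : ℝ) * t * ((‖y (n + 1)‖ * 18446744073709551616) ^ 2 * 2097152) :=
      mul_le_mul_of_nonneg_left h2 ht
    norm_num at r3 ⊢
    nlinarith
  have h4 : 1024 ≤ ‖y (n + 1)‖ * t :=
    le_of_sq_le_sq h3 (by positivity)
  have hypos : 0 < ‖y (n + 1)‖ := by
    by_contra hcon
    push Not at hcon
    have h5 : ‖y (n + 1)‖ = 0 := le_antisymm hcon (norm_nonneg _)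
    rw [h5] at h4
    norm_num at h4
  have h5 : ‖y (n + 1)‖ * ((t : ℝ) / 1024) < ‖y (n + 1)‖ * (M - 1) :=
    mul_lt_mul_of_pos_left (by linarith) hypos
  have h6 : 1 ≤ ‖y (n + 1)‖ * ((t : ℝ) / 1024) := by
    rw [← mul_div_assoc, le_div_iff₀ (by norm_num)]
    linarith
  linarith

end PowTri
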