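import Mathlib
import Pool.Agent.W_MP_69fa08_nt.Sound
import Pool.Agent.W_MP_69fa08_nt.Near

/-! Soundness of the whole check. -/

namespace PowTri

open Real

theorem abs_sin_nat_mul (k : ℕ) (x : ℝ) : |sin (k * x)| ≤ k * |sin x| := by
  induction k with
  | zero => simp
  | succ k ih =>
    have h1 : ((k + 1 : ℕ) : ℝ) * x = k * x + x := by push_cast; ring
    rw [h1, sin_add]
    refine (abs_add_le _ _).trans ?_
    rw [abs_mul, abs_mul]
    have h2 := abs_cos_le_one x
    have h3 := abs_cos_le_one (k * x)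
    have h4 := abs_nonneg (sin x)
    have h5 := abs_nonneg (sin (k * x))
    have h6 : |sin (k * x)| * |cos x| ≤ |sin (k * x)| * 1 := mul_le_mul_of_nonneg_left h2 h5
    have h7 : |cos (k * x)| * |sin x| ≤ 1 * |sin x| := mul_le_mul_of_nonneg_right h3 h4
    push_cast
    linarith

theorem one_sub_cos_nat_mul (k : ℕ) (φ : ℝ) : 1 - cos (k * φ) ≤ k ^ 2 * (1 - cos φ) := by
  have hcs : ∀ y : ℝ, 1 - cos y = 2 * sin (y / 2) ^ 2 := by
    intro y
    have h1 : cos y = cos (2 * (y / 2)) := by congr 1; ring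
    rw [h1, cos_two_mul]
    have := sin_sq_add_cos_sq (y / 2)
    linarith
  rw [hcs, hcs]
  have h1 : (k : ℝ) * φ / 2 = k * (φ / 2) := by ring
  rw [h1, ← sq_abs (sin (k * (φ / 2))), ← sq_abs (sin (φ / 2))]
  have h2 := pow_le_pow_left₀ (abs_nonneg _) (abs_sin_nat_mul k (φ / 2)) 2
  linarith

theorem mono_large {R D q φ : ℝ} {k₀ k : ℕ} (hR : 1 < R) (hk₀ : 1 ≤ k₀) (hk : k₀ ≤ k)
    (hD0 : 0 ≤ D) (hD : 1 + D ≤ R ^ k₀) (hq0 : 0 ≤ q) (hq : 1 - cos φ ≤ q)
    (h : 1 ≤ 2 * D ^ 2 ∨ k₀ ^ 2 * q * (1 - 2 * D ^ 2) < 2 * D ^ 3) :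
    ¬ (2 * (R ^ k - 1) ^ 3 ≤ (1 - cos (k * φ)) * (1 - 2 * (R ^ k - 1) ^ 2)) := by
  intro hcon
  have hk₀' : (0 : ℝ) < k₀ := by
    have : 0 < k₀ := by omega
    exact_mod_cast this
  have hkk : (k₀ : ℝ) ≤ k := by exact_mod_cast hk
  set lam : ℝ := k / k₀ with hlam
  have hlam1 : 1 ≤ lam := by rw [hlam, one_le_div hk₀']; exact hkk
  have hR0 : 0 < R := by linarith
  set δ := R ^ k - 1 with hδ
  have hδD : lam * D ≤ δ := by
    have h1 := one_add_mul_self_le_rpow_one_add (s := R ^ k₀ - 1)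
      (by have : 0 < R ^ k₀ := by positivity
          linarith) hlam1
    have h2 : (1 + (R ^ k₀ - 1)) ^ lam = R ^ k := by
      rw [add_sub_cancel, ← Real.rpow_natCast R k₀, ← Real.rpow_mul hR0.le, hlam,
        mul_div_cancel₀ _ hk₀'.ne', Real.rpow_natCast]
    rw [h2] at h1
    have h3 : lam * D ≤ lam * (R ^ k₀ - 1) := mul_le_mul_of_nonneg_left (by linarith) (by linarith)
    linarith
  have hδ0 : 0 < δ := by
    have : 1 < R ^ k := one_lt_pow₀ hR (by omega)
    linarith
  have hDδ : D ≤ δ := by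
    have : 1 * D ≤ lam * D := mul_le_mul_of_nonneg_right hlam1 hD0
    linarith
  have hh0 : 0 ≤ 1 - cos (k * φ) := by linarith [cos_le_one (k * φ)]
  have hpos : 0 < 2 * δ ^ 3 := by positivity
  have hs : 0 < 1 - 2 * δ ^ 2 := by
    by_contra hs
    push Not at hs
    have := mul_nonpos_of_nonneg_of_nonpos hh0 hs
    linarith
  have hD2 : D ^ 2 ≤ δ ^ 2 := pow_le_pow_left₀ hD0 hDδ 2
  rcases h with h | h
  · linarith
  have h1 : 1 - cos (k * φ) ≤ k ^ 2 * q := by
    refine (one_sub_cos_nat_mul k φ).trans ?_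
    exact mul_le_mul_of_nonneg_left hq (by positivity)
  have h2 : (1 - cos (k * φ)) * (1 - 2 * δ ^ 2) ≤ (k ^ 2 * q) * (1 - 2 * D ^ 2) :=
    mul_le_mul h1 (by linarith) hs.le (by positivity)
  have h3 : (k ^ 2 * q) * (1 - 2 * D ^ 2) = lam ^ 2 * (k₀ ^ 2 * q * (1 - 2 * D ^ 2)) := by
    rw [hlam]; field_simp
  have h4 : lam ^ 2 * (k₀ ^ 2 * q * (1 - 2 * D ^ 2)) < lam ^ 2 * (2 * D ^ 3) :=
    mul_lt_mul_of_pos_left h (by positivity)
  have h5 : lam ^ 2 * (2 * D ^ 3) ≤ 2 * δ ^ 3 := by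
    have h6 : (lam * D) ^ 3 ≤ δ ^ 3 := pow_le_pow_left₀ (by positivity) hδD 3
    have h7 : lam ^ 2 * D ^ 3 ≤ lam ^ 3 * D ^ 3 := by
      apply mul_le_mul_of_nonneg_right _ (by positivity)
      exact pow_le_pow_right₀ hlam1 (by norm_num)
    have h8 : (lam * D) ^ 3 = lam ^ 3 * D ^ 3 := by ring
    rw [h8] at h6
    linarith
  linarith

/-- assumptions on `θ` and the conjugate `α` -/
structure Pair (n : ℕ) (θ : ℝ) (α : ℂ) : Prop where
  hn : 1 ≤ n
  h1 : 1 < θ
  hθ : θ ^ (n + 1) = θ ^ n + 1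
  hα : 1 < ‖α‖
  hr : α ^ (n + 1) = α ^ n + 1
  hlt : ‖α‖ < θ

theorem Pair.shadow {n : ℕ} {θ : ℝ} {α : ℂ} (h : Pair n θ α) {k : ℕ} (hP : IsParry (θ ^ k)) :
    Shadow (θ ^ k) (α ^ k) :=
  shadow_of_parry (d := n + 1) (by have := h.hn; omega) h.h1 (by simpa using h.hθ) h.hα
    (by simpa using h.hr) k hP

theorem Pair.ne {n : ℕ} {θ : ℝ} {α : ℂ} (h : Pair n θ α) {k : ℕ} (hk : 1 ≤ k) :
    α ^ k ≠ ((θ ^ k : ℝ) : ℂ) := by
  intro hcon
  have h1 := h.h1
  have h2 : ‖α ^ k‖ = θ ^ k := by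
    rw [hcon, Complex.norm_real, norm_eq_abs, abs_of_nonneg (by positivity)]
  rw [norm_pow] at h2
  have : ‖α‖ ^ k < θ ^ k := pow_lt_pow_left₀ h.hlt (norm_nonneg _) (by omega)
  linarith

theorem chkG_lt_two {k g t U L : ℕ} {yb : Cb} {θ : ℝ} (h1 : 1 < θ)
    (hU : θ * 4294967296 ≤ U) (hg : 1 ≤ g)
    (h : chkG k g t U L yb = true) : θ ^ k < 2 := by
  unfold chkG at h
  simp only [Bool.and_eq_true] at h
  obtain ⟨hc1, -, -, -⟩ := h
  have c1 : U ^ (k * (g - 1)) * (U ^ k - 4294967296 ^ k) < 4294967296 ^ (k * g) :=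
    Nat.le_of_ble_eq_true hc1
  have hUge : 4294967296 ≤ U := by
    have : (4294967296 : ℝ) ≤ U := by linarith
    exact_mod_cast this
  have hUk : 4294967296 ^ k ≤ U ^ k := Nat.pow_le_pow_left hUge k
  have e : k * g = k * (g - 1) + k := by
    obtain ⟨g', rfl⟩ : ∃ g', g = g' + 1 := ⟨g - 1, by omega⟩
    simp only [Nat.add_sub_cancel]; ring
  have c2 : 4294967296 ^ (k * (g - 1)) * (U ^ k - 4294967296 ^ k)
      < 4294967296 ^ (k * (g - 1)) * 4294967296 ^ k := by
    rw [← pow_add, ← e]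
    refine lt_of_le_of_lt ?_ c1
    exact Nat.mul_le_mul_right _ (Nat.pow_le_pow_left hUge _)
  have c3 : U ^ k - 4294967296 ^ k < 4294967296 ^ k := lt_of_mul_lt_mul_left c2 (Nat.zero_le _)
  have c4 : U ^ k < 2 * 4294967296 ^ k := by omega
  have r : (U : ℝ) ^ k < 2 * 4294967296 ^ k := by exact_mod_cast c4
  have h2 : (θ * 4294967296) ^ k ≤ (U : ℝ) ^ k := pow_le_pow_left₀ (by positivity) hU k
  rw [mul_pow] at h2
  have h3 : (0 : ℝ) < 4294967296 ^ k := by positivity
  exact lt_of_mul_lt_mul_right (lt_of_le_of_lt h2 r) h3.le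

theorem chk_sound {n : ℕ} {θ : ℝ} {α : ℂ} (hp : Pair n θ α) {k m g t U L : ℕ} {βB zB : Cb}
    (hk : 1 ≤ k) (hU : θ * 4294967296 ≤ U) (hL : (L : ℝ) ≤ ‖α‖ ^ 2 * 4294967296)
    (hβ : βB.Mem ((θ ^ k : ℝ) : ℂ)) (hz : zB.Mem (α ^ k))
    (h : chk k m g t U L βB zB = true) : ¬ IsParry (θ ^ k) := by
  intro hP
  have hsh := hp.shadow hP
  have hne := hp.ne hk
  have hz1 : 1 < ‖α ^ k‖ := by rw [norm_pow]; exact one_lt_pow₀ hp.hα (by omega)
  cases g with
  | zero =>
    match m, h with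
    | 0, h => simp [chk] at h
    | 1, h =>
      have h' : chkH t zB (zB.dblI (-1)) = true := h
      have hw := Cb.mem_dblI hz (-1)
      have h1 := chkH_sound hz hw h'
      have h2 := critH hsh hne hz1 0
      have h3 : useq (θ ^ k) (α ^ k) (0 + 1) = 1 := by simp [useq, orb_zero]
      rw [h3] at h2
      have h4 : 2 * (α ^ k - 1) * 1 + 1 = 2 * α ^ k + ((-1 : ℤ) : ℂ) := by push_cast; ring
      rw [h4] at h2
      linarith
    | m' + 2, h =>
      have h' : okB βB (m' + 1) = true ∧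
          chkH t zB (((zB.addI (-1)).mul (uB βB zB (m' + 2))).dblI 1) = true := by
        have h0 : (okB βB (m' + 1) &&
          chkH t zB (((zB.addI (-1)).mul (uB βB zB (m' + 2))).dblI 1)) = true := h
        rwa [Bool.and_eq_true] at h0
      obtain ⟨hx, -⟩ := orbit_sound hβ _ h'.1
      have hu := u_sound (βB := βB) (β := θ ^ k) hz (m' + 2) (fun i hi => hx i (by omega))
      have hz2 := Cb.mem_addI hz (-1)
      have hw := Cb.mem_dblI (Cb.mem_mul hz2 hu) 1
      have h1 := chkH_sound hz hw h'.2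
      have h2 := critH hsh hne hz1 (m' + 1)
      have h4 : 2 * ((α ^ k + ((-1 : ℤ) : ℂ)) * useq (θ ^ k) (α ^ k) (m' + 2)) + ((1 : ℤ) : ℂ)
          = 2 * (α ^ k - 1) * useq (θ ^ k) (α ^ k) (m' + 1 + 1) + 1 := by
        push_cast; ring
      rw [h4] at h1
      linarith
  | succ g' =>
    obtain ⟨y, hy0, hy, C, hC⟩ := hsh
    match m, h with
    | 0, h => simp [chk] at h
    | 1, h =>
      have h' : chkG k (g' + 1) t U L (zB.addI (-1)) = true := h
      have hβ2 := chkG_lt_two hp.h1 hU (by omega) h'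
      have hβ1 : 1 < θ ^ k := one_lt_pow₀ hp.h1 (by omega)
      have hdig0 : dig (θ ^ k) 0 = 1 := by
        rw [dig, orb_zero, mul_one, Int.floor_eq_iff]
        push_cast
        constructor <;> linarith
      have horb1 : orb (θ ^ k) (0 + 1) ≤ θ ^ k - 1 := by
        rw [orb_succ, hdig0, orb_zero]; push_cast; linarith
      have hyb : (zB.addI (-1)).Mem (y (0 + 1)) := by
        have := Cb.mem_addI hz (-1)
        rw [hy, hy0, hdig0]
        convert this using 1
        push_cast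
        ring
      exact chkG_sound hp.h1 hU hL (by omega) hk hp.hα hy hC 0 horb1 hyb h'
    | m' + 2, h =>
      have h0 : ((okB βB (m' + 2) && (Int.decEq (eB βB (m' + 1)) 1).decide) &&
        chkG k (g' + 1) t U L (yB βB zB (m' + 2))) = true := h
      rw [Bool.and_eq_true, Bool.and_eq_true] at h0
      obtain ⟨⟨ha, hb⟩, hc⟩ := h0
      obtain ⟨hx, he⟩ := orbit_sound hβ _ ha
      have hyb := y_sound hz hy0 hy (m' + 2) he
      have hb' : eB βB (m' + 1) = 1 := of_decide_eq_true hb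
      have hdig : dig (θ ^ k) (m' + 1) = 1 := by rw [← he (m' + 1) (by omega)]; exact hb'
      have horb : orb (θ ^ k) (m' + 1 + 1) ≤ θ ^ k - 1 := by
        rw [orb_succ, hdig]
        have h2 := orb_le_one (θ ^ k) (m' + 1)
        have h3 : 0 < θ ^ k := by have := hp.h1; positivity
        push_cast
        nlinarith
      exact chkG_sound hp.h1 hU hL (by omega) hk hp.hα hy hC (m' + 1) horb hyb hc

theorem chkM_sound {n : ℕ} {θ : ℝ} {α : ℂ} (hp : Pair n θ α) {k D L : ℕ} {zB αB : Cb}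
    (hk : 1 ≤ k) (hL : (L : ℝ) ≤ ‖α‖ ^ 2 * 4294967296) (hz : zB.Mem (α ^ k))
    (hαa : (((αB.a.natAbs - αB.r : ℕ)) : ℝ) ≤ α.re * 18446744073709551616)
    (hαb : |α.im| * 18446744073709551616 ≤ αB.b.natAbs + αB.r) (hre : 0 < α.re)
    (h : chkM k D zB αB L = true) (k' : ℕ) (hk' : k ≤ k') : ¬ IsParry (θ ^ k') := by
  intro hP
  have hsh := hp.shadow hP
  have hne := hp.ne (k := k') (by omega)
  have hz1 : 1 < ‖α ^ k'‖ := by rw [norm_pow]; exact one_lt_pow₀ hp.hα (by omega)
  have hpolar : α = (‖α‖ : ℂ) * Complex.exp (Complex.arg α * Complex.I) :=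
    (Complex.norm_mul_exp_arg_mul_I α).symm
  have hcr := critH1 hsh hne hz1 (pow_polar hpolar k')
  rw [norm_pow] at hcr
  unfold chkM at h
  rw [Bool.and_eq_true] at h
  have hD := chkD_sound hz h.1
  rw [norm_pow] at hD
  set R := ‖α‖ with hR
  have hR0 : 0 < R := by linarith [hp.hα]
  -- the angle
  set den : ℝ := ((αB.a.natAbs - αB.r : ℕ) : ℝ) ^ 2 + L * 79228162514264337593543950336 with hden
  set q : ℝ := (αB.b.natAbs + αB.r) ^ 2 / den with hq
  have hRsq : R ^ 2 = α.re ^ 2 + α.im ^ 2 := by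
    rw [hR, ← Complex.normSq_eq_norm_sq, Complex.normSq_apply]; ring
  have hcosα : cos (Complex.arg α) = α.re / R := by
    rw [Complex.cos_arg]
    intro h0
    rw [h0] at hre
    simp at hre
  have hreR : α.re ≤ R := Complex.re_le_norm α
  rcases Nat.eq_zero_or_pos D with hD0 | hD0
  · -- impossible
    subst hD0
    have h2 := h.2
    rw [Bool.or_eq_true] at h2
    rcases h2 with h2 | h2
    · have := Nat.le_of_ble_eq_true h2
      simp at this
    · have h3 := Nat.lt_of_succ_le (Nat.le_of_ble_eq_true h2)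
      have h4 : (4 * 0 ^ 3) * (((αB.a.natAbs - αB.r) ^ 2 + L * 79228162514264337593543950336)
        * 4294967296) = 0 := by simp
      change _ < (4 * 0 ^ 3) * (((αB.a.natAbs - αB.r) ^ 2 + L * 79228162514264337593543950336)
        * 4294967296) at h3
      rw [h4] at h3
      exact absurd h3 (Nat.not_lt_zero _)
  have hDr : (0 : ℝ) < D := by exact_mod_cast hD0
  have hden_le : den ≤ (R ^ 2 + α.re ^ 2) * 18446744073709551616 ^ 2 := by
    rw [hden]
    have h2 : ((αB.a.natAbs - αB.r : ℕ) : ℝ) ^ 2 ≤ (α.re * 18446744073709551616) ^ 2 :=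
      pow_le_pow_left₀ (by positivity) hαa 2
    have h3 : (L : ℝ) * 79228162514264337593543950336
        ≤ R ^ 2 * 4294967296 * 79228162514264337593543950336 :=
      mul_le_mul_of_nonneg_right hL (by norm_num)
    nlinarith
  refine mono_large (D := (D : ℝ) / 65536) (q := q) hp.hα hk hk' (by positivity) hD ?_ ?_ ?_ hcr
  · rw [hq]; positivity
  · -- 1 - cos ≤ q : needs den > 0 unless q trivial
    have h2 : 1 - cos (Complex.arg α) = α.im ^ 2 / (R * (R + α.re)) := by
      rw [hcosα]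
      have h3 : α.im ^ 2 = (R - α.re) * (R + α.re) := by linear_combination -hRsq
      have h4 : R + α.re ≠ 0 := by linarith
      rw [h3]
      field_simp
    by_cases hden0 : den = 0
    · -- then L = 0, contradiction with the test
      exfalso
      have h5 : (L : ℝ) = 0 := by
        rw [hden] at hden0
        have h6 : (0 : ℝ) ≤ ((αB.a.natAbs - αB.r : ℕ) : ℝ) ^ 2 := by positivity
        have h7 : (0 : ℝ) ≤ (L : ℝ) := by positivity
        nlinarith
      have h8 : L = 0 := by exact_mod_cast h5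
      have h9 : (αB.a.natAbs - αB.r) ^ 2 = 0 := by
        have h10 : ((αB.a.natAbs - αB.r : ℕ) : ℝ) ^ 2 = 0 := by
          rw [hden, h5] at hden0
          linarith
        exact_mod_cast h10
      have h2 := h.2
      rw [Bool.or_eq_true] at h2
      rcases h2 with h2 | h2
      · -- D large: δ ≥ 1/√2, conclude directly
        have h11 : 4294967296 ≤ 2 * (D * D) := Nat.le_of_ble_eq_true h2
        have h12 : (4294967296 : ℝ) ≤ 2 * (D * D) := by exact_mod_cast h11
        have h13 : (1 : ℝ) ≤ 2 * ((D : ℝ) / 65536) ^ 2 := by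
          rw [div_pow]
          norm_num
          linarith
        exact mono_large (D := (D : ℝ) / 65536) (q := 2) hp.hα hk hk' (by positivity) hD
          (by norm_num) (by linarith [neg_one_le_cos (Complex.arg α)]) (Or.inl h13) hcr
      · have h3 := Nat.lt_of_succ_le (Nat.le_of_ble_eq_true h2)
        have h4 : (4 * D ^ 3) * (((αB.a.natAbs - αB.r) ^ 2 + L * 79228162514264337593543950336)
          * 4294967296) = 0 := by rw [h8, h9]; simp
        change _ < (4 * D ^ 3) * (((αB.a.natAbs - αB.r) ^ 2 + L * 79228162514264337593543950336)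
          * 4294967296) at h3
        rw [h4] at h3
        exact absurd h3 (Nat.not_lt_zero _)
    have hdenpos : 0 < den := lt_of_le_of_ne (by rw [hden]; positivity) (Ne.symm hden0)
    rw [h2, hq, div_le_div_iff₀ (by positivity) hdenpos]
    have h3 : α.im ^ 2 * 18446744073709551616 ^ 2 ≤ (αB.b.natAbs + αB.r : ℝ) ^ 2 := by
      have h4 := pow_le_pow_left₀ (by positivity) hαb 2
      rw [mul_pow, sq_abs] at h4
      exact h4
    have h4 : R ^ 2 + α.re ^ 2 ≤ R * (R + α.re) := by nlinarith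
    calc α.im ^ 2 * den ≤ α.im ^ 2 * ((R ^ 2 + α.re ^ 2) * 18446744073709551616 ^ 2) :=
          mul_le_mul_of_nonneg_left hden_le (sq_nonneg _)
      _ = (α.im ^ 2 * 18446744073709551616 ^ 2) * (R ^ 2 + α.re ^ 2) := by ring
      _ ≤ (αB.b.natAbs + αB.r : ℝ) ^ 2 * (R ^ 2 + α.re ^ 2) :=
          mul_le_mul_of_nonneg_right h3 (by positivity)
      _ ≤ (αB.b.natAbs + αB.r : ℝ) ^ 2 * (R * (R + α.re)) :=
          mul_le_mul_of_nonneg_left h4 (by positivity)
  · have h2 := h.2
    rw [Bool.or_eq_true] at h2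
    rcases h2 with h2 | h2
    · left
      have h11 : 4294967296 ≤ 2 * (D * D) := Nat.le_of_ble_eq_true h2
      have h12 : (4294967296 : ℝ) ≤ 2 * (D * D) := by exact_mod_cast h11
      rw [div_pow]
      norm_num
      linarith
    · by_cases hbig : 4294967296 ≤ 2 * (D * D)
      · left
        have h12 : (4294967296 : ℝ) ≤ 2 * (D * D) := by exact_mod_cast hbig
        rw [div_pow]
        norm_num
        linarith
      right
      push Not at hbig
      have h3 : (k * k * (2 * (αB.b.natAbs + αB.r) ^ 2)) *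
          ((4294967296 - 2 * (D * D)) * 281474976710656)
          < (4 * D ^ 3) * (((αB.a.natAbs - αB.r) ^ 2 + L * 79228162514264337593543950336)
          * 4294967296) := Nat.le_of_ble_eq_true h2
      have h4 : ((k : ℝ) * k * (2 * (αB.b.natAbs + αB.r) ^ 2)) *
          ((4294967296 - 2 * ((D : ℝ) * D)) * 281474976710656)
          < (4 * (D : ℝ) ^ 3) * (den * 4294967296) := by
        have h5 : (((k * k * (2 * (αB.b.natAbs + αB.r) ^ 2)) *
          ((4294967296 - 2 * (D * D)) * 281474976710656) : ℕ) : ℝ)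
          < (((4 * D ^ 3) * (((αB.a.natAbs - αB.r) ^ 2 + L * 79228162514264337593543950336)
          * 4294967296) : ℕ) : ℝ) := by exact_mod_cast h3
        rw [hden]
        push_cast [Nat.cast_sub hbig.le] at h5
        exact h5
      have hdenpos : 0 < den := by
        by_contra hcon
        push Not at hcon
        have h6 : (4 * (D : ℝ) ^ 3) * (den * 4294967296) ≤ 0 :=
          mul_nonpos_of_nonneg_of_nonpos (by positivity) (by linarith)
        have h7 : (0 : ℝ) ≤ ((k : ℝ) * k * (2 * (αB.b.natAbs + αB.r) ^ 2)) *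
          ((4294967296 - 2 * ((D : ℝ) * D)) * 281474976710656) := by
          have : (2 * ((D : ℝ) * D)) < 4294967296 := by exact_mod_cast hbig
          apply mul_nonneg (by positivity)
          apply mul_nonneg _ (by norm_num)
          linarith
        linarith
      have e1 : (k : ℝ) ^ 2 * q * (1 - 2 * ((D : ℝ) / 65536) ^ 2)
          = ((k : ℝ) * k * (2 * (αB.b.natAbs + αB.r) ^ 2)) *
          ((4294967296 - 2 * ((D : ℝ) * D)) * 281474976710656)
            / (2 * den * 4294967296 * 281474976710656) := by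
        rw [hq]
        field_simp
        ring
      have e2 : 2 * ((D : ℝ) / 65536) ^ 3
          = (4 * (D : ℝ) ^ 3) * (den * 4294967296) / (2 * den * 4294967296 * 281474976710656) := by
        field_simp
        ring
      rw [e1, e2]
      exact div_lt_div_of_pos_right h4 (by positivity)

end PowTri
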