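import Mathlib
import Pool.Agent.W_MP_69fa08_nt.Sound2

/-! Soundness of the enclosure of the roots and of the loop. -/

namespace PowTri

open Real Polynomial

theorem loop_sound {n : ℕ} {θ : ℝ} {α : ℂ} (hp : Pair n θ α) {D U L : ℕ} {θB αB : Cb}
    (hU : θ * 4294967296 ≤ U) (hL : (L : ℝ) ≤ ‖α‖ ^ 2 * 4294967296)
    (hθB : θB.Mem (θ : ℂ)) (hαB : αB.Mem α)
    (hαa : (((αB.a.natAbs - αB.r : ℕ)) : ℝ) ≤ α.re * 18446744073709551616)
    (hαb : |α.im| * 18446744073709551616 ≤ αB.b.natAbs + αB.r) (hre : 0 < α.re) :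
    ∀ (cnt k codes : ℕ) (β z : Cb), 1 ≤ k → β.Mem ((θ ^ k : ℝ) : ℂ) → z.Mem (α ^ k) →
      loop U L θB αB D cnt k codes β z = true → ∀ k', k ≤ k' → ¬ IsParry (θ ^ k') := by
  intro cnt
  induction cnt with
  | zero =>
    intro k codes β z hk hβ hz h k' hk'
    exact chkM_sound hp hk hL hz hαa hαb hre h k' hk'
  | succ cnt ih =>
    intro k codes β z hk hβ hz h k' hk'
    have h0 : (chk k (codes % 64) (codes / 64 % 1024) (codes / 65536 % 1048576) U L β z &&
      loop U L θB αB D cnt (k + 1) (codes / 68719476736) (β.mul θB) (z.mul αB)) = true := h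
    rw [Bool.and_eq_true] at h0
    rcases Nat.lt_or_ge k k' with h1 | h1
    · refine ih (k + 1) _ (β.mul θB) (z.mul αB) (by omega) ?_ ?_ h0.2 k' h1
      · have := Cb.mem_mul hβ hθB
        convert this using 1
        push_cast
        ring
      · rw [pow_succ]
        exact Cb.mem_mul hz hαB
    · have : k' = k := by omega
      subst this
      exact chk_sound hp hk hU hL hβ hz h0.1

/-- Gaussian integers as complex numbers -/
noncomputable def gC (p : ℤ × ℤ) : ℂ := ⟨(p.1 : ℝ), (p.2 : ℝ)⟩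

theorem gC_mul (p q : ℤ × ℤ) :
    gC (Int.sub (Int.mul p.1 q.1) (Int.mul p.2 q.2), Int.add (Int.mul p.1 q.2) (Int.mul p.2 q.1))
      = gC p * gC q := by
  apply Complex.ext
  · rw [Complex.mul_re]
    change ((p.1 * q.1 - p.2 * q.2 : ℤ) : ℝ) = _
    simp only [gC]
    push_cast
    ring
  · rw [Complex.mul_im]
    change ((p.1 * q.2 + p.2 * q.1 : ℤ) : ℝ) = _
    simp only [gC]
    push_cast
    ring

theorem gC_sq (p : ℤ × ℤ) :
    gC (Int.sub (Int.mul p.1 p.1) (Int.mul p.2 p.2), Int.mul 2 (Int.mul p.1 p.2))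
      = gC p * gC p := by
  rw [← gC_mul]
  congr 1
  apply Prod.ext
  · rfl
  · change 2 * (p.1 * p.2) = p.1 * p.2 + p.2 * p.1
    ring

theorem gpow_sound (a b : ℤ) : ∀ f n : ℕ, n < 2 ^ f → gC (gpow a b f n) = gC (a, b) ^ n := by
  intro f
  induction f with
  | zero =>
    intro n hn
    have : n = 0 := by simpa using hn
    subst this
    rw [pow_zero]
    apply Complex.ext
    · change ((1 : ℤ) : ℝ) = _; simp
    · change ((0 : ℤ) : ℝ) = _; simp
  | succ f ih =>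
    intro n hn
    cases n with
    | zero =>
      rw [pow_zero]
      apply Complex.ext
      · change ((1 : ℤ) : ℝ) = _; simp
      · change ((0 : ℤ) : ℝ) = _; simp
    | succ n' =>
      have hlt : (n' + 1) / 2 < 2 ^ f := by
        rw [pow_succ] at hn
        omega
      have hih := ih _ hlt
      have hunf : gpow a b (f + 1) (n' + 1) =
          match (n' + 1) % 2 with
          | 0 => (Int.sub (Int.mul (gpow a b f ((n' + 1) / 2)).1 (gpow a b f ((n' + 1) / 2)).1)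
              (Int.mul (gpow a b f ((n' + 1) / 2)).2 (gpow a b f ((n' + 1) / 2)).2),
              Int.mul 2 (Int.mul (gpow a b f ((n' + 1) / 2)).1 (gpow a b f ((n' + 1) / 2)).2))
          | _ + 1 =>
            (Int.sub (Int.mul (Int.sub (Int.mul (gpow a b f ((n' + 1) / 2)).1
                (gpow a b f ((n' + 1) / 2)).1)
              (Int.mul (gpow a b f ((n' + 1) / 2)).2 (gpow a b f ((n' + 1) / 2)).2)) a)
              (Int.mul (Int.mul 2 (Int.mul (gpow a b f ((n' + 1) / 2)).1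
                (gpow a b f ((n' + 1) / 2)).2)) b),
             Int.add (Int.mul (Int.sub (Int.mul (gpow a b f ((n' + 1) / 2)).1
                (gpow a b f ((n' + 1) / 2)).1)
              (Int.mul (gpow a b f ((n' + 1) / 2)).2 (gpow a b f ((n' + 1) / 2)).2)) b)
              (Int.mul (Int.mul 2 (Int.mul (gpow a b f ((n' + 1) / 2)).1
                (gpow a b f ((n' + 1) / 2)).2)) a)) := rfl
      set p := gpow a b f ((n' + 1) / 2) with hp
      rw [hunf]
      rcases Nat.mod_two_eq_zero_or_one (n' + 1) with h2 | h2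
      · rw [h2]
        change gC (Int.sub (Int.mul p.1 p.1) (Int.mul p.2 p.2), Int.mul 2 (Int.mul p.1 p.2)) = _
        rw [gC_sq, hih, ← pow_add]
        congr 1
        omega
      · rw [h2]
        have := gC_mul (Int.sub (Int.mul p.1 p.1) (Int.mul p.2 p.2),
          Int.mul 2 (Int.mul p.1 p.2)) (a, b)
        refine this.trans ?_
        rw [gC_sq, hih, ← pow_add, ← pow_succ]
        congr 1
        omega

theorem gC_norm_sq (p : ℤ × ℤ) :
    ‖gC p‖ ^ 2 = ((p.1.natAbs * p.1.natAbs + p.2.natAbs * p.2.natAbs : ℕ) : ℝ) := by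
  have h := Cb.norm_c_sq ⟨p.1, p.2, 0⟩
  exact h

theorem re_natCast_mul (m : ℕ) (z : ℂ) : ((m : ℂ) * z).re = m * z.re := by
  have : (m : ℂ) = ((m : ℝ) : ℂ) := by simp
  rw [this, Complex.re_ofReal_mul]

theorem im_natCast_mul (m : ℕ) (z : ℂ) : ((m : ℂ) * z).im = m * z.im := by
  have : (m : ℂ) = ((m : ℝ) : ℂ) := by simp
  rw [this, Complex.im_ofReal_mul]

theorem re_natCast_pow (S m : ℕ) : (((S : ℂ) ^ m)).re = (S : ℝ) ^ m := by
  have : (S : ℂ) ^ m = (((S : ℝ) ^ m : ℝ) : ℂ) := by push_cast; ring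
  rw [this, Complex.ofReal_re]

theorem im_natCast_pow (S m : ℕ) : (((S : ℂ) ^ m)).im = 0 := by
  have : (S : ℂ) ^ m = (((S : ℝ) ^ m : ℝ) : ℂ) := by push_cast; ring
  rw [this, Complex.ofReal_im]

theorem gC_re (p : ℤ × ℤ) : (gC p).re = (p.1 : ℝ) := rfl

theorem gC_im (p : ℤ × ℤ) : (gC p).im = (p.2 : ℝ) := rfl

theorem chkAlpha_sound {S n a b : ℕ} (hS0 : 0 < S) (hn : 1 ≤ n) (hn2 : n < 4096)
    (h : chkAlpha S n a b = true) :
    ∃ α : ℂ, α ^ (n + 1) = α ^ n + 1 ∧ ‖α * S - gC ((a : ℤ), (b : ℤ))‖ ≤ n + 1 := by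
  set G := gC ((a : ℤ), (b : ℤ)) with hG
  obtain ⟨pq, hpq⟩ : ∃ pq, gpow a b 12 (n - 1) = pq := ⟨_, rfl⟩
  obtain ⟨p1, hp1⟩ : ∃ p1 : ℤ × ℤ, (Int.sub (Int.mul pq.1 a) (Int.mul pq.2 b),
    Int.add (Int.mul pq.1 b) (Int.mul pq.2 a)) = p1 := ⟨_, rfl⟩
  obtain ⟨XY, hXY⟩ : ∃ XY : ℤ × ℤ, (Int.sub (Int.sub (Int.mul p1.1 (Int.sub a S)) (Int.mul p1.2 b))
          (Int.ofNat (Nat.pow S (Nat.add n 1))),
        Int.add (Int.mul p1.1 b) (Int.mul p1.2 (Int.sub a S))) = XY := ⟨_, rfl⟩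
  obtain ⟨ce, hce⟩ : ∃ ce : ℤ × ℤ,
      (Int.sub (Int.mul (Int.ofNat (Nat.add n 1)) a) (Int.mul (Int.ofNat n) S),
          Int.mul (Int.ofNat (Nat.add n 1)) b) = ce := ⟨_, rfl⟩
  obtain ⟨VW, hVW⟩ : ∃ VW : ℤ × ℤ, (Int.sub (Int.mul pq.1 ce.1) (Int.mul pq.2 ce.2),
    Int.add (Int.mul pq.1 ce.2) (Int.mul pq.2 ce.1)) = VW := ⟨_, rfl⟩
  have h' : (Nat.ble (Nat.add (Nat.mul XY.1.natAbs XY.1.natAbs) (Nat.mul XY.2.natAbs XY.2.natAbs))
              (Nat.add (Nat.mul VW.1.natAbs VW.1.natAbs) (Nat.mul VW.2.natAbs VW.2.natAbs)) &&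
            Nat.blt 0 (Nat.add (Nat.mul VW.1.natAbs VW.1.natAbs)
              (Nat.mul VW.2.natAbs VW.2.natAbs))) = true := by
    rw [← hVW, ← hXY, ← hce, ← hp1, ← hpq]
    exact h
  rw [Bool.and_eq_true] at h'
  have hle : XY.1.natAbs * XY.1.natAbs + XY.2.natAbs * XY.2.natAbs
      ≤ VW.1.natAbs * VW.1.natAbs + VW.2.natAbs * VW.2.natAbs := Nat.le_of_ble_eq_true h'.1
  have hpos : 0 < VW.1.natAbs * VW.1.natAbs + VW.2.natAbs * VW.2.natAbs :=
    Nat.le_of_ble_eq_true h'.2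
  have hnorm : ‖gC XY‖ ≤ ‖gC VW‖ := by
    apply le_of_sq_le_sq _ (norm_nonneg _)
    rw [gC_norm_sq, gC_norm_sq]
    exact_mod_cast hle
  have hVpos : 0 < ‖gC VW‖ := by
    have h2 : 0 < ‖gC VW‖ ^ 2 := by
      rw [gC_norm_sq]; exact_mod_cast hpos
    by_contra hcon
    push Not at hcon
    have h3 : ‖gC VW‖ = 0 := le_antisymm hcon (norm_nonneg _)
    rw [h3] at h2
    norm_num at h2
  have gpq : gC pq = G ^ (n - 1) := by
    rw [← hpq]; exact gpow_sound a b 12 (n - 1) (by norm_num; omega)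
  have gp1 : gC p1 = G ^ n := by
    have h1 := gC_mul pq ((a : ℤ), (b : ℤ))
    have h2 : gC p1 = gC pq * G := by rw [← hp1]; exact h1
    rw [h2, gpq, ← pow_succ]
    congr 1
    omega
  have gGS : gC (Int.sub a S, (b : ℤ)) = G - S := by
    apply Complex.ext
    · rw [Complex.sub_re, Complex.natCast_re, hG, gC_re, gC_re]
      change (((a : ℤ) - (S : ℤ) : ℤ) : ℝ) = _
      push_cast; ring
    · rw [Complex.sub_im, Complex.natCast_im, hG, gC_im, gC_im, sub_zero]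
  have gXY : gC XY = G ^ n * (G - S) - (S : ℂ) ^ (n + 1) := by
    have h1 := gC_mul p1 (Int.sub a S, (b : ℤ))
    have h2 : gC XY = gC (Int.sub (Int.mul p1.1 (Int.sub a S)) (Int.mul p1.2 b),
        Int.add (Int.mul p1.1 b) (Int.mul p1.2 (Int.sub a S))) - (S : ℂ) ^ (n + 1) := by
      rw [← hXY]
      apply Complex.ext
      · rw [Complex.sub_re, re_natCast_pow, gC_re, gC_re]
        change (((Int.sub (Int.mul p1.1 (Int.sub a S)) (Int.mul p1.2 b))
          - ((S ^ (n + 1) : ℕ) : ℤ) : ℤ) : ℝ) = _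
        push_cast
        rfl
      · rw [Complex.sub_im, im_natCast_pow, gC_im, gC_im, sub_zero]
    rw [h2, h1, gp1, gGS]
  have gce : gC ce = ((n + 1 : ℕ) : ℂ) * G - (n : ℂ) * S := by
    rw [← hce]
    apply Complex.ext
    · rw [Complex.sub_re, re_natCast_mul, re_natCast_mul, Complex.natCast_re, gC_re, hG, gC_re]
      change ((((n + 1 : ℕ) : ℤ) * (a : ℤ) - (n : ℤ) * (S : ℤ) : ℤ) : ℝ) = _
      push_cast
      ring
    · rw [Complex.sub_im, im_natCast_mul, im_natCast_mul, Complex.natCast_im, gC_im, hG, gC_im]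
      change ((((n + 1 : ℕ) : ℤ) * (b : ℤ) : ℤ) : ℝ) = _
      push_cast
      ring
  have gVW : gC VW = G ^ (n - 1) * (((n + 1 : ℕ) : ℂ) * G - (n : ℂ) * S) := by
    have h1 := gC_mul pq ce
    have h2 : gC VW = gC pq * gC ce := by rw [← hVW]; exact h1
    rw [h2, gpq, gce]
  -- the polynomial
  have hS1 : (S : ℂ) ≠ 0 := by exact_mod_cast hS0.ne'
  have hSn : ‖(S : ℂ)‖ = S := Complex.norm_natCast S
  have hSr : (0 : ℝ) < S := by exact_mod_cast hS0
  obtain ⟨p, hpoly⟩ : ∃ p : ℂ[X], p = X ^ (n + 1) - X ^ n - 1 := ⟨_, rfl⟩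
  have hdeg : p.natDegree = n + 1 := by
    rw [hpoly]
    compute_degree!
  obtain ⟨α, hα, hclose⟩ := exists_near_root (p := p) (by rw [hdeg]; omega) (G / S)
  have hαr : α ^ (n + 1) = α ^ n + 1 := by
    rw [hpoly] at hα
    simp only [eval_sub, eval_pow, eval_X, eval_one] at hα
    linear_combination hα
  refine ⟨α, hαr, ?_⟩
  have hder : p.derivative.eval (G / S)
      = ((n + 1 : ℕ) : ℂ) * (G / S) ^ n - n * (G / S) ^ (n - 1) := by
    rw [hpoly]
    simp [derivative_X_pow]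
  have hev : p.eval (G / S) = (G / S) ^ (n + 1) - (G / S) ^ n - 1 := by
    rw [hpoly]
    simp
  have hXYev : gC XY = (S : ℂ) ^ (n + 1) * p.eval (G / S) := by
    rw [hev, gXY, div_pow, div_pow]
    field_simp
    ring
  have hVWev : gC VW = (S : ℂ) ^ n * p.derivative.eval (G / S) := by
    rw [hder, gVW, div_pow, div_pow]
    obtain ⟨m, rfl⟩ : ∃ m, n = m + 1 := ⟨n - 1, by omega⟩
    simp only [Nat.add_sub_cancel]
    push_cast
    field_simp
    ring
  rw [hdeg] at hclose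
  have n1 : ‖gC XY‖ = (S : ℝ) ^ (n + 1) * ‖p.eval (G / S)‖ := by
    rw [hXYev, norm_mul, norm_pow, hSn]
  have n2 : ‖gC VW‖ = (S : ℝ) ^ n * ‖p.derivative.eval (G / S)‖ := by
    rw [hVWev, norm_mul, norm_pow, hSn]
  have e3 : ‖α * S - G‖ = ‖G / S - α‖ * S := by
    have e4 : ‖α * S - G‖ = ‖(α - G / S) * S‖ := by
      congr 1
      field_simp
    rw [e4, norm_mul, hSn, norm_sub_rev]
  rw [e3]
  have h5 : ‖G / S - α‖ * S * ‖gC VW‖ ≤ (n + 1) * ‖gC VW‖ := by
    calc ‖G / S - α‖ * S * ‖gC VW‖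
        = (S : ℝ) ^ (n + 1) * (‖G / S - α‖ * ‖p.derivative.eval (G / S)‖) := by rw [n2]; ring
      _ ≤ (S : ℝ) ^ (n + 1) * (((n + 1 : ℕ) : ℝ) * ‖p.eval (G / S)‖) :=
          mul_le_mul_of_nonneg_left hclose (by positivity)
      _ = (n + 1) * ‖gC XY‖ := by rw [n1]; push_cast; ring
      _ ≤ (n + 1) * ‖gC VW‖ := mul_le_mul_of_nonneg_left hnorm (by positivity)
  exact le_of_mul_le_mul_right h5 hVpos

end PowTri
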