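import Mathlib
import Pool.Agent.W_MP_69fa08_nt.Sound3

/-! Soundness of the complete check for one degree. -/

namespace PowTri

open Real

theorem chkTheta_sound {S n T : ℕ} (hS0 : 0 < S) (h : chkTheta S n T = true) {θ : ℝ}
    (h1 : 1 < θ) (hθ : θ ^ (n + 1) = θ ^ n + 1) : (T : ℝ) < θ * S ∧ θ * S < T + 1 := by
  unfold chkTheta at h
  simp only [Bool.and_eq_true] at h
  obtain ⟨h2, h3, h4⟩ := h
  have c1 : S < T := Nat.le_of_ble_eq_true h2
  have c2 : T ^ n * (T - S) < S ^ (n + 1) := Nat.le_of_ble_eq_true h3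
  have c3 : S ^ (n + 1) < (T + 1) ^ n * (T + 1 - S) := Nat.le_of_ble_eq_true h4
  have hSr : (0 : ℝ) < S := by exact_mod_cast hS0
  have r2 : (T : ℝ) ^ n * ((T : ℝ) - S) < (S : ℝ) ^ (n + 1) := by
    have : (((T ^ n * (T - S) : ℕ)) : ℝ) < ((S ^ (n + 1) : ℕ) : ℝ) := by exact_mod_cast c2
    push_cast [Nat.cast_sub c1.le] at this
    exact this
  have r3 : (S : ℝ) ^ (n + 1) < ((T : ℝ) + 1) ^ n * ((T : ℝ) + 1 - S) := by
    have : ((S ^ (n + 1) : ℕ) : ℝ) < ((((T + 1) ^ n * (T + 1 - S) : ℕ)) : ℝ) := by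
      exact_mod_cast c3
    push_cast [Nat.cast_sub (show S ≤ T + 1 by omega)] at this
    exact this
  have hb := base_root hθ
  have hbS : (θ * S) ^ n * (θ * S - S) = (S : ℝ) ^ (n + 1) := by
    have : (θ * S) ^ n * (θ * S - S) = (θ ^ n * (θ - 1)) * (S : ℝ) ^ (n + 1) := by
      rw [mul_pow]; ring
    rw [this, hb, one_mul]
  have hTS : (S : ℝ) < T := by exact_mod_cast c1
  constructor
  · by_contra hcon
    push Not at hcon
    have h5 : (θ * S) ^ n * (θ * S - S) ≤ (T : ℝ) ^ n * ((T : ℝ) - S) := by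
      apply mul_le_mul
      · exact pow_le_pow_left₀ (by positivity) hcon n
      · linarith
      · nlinarith
      · positivity
    linarith
  · by_contra hcon
    push Not at hcon
    have h5 : ((T : ℝ) + 1) ^ n * ((T : ℝ) + 1 - S) ≤ (θ * S) ^ n * (θ * S - S) := by
      apply mul_le_mul
      · exact pow_le_pow_left₀ (by positivity) hcon n
      · linarith
      · linarith
      · positivity
    linarith

theorem chkAll_sound {n T a b D cnt codes : ℕ} (hn : 1 ≤ n) (hn2 : n < 4096)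
    (h : chkAll n T a b D cnt codes = true) {θ : ℝ} (h1 : 1 < θ)
    (hθ : θ ^ (n + 1) = θ ^ n + 1) (k : ℕ) (hk : 2 ≤ k) : ¬ IsParry (θ ^ k) := by
  unfold chkAll at h
  obtain ⟨L, hLdef⟩ : ∃ L, ((a - (n + 1)) ^ 2 + (b - (n + 1)) ^ 2)
    / 79228162514264337593543950336 = L := ⟨_, rfl⟩
  obtain ⟨U, hUdef⟩ : ∃ U, T / 4294967296 + 1 = U := ⟨_, rfl⟩
  rw [hLdef, hUdef] at h
  simp only [Bool.and_eq_true] at h
  obtain ⟨hT, hA, ha, hb, hLb, hloop⟩ := h
  have ha' : n + 1 < a := Nat.le_of_ble_eq_true ha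
  have hb' : n + 1 < b := Nat.le_of_ble_eq_true hb
  have hLb' : 4294967296 < L := Nat.le_of_ble_eq_true hLb
  obtain ⟨ht1, ht2⟩ := chkTheta_sound (by norm_num) hT h1 hθ
  obtain ⟨α, hr, hα⟩ := chkAlpha_sound (by norm_num) hn hn2 hA
  have hcast : ((18446744073709551616 : ℕ) : ℝ) = 18446744073709551616 := by norm_num
  have hcastC : ((18446744073709551616 : ℕ) : ℂ) = 18446744073709551616 := by norm_num
  rw [hcast] at ht1 ht2
  rw [hcastC] at hα
  have hαB : (Cb.mk a b (n + 1)).Mem α := by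
    unfold Cb.Mem
    have hr' : (((Cb.mk a b (n + 1)).r : ℕ) : ℝ) = n + 1 := by
      change (((n + 1 : ℕ)) : ℝ) = _; push_cast; ring
    rw [hr']
    exact hα
  have hθB : (Cb.mk T 0 1).Mem (θ : ℂ) := by
    unfold Cb.Mem
    have e1 : (θ : ℂ) * 18446744073709551616 - (Cb.mk T 0 1).c
        = ((θ * 18446744073709551616 - T : ℝ) : ℂ) := by
      apply Complex.ext
      · rw [Complex.sub_re, Complex.ofReal_re]
        simp [Cb.c]
      · rw [Complex.sub_im, Complex.ofReal_im]
        simp [Cb.c]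
    rw [e1, Complex.norm_real, norm_eq_abs, abs_of_pos (by linarith)]
    change _ ≤ ((1 : ℕ) : ℝ)
    push_cast
    linarith
  -- real and imaginary parts
  have hre0 : |α.re * 18446744073709551616 - a| ≤ n + 1 := by
    refine le_trans ?_ hα
    have := Complex.abs_re_le_norm (α * 18446744073709551616 - gC ((a : ℤ), (b : ℤ)))
    have e : (α * 18446744073709551616 - gC ((a : ℤ), (b : ℤ))).re
        = α.re * 18446744073709551616 - a := by
      simp [gC]
    rwa [e] at this
  have him0 : |α.im * 18446744073709551616 - b| ≤ n + 1 := by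
    refine le_trans ?_ hα
    have := Complex.abs_im_le_norm (α * 18446744073709551616 - gC ((a : ℤ), (b : ℤ)))
    have e : (α * 18446744073709551616 - gC ((a : ℤ), (b : ℤ))).im
        = α.im * 18446744073709551616 - b := by
      simp [gC]
    rwa [e] at this
  rw [abs_le] at hre0 him0
  have har : ((a - (n + 1) : ℕ) : ℝ) = (a : ℝ) - (n + 1) := by
    rw [Nat.cast_sub ha'.le]; push_cast; ring
  have hbr : ((b - (n + 1) : ℕ) : ℝ) = (b : ℝ) - (n + 1) := by
    rw [Nat.cast_sub hb'.le]; push_cast; ring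
  have har0 : (0 : ℝ) < (a : ℝ) - (n + 1) := by
    have : ((n + 1 : ℕ) : ℝ) < a := by exact_mod_cast ha'
    push_cast at this
    linarith
  have hbr0 : (0 : ℝ) < (b : ℝ) - (n + 1) := by
    have : ((n + 1 : ℕ) : ℝ) < b := by exact_mod_cast hb'
    push_cast at this
    linarith
  have hre1 : (a : ℝ) - (n + 1) ≤ α.re * 18446744073709551616 := by linarith [hre0.1]
  have him1 : (b : ℝ) - (n + 1) ≤ α.im * 18446744073709551616 := by linarith [him0.1]
  have hrepos : 0 < α.re := by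
    by_contra hcon
    push Not at hcon
    have : α.re * 18446744073709551616 ≤ 0 := mul_nonpos_of_nonpos_of_nonneg hcon (by norm_num)
    linarith
  have himpos : 0 < α.im := by
    by_contra hcon
    push Not at hcon
    have : α.im * 18446744073709551616 ≤ 0 := mul_nonpos_of_nonpos_of_nonneg hcon (by norm_num)
    linarith
  have hnsq : ‖α‖ ^ 2 = α.re ^ 2 + α.im ^ 2 := by
    rw [← Complex.normSq_eq_norm_sq, Complex.normSq_apply]; ring
  have hL : (L : ℝ) ≤ ‖α‖ ^ 2 * 4294967296 := by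
    have h2 : L * 79228162514264337593543950336 ≤ (a - (n + 1)) ^ 2 + (b - (n + 1)) ^ 2 := by
      rw [← hLdef]; exact Nat.div_mul_le_self _ _
    have h3 : (L : ℝ) * 79228162514264337593543950336
        ≤ ((a - (n + 1) : ℕ) : ℝ) ^ 2 + ((b - (n + 1) : ℕ) : ℝ) ^ 2 := by exact_mod_cast h2
    rw [har, hbr] at h3
    have h4 : ((a : ℝ) - (n + 1)) ^ 2 ≤ (α.re * 18446744073709551616) ^ 2 :=
      pow_le_pow_left₀ har0.le hre1 2
    have h5 : ((b : ℝ) - (n + 1)) ^ 2 ≤ (α.im * 18446744073709551616) ^ 2 :=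
      pow_le_pow_left₀ hbr0.le him1 2
    rw [hnsq]
    nlinarith
  have hα1 : 1 < ‖α‖ := by
    have h2 : (4294967296 : ℝ) < L := by exact_mod_cast hLb'
    have h3 : 1 < ‖α‖ ^ 2 := by linarith
    by_contra hcon
    push Not at hcon
    have := pow_le_one₀ (n := 2) (norm_nonneg α) hcon
    linarith
  have hU : θ * 4294967296 ≤ U := by
    have h2 : T < (T / 4294967296 + 1) * 4294967296 := by
      have := Nat.lt_div_mul_add (a := T) (b := 4294967296) (by norm_num)
      linarith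
    rw [hUdef] at h2
    have h3 : (T : ℝ) + 1 ≤ U * 4294967296 := by exact_mod_cast h2
    have h4 : θ * 18446744073709551616 < U * 4294967296 := by linarith
    have h5 : (18446744073709551616 : ℝ) = 4294967296 * 4294967296 := by norm_num
    rw [h5] at h4
    nlinarith
  have hpolar : α = (‖α‖ : ℂ) * Complex.exp (Complex.arg α * Complex.I) :=
    (Complex.norm_mul_exp_arg_mul_I α).symm
  have hcos : cos (Complex.arg α) < 1 := by
    rw [Complex.cos_arg (by intro h0; rw [h0] at hrepos; simp at hrepos),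
      div_lt_one (by linarith)]
    have h2 : α.re ^ 2 < ‖α‖ ^ 2 := by rw [hnsq]; nlinarith [sq_nonneg α.im]
    exact lt_of_pow_lt_pow_left₀ 2 (norm_nonneg _) h2
  have hlt := norm_lt_theta h1 hθ hα1 hr hpolar hcos
  have hp : Pair n θ α := ⟨hn, h1, hθ, hα1, hr, hlt⟩
  have hz2 := Cb.mem_mul hαB hαB
  have hβ2 := Cb.mem_mul hθB hθB
  refine loop_sound hp hU hL hθB hαB ?_ ?_ hrepos cnt 2 codes _ _ (by norm_num) ?_ ?_ hloop k hk
  · change ((a - (n + 1) : ℕ) : ℝ) ≤ _
    rw [har]; exact hre1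
  · rw [abs_of_pos himpos]
    change _ ≤ ((b : ℕ) : ℝ) + ((n + 1 : ℕ) : ℝ)
    push_cast
    linarith [him0.2]
  · convert hβ2 using 1
    push_cast
    ring
  · rw [sq]; exact hz2

end PowTri
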