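import Mathlib
import Pool.Agent.W_MP_69fa08_nt.Sound4

/-! Tables of certificates for consecutive degrees. -/

namespace PowTri

theorem chkRows_sound : ∀ (m n : ℕ) (rs : List ℕ), rs.length = 6 * m → chkRows n rs = true →
    ∀ i, i < m → ∃ T a b D cnt codes, chkAll (n + i) T a b D cnt codes = true := by
  intro m
  induction m with
  | zero => intro n rs _ _ i hi; omega
  | succ m ih =>
    intro n rs hlen h i hi
    match rs, hlen, h with
    | T :: a :: b :: D :: cnt :: codes :: rs', hlen, h =>
      have h' : (chkAll n T a b D cnt codes && chkRows (n + 1) rs') = true := h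
      rw [Bool.and_eq_true] at h'
      have hlen' : rs'.length = 6 * m := by
        simp only [List.length_cons] at hlen
        omega
      cases i with
      | zero => exact ⟨T, a, b, D, cnt, codes, h'.1⟩
      | succ i =>
        obtain ⟨T', a', b', D', cnt', codes', h3⟩ := ih (n + 1) rs' hlen' h'.2 i (by omega)
        refine ⟨T', a', b', D', cnt', codes', ?_⟩
        have e : n + (i + 1) = n + 1 + i := by omega
        rw [e]
        exact h3

/-- all exponents for the degrees `n + 1`, `lo ≤ n < lo + m` -/
theorem rows_sound {m lo : ℕ} {rs : List ℕ} (hlo : 1 ≤ lo) (hhi : lo + m ≤ 4096)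
    (hlen : rs.length = 6 * m) (h : chkRows lo rs = true) {n : ℕ} (h1 : lo ≤ n) (h2 : n < lo + m)
    {θ : ℝ} (hθ1 : 1 < θ) (hθ : θ ^ (n + 1) = θ ^ n + 1) (k : ℕ) (hk : 2 ≤ k) :
    ¬ IsParry (θ ^ k) := by
  obtain ⟨T, a, b, D, cnt, codes, h3⟩ := chkRows_sound m lo rs hlen h (n - lo) (by omega)
  have e : lo + (n - lo) = n := by omega
  rw [e] at h3
  exact chkAll_sound (by omega) (by omega) h3 hθ1 hθ k hk

end PowTri
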