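import Mathlib
import Pool.Agent.W_MP_69fa08_nt.Rows
import Pool.Agent.W_MP_69fa08_nt.CaseG
import Pool.Agent.W_MP_69fa08_nt.CaseH
import Pool.Agent.W_MP_69fa08_nt.DataA
import Pool.Agent.W_MP_69fa08_nt.DataB
import Pool.Agent.W_MP_69fa08_nt.DataC
import Pool.Agent.W_MP_69fa08_nt.DataD
import Pool.Agent.W_MP_69fa08_nt.DataE
import Pool.Agent.W_MP_69fa08_nt.DataF
import Pool.Agent.W_MP_69fa08_nt.DataG
import Pool.Agent.W_MP_69fa08_nt.DataH
import Pool.Agent.W_MP_69fa08_nt.DataI
import Pool.Agent.W_MP_69fa08_nt.DataJ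

/-! The main theorem. -/

namespace PowTri

open Real

theorem not_parry {n : ℕ} (hn : 5 ≤ n) {θ : ℝ} (h1 : 1 < θ) (hθ : θ ^ (n + 1) = θ ^ n + 1)
    {k : ℕ} (hk : 2 ≤ k) : ¬ IsParry (θ ^ k) := by
  rcases Nat.lt_or_ge n 1499 with h | h
  · rcases Nat.lt_or_ge n 155 with h' | h'
    · exact rows_sound (lo := 5) (m := 150) (by norm_num) (by norm_num) rowsA_len rowsA_ok
        (by omega) (by omega) h1 hθ k hk
    rcases Nat.lt_or_ge n 305 with h' | h'
    · exact rows_sound (lo := 155) (m := 150) (by norm_num) (by norm_num) rowsB_len rowsB_ok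
        (by omega) (by omega) h1 hθ k hk
    rcases Nat.lt_or_ge n 455 with h' | h'
    · exact rows_sound (lo := 305) (m := 150) (by norm_num) (by norm_num) rowsC_len rowsC_ok
        (by omega) (by omega) h1 hθ k hk
    rcases Nat.lt_or_ge n 605 with h' | h'
    · exact rows_sound (lo := 455) (m := 150) (by norm_num) (by norm_num) rowsD_len rowsD_ok
        (by omega) (by omega) h1 hθ k hk
    rcases Nat.lt_or_ge n 755 with h' | h'
    · exact rows_sound (lo := 605) (m := 150) (by norm_num) (by norm_num) rowsE_len rowsE_ok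
        (by omega) (by omega) h1 hθ k hk
    rcases Nat.lt_or_ge n 905 with h' | h'
    · exact rows_sound (lo := 755) (m := 150) (by norm_num) (by norm_num) rowsF_len rowsF_ok
        (by omega) (by omega) h1 hθ k hk
    rcases Nat.lt_or_ge n 1055 with h' | h'
    · exact rows_sound (lo := 905) (m := 150) (by norm_num) (by norm_num) rowsG_len rowsG_ok
        (by omega) (by omega) h1 hθ k hk
    rcases Nat.lt_or_ge n 1205 with h' | h'
    · exact rows_sound (lo := 1055) (m := 150) (by norm_num) (by norm_num) rowsH_len rowsH_ok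
        (by omega) (by omega) h1 hθ k hk
    rcases Nat.lt_or_ge n 1355 with h' | h'
    · exact rows_sound (lo := 1205) (m := 150) (by norm_num) (by norm_num) rowsI_len rowsI_ok
        (by omega) (by omega) h1 hθ k hk
    · exact rows_sound (lo := 1355) (m := 144) (by norm_num) (by norm_num) rowsJ_len rowsJ_ok
        (by omega) (by omega) h1 hθ k hk
  · rcases le_or_gt (k * log θ) 0.26 with h' | h'
    · exact caseG h h1 hθ hk h'
    · exact caseH h h1 hθ h'.le

/-- existence and uniqueness of the dominant root -/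
theorem exists_unique_root {d : ℕ} (hd : 2 ≤ d) :
    ∃! θ : ℝ, 1 < θ ∧ θ ^ d - θ ^ (d - 1) - 1 = 0 := by
  obtain ⟨n, rfl⟩ : ∃ n, d = n + 1 := ⟨d - 1, by omega⟩
  simp only [Nat.add_sub_cancel]
  let f : ℝ → ℝ := fun x => x ^ (n + 1) - x ^ n - 1
  have hf : ∀ x, f x = x ^ n * (x - 1) - 1 := by intro x; simp only [f]; ring
  have hc : ContinuousOn f (Set.Icc 1 2) := by
    apply Continuous.continuousOn
    fun_prop
  have h1 : f 1 = -1 := by rw [hf]; norm_num
  have h2 : 0 ≤ f 2 := by
    rw [hf]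
    have : (1 : ℝ) ≤ 2 ^ n := one_le_pow₀ (by norm_num)
    linarith
  have himg := intermediate_value_Icc (by norm_num : (1 : ℝ) ≤ 2) hc
  obtain ⟨θ, ⟨ha, hb⟩, h0⟩ := himg (show (0 : ℝ) ∈ Set.Icc (f 1) (f 2) by
    rw [h1]; exact ⟨by norm_num, h2⟩)
  have hθ1 : 1 < θ := by
    rcases ha.lt_or_eq with h | h
    · exact h
    · exfalso
      rw [← h, h1] at h0
      norm_num at h0
  refine ⟨θ, ⟨hθ1, h0⟩, ?_⟩
  rintro y ⟨hy1, hy⟩
  have e1 : θ ^ n * (θ - 1) = 1 := by
    have := hf θ
    rw [h0] at this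
    linarith
  have e2 : y ^ n * (y - 1) = 1 := by
    have h3 : f y = 0 := hy
    have := hf y
    rw [h3] at this
    linarith
  rcases lt_trichotomy y θ with h | h | h
  · exfalso
    have h3 : y ^ n ≤ θ ^ n := pow_le_pow_left₀ (by linarith) h.le n
    have h4 : 0 < y ^ n := by positivity
    have h5 : y ^ n * (y - 1) < θ ^ n * (θ - 1) :=
      calc y ^ n * (y - 1) < y ^ n * (θ - 1) := mul_lt_mul_of_pos_left (by linarith) h4
        _ ≤ θ ^ n * (θ - 1) := mul_le_mul_of_nonneg_right h3 (by linarith)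
    linarith
  · exact h
  · exfalso
    have h3 : θ ^ n ≤ y ^ n := pow_le_pow_left₀ (by linarith) h.le n
    have h4 : 0 < θ ^ n := by positivity
    have h5 : θ ^ n * (θ - 1) < y ^ n * (y - 1) :=
      calc θ ^ n * (θ - 1) < θ ^ n * (y - 1) := mul_lt_mul_of_pos_left (by linarith) h4
        _ ≤ y ^ n * (y - 1) := mul_le_mul_of_nonneg_right h3 (by linarith)
    linarith

end PowTri
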